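import Pool.Agent.Lib.MP_f10cd3_gt.G.Defs

/-! Row A: linear algebra. -/

set_option autoImplicit false

namespace F10G

/-- `dim {ψ ∈ H : I(φ, ψ) = 0 for all φ ∈ N} = dim H - dim N` -/
theorem finrank_perp {W : Type} [AddCommGroup W] [Module ℝ W] (H N : Submodule ℝ W)
    [FiniteDimensional ℝ H] (hN : N ≤ H) (I : W →ₗ[ℝ] W →ₗ[ℝ] ℝ)
    (hI : ∀ ψ ∈ H, (∀ φ ∈ H, I φ ψ = 0) → ψ = 0) (P : Submodule ℝ W)
    (hP : ∀ ψ, ψ ∈ P ↔ ψ ∈ H ∧ ∀ φ ∈ N, I φ ψ = 0) :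
    Module.finrank ℝ P + Module.finrank ℝ N = Module.finrank ℝ H := by
  let B : H →ₗ[ℝ] Module.Dual ℝ H := H.subtype.dualMap ∘ₗ I.flip ∘ₗ H.subtype
  have hBv : ∀ ψ φ : H, B ψ φ = I φ ψ := fun ψ φ => rfl
  have hBi : Function.Injective B := by
    rw [← LinearMap.ker_eq_bot, LinearMap.ker_eq_bot']
    intro ψ hψ
    apply Subtype.ext
    refine hI ψ ψ.2 (fun φ hφ => ?_)
    have h1 := hBv ψ ⟨φ, hφ⟩
    rw [hψ] at h1
    exact h1.symm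
  have hBs : Function.Surjective B :=
    (LinearMap.injective_iff_surjective_of_finrank_eq_finrank
      (Subspace.dual_finrank_eq (K := ℝ) (V := H)).symm).1 hBi
  have hNfd : FiniteDimensional ℝ N := Submodule.finiteDimensional_of_le hN
  let C : H →ₗ[ℝ] Module.Dual ℝ N := (Submodule.inclusion hN).dualMap ∘ₗ B
  have hCs : Function.Surjective C := by
    have h1 : Function.Surjective (Submodule.inclusion hN).dualMap :=
      LinearMap.dualMap_surjective_of_injective (Submodule.inclusion_injective hN)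
    exact h1.comp hBs
  have hCv : ∀ (ψ : H) (φ : N), C ψ φ = I φ ψ := fun ψ φ => rfl
  have hker : LinearMap.ker C = P.comap H.subtype := by
    ext ψ
    rw [LinearMap.mem_ker, Submodule.mem_comap, Submodule.subtype_apply, hP]
    constructor
    · intro h
      refine ⟨ψ.2, fun φ hφ => ?_⟩
      have h1 := hCv ψ ⟨φ, hφ⟩
      rw [h] at h1
      exact h1.symm
    · rintro ⟨_, h⟩
      ext φ
      rw [hCv]
      exact h φ φ.2
  have hPH : P ≤ H := fun ψ hψ => ((hP ψ).1 hψ).1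
  have h1 := LinearMap.finrank_range_add_finrank_ker C
  rw [LinearMap.range_eq_top.2 hCs, finrank_top, Subspace.dual_finrank_eq, hker,
    (Submodule.comapSubtypeEquivOfLe hPH).finrank_eq] at h1
  omega

theorem alg_final {W W' : Type} [AddCommGroup W] [Module ℝ W] [AddCommGroup W'] [Module ℝ W']
    (H N : Submodule ℝ W) (H' N' : Submodule ℝ W') [FiniteDimensional ℝ H]
    [FiniteDimensional ℝ H'] (hN : N ≤ H) (hN' : N' ≤ H')
    (I : W →ₗ[ℝ] W →ₗ[ℝ] ℝ) (I' : W' →ₗ[ℝ] W' →ₗ[ℝ] ℝ)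
    (hI : ∀ ψ ∈ H, (∀ φ ∈ H, I φ ψ = 0) → ψ = 0)
    (hI' : ∀ ψ ∈ H', (∀ φ ∈ H', I' φ ψ = 0) → ψ = 0)
    (T : W' →ₗ[ℝ] W) (T' : W →ₗ[ℝ] W') (h1 : ∀ φ ∈ N', T φ ∈ N) (h2 : ∀ φ ∈ N, T' φ ∈ N')
    (h3 : ∀ φ ∈ N, T (T' φ) = φ) (h3' : ∀ φ ∈ N', T' (T φ) = φ)
    (h4 : ∀ ψ ∈ H', (∀ φ ∈ N', I' φ ψ = 0) →
      T ψ ∈ H ∧ (∀ φ ∈ N, I φ (T ψ) = 0) ∧ T' (T ψ) = ψ) :
    Module.finrank ℝ H' ≤ Module.finrank ℝ H := by
  let P : Submodule ℝ W :=
    { carrier := {ψ | ψ ∈ H ∧ ∀ φ ∈ N, I φ ψ = 0}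
      add_mem' := by
        rintro a b ⟨ha, ha'⟩ ⟨hb, hb'⟩
        exact ⟨H.add_mem ha hb, fun φ hφ => by rw [map_add, ha' φ hφ, hb' φ hφ, add_zero]⟩
      zero_mem' := ⟨H.zero_mem, fun φ _ => map_zero _⟩
      smul_mem' := by
        rintro c a ⟨ha, ha'⟩
        exact ⟨H.smul_mem c ha, fun φ hφ => by rw [map_smul, ha' φ hφ, smul_zero]⟩ }
  let P' : Submodule ℝ W' :=
    { carrier := {ψ | ψ ∈ H' ∧ ∀ φ ∈ N', I' φ ψ = 0}
      add_mem' := by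
        rintro a b ⟨ha, ha'⟩ ⟨hb, hb'⟩
        exact ⟨H'.add_mem ha hb, fun φ hφ => by rw [map_add, ha' φ hφ, hb' φ hφ, add_zero]⟩
      zero_mem' := ⟨H'.zero_mem, fun φ _ => map_zero _⟩
      smul_mem' := by
        rintro c a ⟨ha, ha'⟩
        exact ⟨H'.smul_mem c ha, fun φ hφ => by rw [map_smul, ha' φ hφ, smul_zero]⟩ }
  have hPm : ∀ ψ, ψ ∈ P ↔ ψ ∈ H ∧ ∀ φ ∈ N, I φ ψ = 0 := fun ψ => Iff.rfl
  have hPm' : ∀ ψ, ψ ∈ P' ↔ ψ ∈ H' ∧ ∀ φ ∈ N', I' φ ψ = 0 := fun ψ => Iff.rfl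
  have e1 := finrank_perp H N hN I hI P hPm
  have e2 := finrank_perp H' N' hN' I' hI' P' hPm'
  have hNfd : FiniteDimensional ℝ N := Submodule.finiteDimensional_of_le hN
  have hPfd : FiniteDimensional ℝ P :=
    Submodule.finiteDimensional_of_le (fun ψ hψ => ((hPm ψ).1 hψ).1)
  -- comparison of `N` and `N'`
  have e3 : Module.finrank ℝ N' ≤ Module.finrank ℝ N := by
    let TN : N' →ₗ[ℝ] N := T.restrict h1
    refine LinearMap.finrank_le_finrank_of_injective (f := TN) ?_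
    intro a b hab
    have h5 : T a = T b := congrArg Subtype.val hab
    apply Subtype.ext
    rw [← h3' a a.2, ← h3' b b.2, h5]
  have e4 : Module.finrank ℝ P' ≤ Module.finrank ℝ P := by
    have h6 : ∀ ψ ∈ P', T ψ ∈ P := fun ψ hψ =>
      ⟨(h4 ψ hψ.1 hψ.2).1, (h4 ψ hψ.1 hψ.2).2.1⟩
    let TP : P' →ₗ[ℝ] P := T.restrict h6
    refine LinearMap.finrank_le_finrank_of_injective (f := TP) ?_
    intro a b hab
    have h5 : T a = T b := congrArg Subtype.val hab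
    apply Subtype.ext
    rw [← (h4 a a.2.1 a.2.2).2.2, ← (h4 b b.2.1 b.2.2).2.2, h5]
  omega

end F10G
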