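import Pool.Agent.Lib.MP_f10cd3_gt.G.Defs

/-! Row G2: curvature `≥ -κ` (four point comparison) implies `NoThree κ X`.  With `a, b ≤ A`,
`c ≥ 2(A-τ)`: `cosh c > cosh a cosh b + sinh a sinh b / 2` (arguments times `√κ`), so every
comparison angle is `> 2π/3`.  It suffices that `4 cosh(2A-2τ) > 3 cosh(2A) + 1`, which follows from
`4 sinh(2τ) < tanh A`, using `cosh(u-v) ≥ cosh u - sinh u sinh v`, and
`(cosh u - 1)/sinh u = tanh(u/2)`.  For `12 τ ≤ A ≤ 1/2` : `sinh(2τ) ≤ sinh(A/6)`, convexity. -/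

set_option autoImplicit false

namespace F10G

variable {X : Type} [MetricSpace X]

theorem cosh_bound {A τ : ℝ} (hτ : 0 ≤ τ) (hA : 4 * Real.sinh (2 * τ) < Real.tanh A) :
    τ < A ∧ 3 * Real.cosh (2 * A) + 1 < 4 * Real.cosh (2 * (A - τ)) := by
  have hs0 : 0 ≤ Real.sinh (2 * τ) := Real.sinh_nonneg_iff.2 (by linarith)
  have ht0 : 0 < Real.tanh A := by linarith
  have hc : 0 < Real.cosh A := Real.cosh_pos A
  have hsA : 0 < Real.sinh A := by
    rw [Real.tanh_eq_sinh_div_cosh] at ht0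
    exact (div_pos_iff_of_pos_right hc).1 ht0
  have hA0 : 0 < A := Real.sinh_pos_iff.1 hsA
  have hc1 : 1 ≤ Real.cosh A := Real.one_le_cosh A
  have htanh : Real.tanh A * Real.cosh A = Real.sinh A := by
    rw [Real.tanh_eq_sinh_div_cosh]
    field_simp
  constructor
  · by_contra hcon
    push Not at hcon
    have h1 : Real.sinh (2 * A) ≤ Real.sinh (2 * τ) := Real.sinh_le_sinh.2 (by linarith)
    rw [Real.sinh_two_mul] at h1
    have h2 : Real.tanh A ≤ Real.sinh A := by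
      rw [← htanh]
      nlinarith
    nlinarith
  · have h1 : 2 * (A - τ) = 2 * A - 2 * τ := by ring
    rw [h1, Real.cosh_sub]
    have h2 : 1 ≤ Real.cosh (2 * τ) := Real.one_le_cosh _
    have h3 : 0 < Real.cosh (2 * A) := Real.cosh_pos _
    have h4 : Real.cosh (2 * A) ≤ Real.cosh (2 * A) * Real.cosh (2 * τ) := by nlinarith
    have h5 : 0 < Real.sinh (2 * A) := Real.sinh_pos_iff.2 (by linarith)
    have h6 : Real.sinh (2 * A) * (4 * Real.sinh (2 * τ)) < Real.sinh (2 * A) * Real.tanh A :=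
      mul_lt_mul_of_pos_left hA h5
    have h7 : Real.sinh (2 * A) * Real.tanh A = 2 * Real.sinh A ^ 2 := by
      rw [Real.sinh_two_mul]
      calc 2 * Real.sinh A * Real.cosh A * Real.tanh A
          = 2 * Real.sinh A * (Real.tanh A * Real.cosh A) := by ring
        _ = 2 * Real.sinh A ^ 2 := by rw [htanh]; ring
    have h8 : Real.cosh (2 * A) = 2 * Real.sinh A ^ 2 + 1 := by
      rw [Real.cosh_two_mul, Real.cosh_sq]
      ring
    nlinarith

theorem num_tanh {A τ : ℝ} (hτ : 0 ≤ τ) (h : 12 * τ ≤ A) (hA : 0 < A) (hA' : 2 * A ≤ 1) :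
    4 * Real.sinh (2 * τ) < Real.tanh A := by
  have h1 : Real.sinh (2 * τ) ≤ Real.sinh (A / 6) := Real.sinh_le_sinh.2 (by linarith)
  have h2 : Real.sinh (A / 6) ≤ 23 / 22 * (A / 6) := by
    have e1 : Real.exp (A / 6) ≤ 1 / (1 - A / 6) := by
      apply Real.exp_bound_div_one_sub_of_interval (by linarith) (by linarith)
    have e2 : 1 - A / 6 ≤ Real.exp (-(A / 6)) := by
      have := Real.add_one_le_exp (-(A / 6))
      linarith
    rw [Real.sinh_eq]
    have e3 : 1 / (1 - A / 6) ≤ 1 - A / 6 + 2 * (23 / 22 * (A / 6)) := by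
      rw [div_le_iff₀ (by linarith)]
      nlinarith
    linarith
  have h3 : Real.cosh A ≤ 14 / 10 := by
    have e1 : Real.cosh A ≤ Real.exp (A ^ 2 / 2) := Real.cosh_le_exp_half_sq A
    have e2 : Real.exp (A ^ 2 / 2) ≤ 1 / (1 - A ^ 2 / 2) := by
      apply Real.exp_bound_div_one_sub_of_interval (by positivity) (by nlinarith)
    have e3 : 1 / (1 - A ^ 2 / 2) ≤ 14 / 10 := by
      rw [div_le_iff₀ (by nlinarith)]
      nlinarith
    linarith
  have h4 : A ≤ Real.sinh A := Real.self_le_sinh_iff.2 hA.le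
  have hc : 0 < Real.cosh A := Real.cosh_pos A
  rw [Real.tanh_eq_sinh_div_cosh, lt_div_iff₀ hc]
  have h5 : 4 * Real.sinh (2 * τ) ≤ 23 / 33 * A := by linarith
  have h6 : 4 * Real.sinh (2 * τ) * Real.cosh A ≤ 23 / 33 * A * Real.cosh A :=
    mul_le_mul_of_nonneg_right h5 hc.le
  have h7 : 23 / 33 * A * Real.cosh A ≤ 23 / 33 * A * (14 / 10) :=
    mul_le_mul_of_nonneg_left h3 (by positivity)
  nlinarith

theorem cang_gt {κ a b c A τ : ℝ} (hκ : 0 < κ) (hτ : 0 ≤ τ)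
    (hA : 4 * Real.sinh (2 * (√κ * τ)) < Real.tanh (√κ * A)) (ha : 0 < a) (ha' : a ≤ A)
    (hb : 0 < b) (hb' : b ≤ A) (hc : 2 * (A - τ) ≤ c) :
    2 * Real.pi / 3 < cang κ a b c := by
  have hs : 0 < √κ := Real.sqrt_pos.2 hκ
  obtain ⟨h1, h2⟩ := cosh_bound (mul_nonneg hs.le hτ) hA
  have hsa : 0 < Real.sinh (√κ * a) := Real.sinh_pos_iff.2 (mul_pos hs ha)
  have hsb : 0 < Real.sinh (√κ * b) := Real.sinh_pos_iff.2 (mul_pos hs hb)
  have haA : √κ * a ≤ √κ * A := mul_le_mul_of_nonneg_left ha' hs.le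
  have hbA : √κ * b ≤ √κ * A := mul_le_mul_of_nonneg_left hb' hs.le
  have hsaA : Real.sinh (√κ * a) ≤ Real.sinh (√κ * A) := Real.sinh_le_sinh.2 haA
  have hsbA : Real.sinh (√κ * b) ≤ Real.sinh (√κ * A) := Real.sinh_le_sinh.2 hbA
  have hcaA : Real.cosh (√κ * a) ≤ Real.cosh (√κ * A) := by
    rw [Real.cosh_le_cosh, abs_of_pos (mul_pos hs ha), abs_of_pos]
    · exact haA
    · exact lt_of_lt_of_le (mul_pos hs ha) haA
  have hcbA : Real.cosh (√κ * b) ≤ Real.cosh (√κ * A) := by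
    rw [Real.cosh_le_cosh, abs_of_pos (mul_pos hs hb), abs_of_pos]
    · exact hbA
    · exact lt_of_lt_of_le (mul_pos hs hb) hbA
  have hcos : Real.cosh (2 * (√κ * A - √κ * τ)) ≤ Real.cosh (√κ * c) := by
    have e1 : 2 * (√κ * A - √κ * τ) = √κ * (2 * (A - τ)) := by ring
    have e2 : √κ * (2 * (A - τ)) ≤ √κ * c := mul_le_mul_of_nonneg_left hc hs.le
    have e3 : 0 < 2 * (√κ * A - √κ * τ) := by linarith
    rw [Real.cosh_le_cosh, abs_of_pos e3, abs_of_pos]
    · linarith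
    · linarith
  have hca0 : 0 < Real.cosh (√κ * a) := Real.cosh_pos _
  have hcb0 : 0 < Real.cosh (√κ * b) := Real.cosh_pos _
  have hm1 : Real.cosh (√κ * a) * Real.cosh (√κ * b) ≤ Real.cosh (√κ * A) ^ 2 := by
    rw [sq]
    exact mul_le_mul hcaA hcbA hcb0.le (Real.cosh_pos _).le
  have hm2 : Real.sinh (√κ * a) * Real.sinh (√κ * b) ≤ Real.sinh (√κ * A) ^ 2 := by
    rw [sq]
    exact mul_le_mul hsaA hsbA hsb.le (hsa.le.trans hsaA)
  have h8 : Real.cosh (2 * (√κ * A)) = 2 * Real.sinh (√κ * A) ^ 2 + 1 := by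
    rw [Real.cosh_two_mul, Real.cosh_sq]
    ring
  have h9 : Real.cosh (√κ * A) ^ 2 = Real.sinh (√κ * A) ^ 2 + 1 := Real.cosh_sq _
  have hD : 0 < Real.sinh (√κ * a) * Real.sinh (√κ * b) := mul_pos hsa hsb
  have harg : (Real.cosh (√κ * a) * Real.cosh (√κ * b) - Real.cosh (√κ * c)) /
    (Real.sinh (√κ * a) * Real.sinh (√κ * b)) < -(1 / 2) := by
    rw [div_lt_iff₀ hD]
    nlinarith
  have hpi : Real.arccos (-(1 / 2)) = 2 * Real.pi / 3 := by
    rw [Real.arccos_neg]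
    have e1 : Real.arccos (1 / 2) = Real.pi / 3 := by
      rw [← Real.cos_pi_div_three]
      exact Real.arccos_cos (by positivity) (by linarith [Real.pi_pos])
    rw [e1]
    ring
  unfold cang
  rcases le_or_gt ((Real.cosh (√κ * a) * Real.cosh (√κ * b) - Real.cosh (√κ * c)) /
    (Real.sinh (√κ * a) * Real.sinh (√κ * b))) (-1) with hle | hgt
  · rw [Real.arccos_of_le_neg_one hle]
    linarith [Real.pi_pos]
  · rw [← hpi]
    exact Real.arccos_lt_arccos hgt.le harg (by norm_num)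

theorem noThree_of_curvGe {κ : ℝ} (hκ : 0 < κ) (hX : CurvGe κ X) : NoThree κ X := by
  intro x p1 p2 p3 A τ hτ h12 hA h1 h1' h2 h2' h3 h3' d12 d23 d31
  have hs : 0 < √κ := Real.sqrt_pos.2 hκ
  have hA0 : 0 < A := lt_of_lt_of_le h1 h1'
  have hn : 4 * Real.sinh (2 * (√κ * τ)) < Real.tanh (√κ * A) := by
    apply num_tanh (mul_nonneg hs.le hτ)
    · have := mul_le_mul_of_nonneg_left h12 hs.le
      linarith
    · exact mul_pos hs hA0
    · linarith
  have k1 := cang_gt hκ hτ hn h1 h1' h2 h2' d12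
  have k2 := cang_gt hκ hτ hn h2 h2' h3 h3' d23
  have k3 := cang_gt hκ hτ hn h3 h3' h1 h1' d31
  have hne : ∀ p : X, 0 < dist x p → p ≠ x := fun p hp he => by
    rw [he, dist_self] at hp
    exact lt_irrefl _ hp
  have := hX x p1 p2 p3 (hne p1 h1) (hne p2 h2) (hne p3 h3)
  linarith

end F10G
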