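import Pool.Agent.Lib.MP_f10cd3_gt.G.Geod

/-! Row G4a. -/

set_option autoImplicit false

namespace F10G

open MPf10cd3

variable {Γ X M : Type} [Group Γ] [MetricSpace X] [MulAction Γ X] [MetricSpace M] {π : X → M}

/-- Step 1. `h y = φ γ` if `d(y, γ x) < 2R`: a locally constant equivariant function on the
preimage of the ball of radius `2R`, because `φ` vanishes on the loops of length `< 4R + η0`. -/
theorem exists_loc (hc : IsCover Γ π) {x : X} {R η0 : ℝ} (hR : 0 < R) (hη0 : 0 < η0) {φ : Γ → ℝ}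
    (hφ : φ ∈ Hm Γ) (hv : VanAt π (π x) (4 * R + η0) φ) :
    ∃ h : X → ℝ, Eqv φ h ∧ (∀ y z, dist (π x) (π y) < 2 * R → dist (π x) (π z) < 2 * R →
      dist y z < η0 → h y = h z) := by
  classical
  have hmul : ∀ a b, φ (a * b) = φ a + φ b := hφ
  have hone : φ 1 = 0 := by
    have := hmul 1 1
    rw [mul_one] at this
    linarith
  have hinv : ∀ a, φ a⁻¹ = -φ a := by
    intro a
    have := hmul a⁻¹ a
    rw [inv_mul_cancel, hone] at this
    linarith
  -- two elements moving `x` to close points have the same value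
  have hclose : ∀ a b : Γ, dist (a • x) (b • x) < 4 * R + η0 → φ a = φ b := by
    intro a b hab
    have h1 : dist x ((a⁻¹ * b) • x) < 4 * R + η0 := by
      have h2 := hc.isom a x ((a⁻¹ * b) • x)
      rw [smul_smul, mul_inv_cancel_left] at h2
      rw [← h2]
      exact hab
    have h3 := hv x rfl _ h1
    rw [hmul, hinv] at h3
    linarith
  have hg : ∀ y : X, ∃ γ : Γ, dist y (γ • x) = dist (π y) (π x) := fun y => hc.lift y x
  choose g hg using hg
  have hs : ∀ y : X, ∃ γ : Γ, y = γ • (Function.surjInv hc.surj (π y)) := by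
    intro y
    obtain ⟨γ, hγ⟩ := hc.lift y (Function.surjInv hc.surj (π y))
    rw [Function.surjInv_eq hc.surj, dist_self] at hγ
    exact ⟨γ, dist_eq_zero.1 hγ⟩
  choose d hd using hs
  have hfree : ∀ (a b : Γ) (y : X), a • y = b • y → a = b := by
    intro a b y hab
    obtain ⟨ι, hι, hι2⟩ := hc.free
    by_contra hne
    have h1 : b⁻¹ * a ≠ 1 := by
      intro h
      apply hne
      exact (inv_mul_eq_one.1 h).symm
    have h2 := hι2 _ h1 y
    have h3 : (b⁻¹ * a) • y = y := by
      rw [mul_smul, hab, inv_smul_smul]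
    rw [h3, dist_self] at h2
    linarith
  refine ⟨fun y => if dist (π x) (π y) < 2 * R then φ (g y) else φ (d y), ?_, ?_⟩
  · intro γ y
    show (if dist (π x) (π (γ • y)) < 2 * R then φ (g (γ • y)) else φ (d (γ • y))) =
      (if dist (π x) (π y) < 2 * R then φ (g y) else φ (d y)) + φ γ
    rw [hc.inv]
    split_ifs with h
    · have h1 : φ (g (γ • y)) = φ (γ * g y) := by
        apply hclose
        have h2 : dist (γ • y) (g (γ • y) • x) < 2 * R := by
          rw [hg, hc.inv, dist_comm]; exact h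
        have h3 : dist (γ • y) ((γ * g y) • x) < 2 * R := by
          rw [mul_smul, hc.isom, hg, dist_comm]; exact h
        calc dist (g (γ • y) • x) ((γ * g y) • x) ≤ dist (g (γ • y) • x) (γ • y) +
              dist (γ • y) ((γ * g y) • x) := dist_triangle _ _ _
          _ < 4 * R + η0 := by
            rw [dist_comm (g (γ • y) • x)]
            linarith
      rw [h1, hmul]
      ring
    · have h1 : d (γ • y) = γ * d y := by
        apply hfree _ _ (Function.surjInv hc.surj (π y))
        have h2 := hd (γ • y)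
        rw [hc.inv] at h2
        rw [← h2, mul_smul, ← hd y]
      rw [h1, hmul]
      ring
  · intro y z hy hz hyz
    show (if dist (π x) (π y) < 2 * R then φ (g y) else φ (d y)) =
      (if dist (π x) (π z) < 2 * R then φ (g z) else φ (d z))
    rw [if_pos hy, if_pos hz]
    apply hclose
    have h2 : dist y (g y • x) < 2 * R := by
      rw [hg, dist_comm]; exact hy
    have h3 : dist z (g z • x) < 2 * R := by
      rw [hg, dist_comm]; exact hz
    calc dist (g y • x) (g z • x) ≤ dist (g y • x) y + dist y z + dist z (g z • x) :=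
          dist_triangle4 _ _ _ _
      _ < 4 * R + η0 := by
        rw [dist_comm (g y • x)]
        linarith

private theorem G4b_const {g : X → ℝ × ℝ} (hG : IsGeod X) {η : ℝ} (hη : 0 < η) {x y : X}
    (hE : ∀ z w, dist x z + dist z y = dist x y → dist x w + dist w y = dist x y → dist z w < η →
      g z = g w) : g x = g y := by
  have h1 : (g x).1 = (g y).1 := const_along hG (E := fun z => (g z).1) hη
    (fun z w h1 h2 h3 => congrArg Prod.fst (hE z w h1 h2 h3))
  have h2 : (g x).2 = (g y).2 := const_along hG (E := fun z => (g z).2) hη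
    (fun z w h1 h2 h3 => congrArg Prod.snd (hE z w h1 h2 h3))
  exact Prod.ext h1 h2

private theorem G4b_move (hc : IsCover Γ π) (hG : IsGeod X)
    {x : X} {r R : ℝ} (hr : 0 < r) (hrR : 12 * r ≤ R) {g : X → ℝ × ℝ}
    (hg : ∀ (γ : Γ) (y : X), g (γ • y) = g y) {η : ℝ} (hη : 0 < η)
    (hgl : ∀ y z, dist y z < η → r ≤ dist (π x) (π y) → dist (π x) (π y) < 2 * R →
      r ≤ dist (π x) (π z) → dist (π x) (π z) < 2 * R → g y = g z)
    {y : X} (h1 : R ≤ dist (π x) (π y)) (h2 : dist (π x) (π y) < 2 * R) :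
    ∃ z, dist x z = R ∧ dist (π x) (π z) = R ∧ g z = g y := by
  obtain ⟨γ, hγ⟩ := hc.lift x y
  have hR0 : 0 ≤ R := by linarith
  obtain ⟨z, hz1, hz2⟩ := geo_pt hG x (γ • y) (t := R) hR0 (by rw [hγ]; exact h1)
  rw [hγ] at hz2
  have hpy : π (γ • y) = π y := hc.inv γ y
  have e1 : dist (π x) (π z) ≤ R := by
    have := hc.le x z
    linarith
  have e2 : dist (π z) (π y) ≤ dist (π x) (π y) - R := by
    have := hc.le z (γ • y)
    rw [hpy, hz2] at this
    exact this
  have e3 := dist_triangle (π x) (π z) (π y)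
  refine ⟨z, hz1, le_antisymm e1 (by linarith), ?_⟩
  rw [← hg γ y]
  apply G4b_const hG hη
  have key : ∀ w, dist z w + dist w (γ • y) = dist z (γ • y) →
      r ≤ dist (π x) (π w) ∧ dist (π x) (π w) < 2 * R := by
    intro w hw
    rw [hz2] at hw
    have a1 := hc.le x w
    have a2 := dist_triangle x z w
    have a3 : 0 ≤ dist w (γ • y) := dist_nonneg
    have a4 : 0 ≤ dist z w := dist_nonneg
    have a5 := hc.le w (γ • y)
    rw [hpy] at a5
    have a6 := dist_triangle (π x) (π w) (π y)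
    constructor
    · linarith
    · linarith
  intro z' w' hz' hw' hd
  exact hgl z' w' hd (key z' hz').1 (key z' hz').2 (key w' hw').1 (key w' hw').2

private theorem G4b_far (hc : IsCover Γ π) (hG : IsGeod X)
    {x : X} {r R : ℝ} (hr : 0 < r) {g : X → ℝ × ℝ} {η : ℝ} (hη : 0 < η)
    (hgl : ∀ y z, dist y z < η → r ≤ dist (π x) (π y) → dist (π x) (π y) < 2 * R →
      r ≤ dist (π x) (π z) → dist (π x) (π z) < 2 * R → g y = g z)
    {z1 z2 : X} (h1 : dist (π x) (π z1) = R) (h2 : dist (π x) (π z2) = R) (hne : g z1 ≠ g z2) :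
    2 * (R - r) ≤ dist z1 z2 := by
  by_contra hlt
  rw [not_le] at hlt
  apply hne
  apply G4b_const hG hη
  have key : ∀ w, dist z1 w + dist w z2 = dist z1 z2 →
      r ≤ dist (π x) (π w) ∧ dist (π x) (π w) < 2 * R := by
    intro w hw
    have a1 := hc.le z1 w
    have a2 := hc.le w z2
    have a3 := dist_triangle (π x) (π z1) (π w)
    have a4 := dist_triangle (π x) (π w) (π z1)
    have a5 := dist_triangle (π x) (π z2) (π w)
    have a6 := dist_triangle (π x) (π w) (π z2)
    rw [dist_comm (π w) (π z1)] at a4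
    rw [dist_comm (π z2) (π w)] at a5
    rcases le_total (dist z1 w) (dist w z2) with h | h
    · constructor <;> linarith
    · constructor <;> linarith
  intro z' w' hz' hw' hd
  exact hgl z' w' hd (key z' hz').1 (key z' hz').2 (key w' hw').1 (key w' hw').2

theorem two_values {κ : ℝ} (hc : IsCover Γ π) (hG : IsGeod X) (hX : NoThree κ X)
    {x : X} {r R : ℝ} (hr : 0 < r) (hrR : 12 * r ≤ R) (hR : 2 * √κ * R ≤ 1) {g : X → ℝ × ℝ}
    (hg : ∀ (γ : Γ) (y : X), g (γ • y) = g y) {η : ℝ} (hη : 0 < η)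
    (hgl : ∀ y z, dist y z < η → r ≤ dist (π x) (π y) → dist (π x) (π y) < 2 * R →
      r ≤ dist (π x) (π z) → dist (π x) (π z) < 2 * R → g y = g z) :
    ∃ u v : ℝ × ℝ, ∀ y, R ≤ dist (π x) (π y) → dist (π x) (π y) < 2 * R → g y = u ∨ g y = v := by
  by_contra hcon
  push Not at hcon
  obtain ⟨y1, a1, b1, c1, -⟩ := hcon 0 0
  obtain ⟨y2, a2, b2, c2, -⟩ := hcon (g y1) (g y1)
  obtain ⟨y3, a3, b3, c3, d3⟩ := hcon (g y1) (g y2)
  obtain ⟨z1, p1, q1, e1⟩ := G4b_move hc hG hr hrR hg hη hgl a1 b1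
  obtain ⟨z2, p2, q2, e2⟩ := G4b_move hc hG hr hrR hg hη hgl a2 b2
  obtain ⟨z3, p3, q3, e3⟩ := G4b_move hc hG hr hrR hg hη hgl a3 b3
  have hR0 : 0 < R := by linarith
  refine hX x z1 z2 z3 R r hr.le hrR hR (by rw [p1]; exact hR0) p1.le (by rw [p2]; exact hR0)
    p2.le (by rw [p3]; exact hR0) p3.le ?_ ?_ ?_
  · exact G4b_far hc hG hr hη hgl q1 q2 (by rw [e1, e2]; exact c2.symm)
  · exact G4b_far hc hG hr hη hgl q2 q3 (by rw [e2, e3]; exact d3.symm)
  · exact G4b_far hc hG hr hη hgl q3 q1 (by rw [e3, e1]; exact c3)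

/-- a linear form which takes the same value at two points of the plane -/
private theorem G4c_form (u v : ℝ × ℝ) : ∃ a b : ℝ, (a ≠ 0 ∨ b ≠ 0) ∧
    a * v.1 + b * v.2 = a * u.1 + b * u.2 := by
  by_cases h : u.2 - v.2 = 0 ∧ u.1 - v.1 = 0
  · refine ⟨1, 0, Or.inl one_ne_zero, ?_⟩
    have := h.2
    linarith
  · refine ⟨-(u.2 - v.2), u.1 - v.1, ?_, by ring⟩
    by_contra hcon
    rw [not_or, not_not, not_not, neg_eq_zero] at hcon
    exact h hcon

/-- Step 3. Choose `(a, b) ≠ 0` with `a u.1 + b u.2 = a v.1 + b v.2 = c`.  With `E = a E1 + b E2`,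
`h = a h1 + b h2` the function equal to `h + c` on the preimage of the ball of radius `2R` and to
`E` elsewhere is equivariant and locally constant, hence constant. -/
theorem one_dim {κ : ℝ} (hc : IsCover Γ π) (hG : IsGeod X) (hX : NoThree κ X)
    {p : M} {r R η0 : ℝ} (hr : 0 < r) (hrR : 12 * r ≤ R) (hR : 2 * √κ * R ≤ 1) (hη0 : 0 < η0)
    {φ1 φ2 : Γ → ℝ}
    (h1 : φ1 ∈ Hm Γ) (h2 : φ2 ∈ Hm Γ) (s1 : Sup π p r φ1) (s2 : Sup π p r φ2)
    (v1 : VanAt π p (4 * R + η0) φ1) (v2 : VanAt π p (4 * R + η0) φ2) :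
    ∃ a b : ℝ, (a ≠ 0 ∨ b ≠ 0) ∧ ∀ γ, a * φ1 γ + b * φ2 γ = 0 := by
  classical
  obtain ⟨x, rfl⟩ := hc.surj p
  have hR0 : 0 < R := by linarith
  obtain ⟨E1, hE1, η1, hη1, k1⟩ := s1
  obtain ⟨E2, hE2, η2, hη2, k2⟩ := s2
  obtain ⟨f1, hf1, l1⟩ := exists_loc hc hR0 hη0 h1 v1
  obtain ⟨f2, hf2, l2⟩ := exists_loc hc hR0 hη0 h2 v2
  have hηpos : 0 < min (min η1 η2) η0 := lt_min (lt_min hη1 hη2) hη0
  obtain ⟨u, v, huv⟩ := two_values (g := fun y => (E1 y - f1 y, E2 y - f2 y)) hc hG hX hr hrR hR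
    (by
      intro γ y
      have e1 := hE1 γ y
      have e2 := hE2 γ y
      have e3 := hf1 γ y
      have e4 := hf2 γ y
      simp only [e1, e2, e3, e4, add_sub_add_right_eq_sub])
    hηpos
    (by
      intro y z hyz ha hb hc' hd
      have q1 : dist y z < η1 := lt_of_lt_of_le hyz ((min_le_left _ _).trans (min_le_left _ _))
      have q2 : dist y z < η2 := lt_of_lt_of_le hyz ((min_le_left _ _).trans (min_le_right _ _))
      have q0 : dist y z < η0 := lt_of_lt_of_le hyz (min_le_right _ _)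
      show (E1 y - f1 y, E2 y - f2 y) = (E1 z - f1 z, E2 z - f2 z)
      rw [k1 y z q1 ha hc', k2 y z q2 ha hc', l1 y z hb hd q0, l2 y z hb hd q0])
  obtain ⟨a, b, hab, hc0⟩ := G4c_form u v
  refine ⟨a, b, hab, fun γ => ?_⟩
  -- the glued function
  set c : ℝ := a * u.1 + b * u.2 with hcdef
  have key : ∀ y, R ≤ dist (π x) (π y) → dist (π x) (π y) < 2 * R →
      a * E1 y + b * E2 y = a * f1 y + b * f2 y + c := by
    intro y ha hb
    rcases huv y ha hb with h | h
    · have e1 : E1 y - f1 y = u.1 := congrArg Prod.fst h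
      have e2 : E2 y - f2 y = u.2 := congrArg Prod.snd h
      rw [hcdef, ← e1, ← e2]; ring
    · have e1 : E1 y - f1 y = v.1 := congrArg Prod.fst h
      have e2 : E2 y - f2 y = v.2 := congrArg Prod.snd h
      rw [← hc0, ← e1, ← e2]; ring
  let F : X → ℝ := fun y =>
    if dist (π x) (π y) < 2 * R then a * f1 y + b * f2 y + c else a * E1 y + b * E2 y
  have hFin : ∀ y, dist (π x) (π y) < 2 * R → F y = a * f1 y + b * f2 y + c :=
    fun y hy => if_pos hy
  have hFout : ∀ y, ¬ dist (π x) (π y) < 2 * R → F y = a * E1 y + b * E2 y :=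
    fun y hy => if_neg hy
  have hηF : 0 < min (min (min η1 η2) η0) R := lt_min hηpos hR0
  -- one point inside and one point outside
  have mixed : ∀ y z, dist y z < min (min (min η1 η2) η0) R → dist (π x) (π y) < 2 * R →
      ¬ dist (π x) (π z) < 2 * R → F y = F z := by
    intro y z hyz hy hz
    have q1 : dist y z < η1 := lt_of_lt_of_le hyz
      ((min_le_left _ _).trans ((min_le_left _ _).trans (min_le_left _ _)))
    have q2 : dist y z < η2 := lt_of_lt_of_le hyz
      ((min_le_left _ _).trans ((min_le_left _ _).trans (min_le_right _ _)))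
    have q3 : dist y z < R := lt_of_lt_of_le hyz (min_le_right _ _)
    have hz' := not_lt.1 hz
    have q4 : dist (π x) (π z) ≤ dist (π x) (π y) + dist (π y) (π z) := dist_triangle _ _ _
    have q5 : dist (π y) (π z) ≤ dist y z := hc.le y z
    have q6 : R ≤ dist (π x) (π y) := by linarith
    rw [hFin y hy, hFout z hz, ← key y q6 hy,
      k1 y z q1 (by linarith) (by linarith), k2 y z q2 (by linarith) (by linarith)]
  have hloc : ∀ y z, dist y z < min (min (min η1 η2) η0) R → F y = F z := by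
    intro y z hyz
    have q1 : dist y z < η1 := lt_of_lt_of_le hyz
      ((min_le_left _ _).trans ((min_le_left _ _).trans (min_le_left _ _)))
    have q2 : dist y z < η2 := lt_of_lt_of_le hyz
      ((min_le_left _ _).trans ((min_le_left _ _).trans (min_le_right _ _)))
    have q0 : dist y z < η0 := lt_of_lt_of_le hyz
      ((min_le_left _ _).trans (min_le_right _ _))
    by_cases hy : dist (π x) (π y) < 2 * R <;> by_cases hz : dist (π x) (π z) < 2 * R
    · rw [hFin y hy, hFin z hz, l1 y z hy hz q0, l2 y z hy hz q0]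
    · exact mixed y z hyz hy hz
    · exact (mixed z y (by rwa [dist_comm]) hz hy).symm
    · have hy' := not_lt.1 hy
      have hz' := not_lt.1 hz
      rw [hFout y hy, hFout z hz, k1 y z q1 (by linarith) (by linarith),
        k2 y z q2 (by linarith) (by linarith)]
  have hconst : F x = F (γ • x) :=
    const_along hG hηF (fun z w _ _ hzw => hloc z w hzw)
  have hx0 : dist (π x) (π x) < 2 * R := by rw [dist_self]; linarith
  have hx1 : dist (π x) (π (γ • x)) < 2 * R := by rw [hc.inv]; exact hx0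
  rw [hFin x hx0, hFin (γ • x) hx1] at hconst
  have e3 := hf1 γ x
  have e4 := hf2 γ x
  rw [e3, e4] at hconst
  linarith

end F10G
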