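import Pool.Agent.Lib.MP_f10cd3_gt.G.Tr

/-! Row T4: the composition of the two transfers. -/

set_option autoImplicit false

namespace F10G

open MPf10cd3

variable {Γ X M : Type} [Group Γ] [MetricSpace X] [MulAction Γ X] [MetricSpace M]
variable {Γ' X' M' : Type} [Group Γ'] [MetricSpace X'] [MulAction Γ' X'] [MetricSpace M']

private theorem trComp_one {φ : Γ → ℝ} (hφ : φ ∈ Hm Γ) : φ 1 = 0 := by
  have h := hφ 1 1
  rw [mul_one] at h
  linarith

private theorem trComp_inv {φ : Γ → ℝ} (hφ : φ ∈ Hm Γ) (a : Γ) : φ a⁻¹ = - φ a := by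
  have h := hφ a⁻¹ a
  rw [inv_mul_cancel, trComp_one hφ] at h
  linarith

/-- if `a • w` and `b • w` are at distance `< L`, then `φ a = φ b` -/
private theorem trComp_eq {π : X → M} (hc : IsCover Γ π) {φ : Γ → ℝ} (hφ : φ ∈ Hm Γ) {L : ℝ}
    (hv : Van X L φ) {a b : Γ} {w : X} (h : dist (a • w) (b • w) < L) : φ a = φ b := by
  have h1 : dist w ((a⁻¹ * b) • w) < L := by
    have h2 := hc.isom a w ((a⁻¹ * b) • w)
    rw [← mul_smul, mul_inv_cancel_left] at h2
    rw [← h2]
    exact h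
  have h3 := hv w (a⁻¹ * b) h1
  have h4 := hφ a⁻¹ b
  rw [trComp_inv hφ] at h4
  linarith

/-- `E'` on `X'` is the primitive for `T' φ` (`E'(y') - E'(x') = φ(k(f'π'x', f'π'y'))` at the scale
`η + δ`), `E2` on `X` the primitive for `T (T' φ)`.  `A(x) = E2(x) + E'(s'(f(πx)))` is equivariant
for `T (T' φ)` with `A(y) - A(x) = φ(k(f'f πx, f'f πy))` for `d(x,y) < η`.  Choose `g x ∈ Γ` with
`d(x, g x • s(f'f πx)) = d(πx, f'f πx) < δ` (`hc.lift`); `B(x) = φ(g x)` is equivariant for `φ`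
and has the same differences (displacements `< 5δ + 2η`).  `eqv_uniq`. -/
theorem tr_comp [Nonempty X] (hG : IsGeod X) {π : X → M} {s : M → X} {k : M → M → Γ}
    (hc : IsCover Γ π) (hs : IsSec π s k)
    {π' : X' → M'} {s' : M' → X'} {k' : M' → M' → Γ'} (hc' : IsCover Γ' π')
    (hs' : IsSec π' s' k') {f : M → M'} {f' : M' → M} {δ η : ℝ} (hη : 0 < η)
    (hf : ∀ a b, |dist (f a) (f b) - dist a b| < δ)
    (hf' : ∀ a b, |dist (f' a) (f' b) - dist a b| < δ) (hff : ∀ a, dist a (f' (f a)) < δ)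
    {T : (Γ' → ℝ) →ₗ[ℝ] (Γ → ℝ)} (hT : IsTr X' π k' f δ η T)
    {T' : (Γ → ℝ) →ₗ[ℝ] (Γ' → ℝ)} (hT' : IsTr X π' k f' δ η T')
    {φ : Γ → ℝ} (hφ : φ ∈ Hm Γ) {L L' : ℝ} (hL : 6 * δ + 3 * η ≤ L) (hv : Van X L φ)
    (hL' : 3 * (η + δ) ≤ L') (hv' : Van X' L' (T' φ)) : T (T' φ) = φ := by
  have hδ : 0 < δ := lt_of_le_of_lt (abs_nonneg _)
    (hf (π (Classical.arbitrary X)) (π (Classical.arbitrary X)))
  obtain ⟨hm', E', hE', hd'⟩ := hT' φ hφ L (by linarith) hv
  obtain ⟨hm2, E2, hE2, hd2⟩ := hT (T' φ) hm' L' hL' hv'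
  have hd'1 := hd' (η + δ) (by linarith)
  have hd21 := hd2 η hL'
  -- the lifts
  have hg : ∀ x : X, ∃ g : Γ, dist x (g • s (f' (f (π x)))) < δ := by
    intro x
    obtain ⟨g, hg⟩ := hc.lift x (s (f' (f (π x))))
    refine ⟨g, ?_⟩
    rw [hg, hs.sec]
    exact hff (π x)
  choose g hg using hg
  -- distances under `f` and `f'`
  have hfd : ∀ x y : X, dist x y < η → dist (f (π x)) (f (π y)) < η + δ := by
    intro x y h
    have h1 := (abs_lt.1 (hf (π x) (π y))).2
    have h2 := hc.le x y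
    linarith
  refine eqv_uniq hG (E := fun x => E2 x + E' (s' (f (π x)))) (E' := fun x => φ (g x)) ?_ ?_ hη ?_
  · intro γ x
    show E2 (γ • x) + E' (s' (f (π (γ • x)))) = E2 x + E' (s' (f (π x))) + T (T' φ) γ
    rw [hE2 γ x, hc.inv]
    ring
  · intro γ x
    show φ (g (γ • x)) = φ (g x) + φ γ
    have h1 := hg (γ • x)
    rw [hc.inv] at h1
    have h2 : dist (γ • x) ((γ * g x) • s (f' (f (π x)))) < δ := by
      rw [mul_smul, hc.isom]
      exact hg x
    have h3 : φ (g (γ • x)) = φ (γ * g x) := by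
      refine trComp_eq hc hφ hv (w := s (f' (f (π x)))) ?_
      have h4 := dist_triangle_left (g (γ • x) • s (f' (f (π x))))
        ((γ * g x) • s (f' (f (π x)))) (γ • x)
      linarith
    rw [h3, hφ γ (g x)]
    ring
  · intro x y hxy
    show E2 y + E' (s' (f (π y))) - (E2 x + E' (s' (f (π x)))) = φ (g y) - φ (g x)
    -- the differences of the first function
    have h1 := hd21 x y hxy
    have h2 := hs'.kdist (f (π x)) (f (π y))
    have h3 := hd'1 (s' (f (π x))) (k' (f (π x)) (f (π y)) • s' (f (π y)))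
      (by rw [h2]; exact hfd x y hxy)
    rw [hE', hs'.sec, hc'.inv, hs'.sec] at h3
    -- the differences of the second function
    have h4 : φ (g x * k (f' (f (π x))) (f' (f (π y)))) = φ (g y) := by
      refine trComp_eq hc hφ hv (w := s (f' (f (π y)))) ?_
      have h5 := hs.kdist (f' (f (π x))) (f' (f (π y)))
      have h6 := (abs_lt.1 (hf' (f (π x)) (f (π y)))).2
      have h7 := hfd x y hxy
      have h8 := hc.isom (g x) (s (f' (f (π x))))
        (k (f' (f (π x))) (f' (f (π y))) • s (f' (f (π y))))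
      rw [← mul_smul] at h8
      have h9 := dist_triangle_left ((g x * k (f' (f (π x))) (f' (f (π y)))) • s (f' (f (π y))))
        (g y • s (f' (f (π y)))) (g x • s (f' (f (π x))))
      have h10 := dist_triangle4 (g x • s (f' (f (π x)))) x y (g y • s (f' (f (π y))))
      have h11 := hg x
      rw [dist_comm] at h11
      have h12 := hg y
      linarith
    rw [hφ] at h4
    linarith

end F10G
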