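import Pool.Agent.Lib.MP_f10cd3_gt.G.Tr

/-! Row T2: transfer and short loops. -/

set_option autoImplicit false

namespace F10G

open MPf10cd3

variable {Γ X M : Type} [Group Γ] [MetricSpace X] [MulAction Γ X] [MetricSpace M]
variable {Γ' X' M' : Type} [Group Γ'] [MetricSpace X'] [MulAction Γ' X'] [MetricSpace M']

/-- `π x = p`, `d(x, γx) < ℓ`: four equal steps `z_0 = x, ..., z_4 = γ x` (`chain_n`), each
`< ℓ/4`.  `T φ' γ = E(γx) - E(x) = ∑ φ'(k'(f π z_i, f π z_{i+1})) = φ'(g)`, `g` the product of the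
four elements, which moves `s'(f p)` by less than `ℓ + 4δ`. -/
theorem tr_loops (hG : IsGeod X) {π : X → M} (hc : IsCover Γ π)
    {π' : X' → M'} {s' : M' → X'} {k' : M' → M' → Γ'} (hc' : IsCover Γ' π')
    (hs' : IsSec π' s' k') {f : M → M'} {δ η : ℝ} (hη : 0 < η)
    (hf : ∀ a b, |dist (f a) (f b) - dist a b| < δ) {T : (Γ' → ℝ) →ₗ[ℝ] (Γ → ℝ)}
    (hT : IsTr X' π k' f δ η T) {φ' : Γ' → ℝ} (hφ' : φ' ∈ Hm Γ') {L ℓ : ℝ}
    (hL : 3 * (η + δ) ≤ L) (hv : Van X' L φ') (hℓ : 3 * (ℓ / 4 + δ) ≤ L) {p : M}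
    (hp : VanAt π' (f p) (ℓ + 4 * δ) φ') : VanAt π p ℓ (T φ') := by
  intro x hx γ hγ
  obtain ⟨-, E, hE, hloc⟩ := hT φ' hφ' L hL hv
  obtain ⟨z, hz0, hz4, hstep, -⟩ := chain_n hG x (γ • x) (n := 4) (by norm_num)
  have hd : ∀ i < 4, dist (z i) (z (i + 1)) = dist x (γ • x) / 4 := by
    intro i hi
    have := hstep i hi
    rw [this]
    norm_num
  have hs : ∀ i < 4, E (z (i + 1)) - E (z i) =
      φ' (k' (f (π (z i))) (f (π (z (i + 1))))) := by
    intro i hi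
    refine hloc (ℓ / 4) hℓ _ _ ?_
    rw [hd i hi]
    linarith
  have hfd : ∀ i < 4, dist (f (π (z i))) (f (π (z (i + 1)))) < dist x (γ • x) / 4 + δ := by
    intro i hi
    have h1 := (abs_lt.1 (hf (π (z i)) (π (z (i + 1))))).2
    have h2 := hc.le (z i) (z (i + 1))
    rw [hd i hi] at h2
    linarith
  have e0 : f (π (z 0)) = f p := by rw [hz0, hx]
  have e4 : f (π (z 4)) = f p := by rw [hz4, hc.inv, hx]
  have s0 := hs 0 (by norm_num)
  have s1 := hs 1 (by norm_num)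
  have s2 := hs 2 (by norm_num)
  have s3 := hs 3 (by norm_num)
  have d0 := hfd 0 (by norm_num)
  have d1 := hfd 1 (by norm_num)
  have d2 := hfd 2 (by norm_num)
  have d3 := hfd 3 (by norm_num)
  norm_num at s0 s1 s2 s3 d0 d1 d2 d3
  rw [e0] at s0 d0
  rw [e4] at s3 d3
  rw [hz0] at s0
  rw [hz4] at s3
  -- the product
  have hadd : ∀ a b, φ' (a * b) = φ' a + φ' b := hφ'
  have key : φ' (k' (f p) (f (π (z 1))) * (k' (f (π (z 1))) (f (π (z 2))) *
      (k' (f (π (z 2))) (f (π (z 3))) * k' (f (π (z 3))) (f p)))) = T φ' γ := by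
    rw [hadd, hadd, hadd, ← s0, ← s1, ← s2, ← s3]
    have := hE γ x
    linarith
  rw [← key]
  refine hp (s' (f p)) (hs'.sec _) _ ?_
  -- displacement
  have tri : ∀ (a b : M') (g : Γ') (w : X'),
      dist (s' a) (k' a b • (g • w)) ≤ dist a b + dist (s' b) (g • w) := by
    intro a b g w
    have h1 := dist_triangle (s' a) (k' a b • s' b) (k' a b • (g • w))
    rw [hs'.kdist, hc'.isom] at h1
    exact h1
  have t0 := tri (f p) (f (π (z 1))) (k' (f (π (z 1))) (f (π (z 2))) *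
      (k' (f (π (z 2))) (f (π (z 3))) * k' (f (π (z 3))) (f p))) (s' (f p))
  have t1 := tri (f (π (z 1))) (f (π (z 2))) (k' (f (π (z 2))) (f (π (z 3))) *
      k' (f (π (z 3))) (f p)) (s' (f p))
  have t2 := tri (f (π (z 2))) (f (π (z 3))) (k' (f (π (z 3))) (f p)) (s' (f p))
  have t3 := hs'.kdist (f (π (z 3))) (f p)
  rw [smul_smul] at t0 t1 t2
  linarith

end F10G
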