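import Pool.Agent.Lib.MP_f10cd3_gt.G.Tr

/-! Row T3: transfer and supports. -/

set_option autoImplicit false

namespace F10G

open MPf10cd3

variable {Γ X M : Type} [Group Γ] [MetricSpace X] [MulAction Γ X] [MetricSpace M]
variable {Γ' X' M' : Type} [Group Γ'] [MetricSpace X'] [MulAction Γ' X'] [MetricSpace M']

/-- `E'` for `φ'` off the ball of radius `r` with centre `p'`.  If `a, b ∈ M'` have distance
`≥ r + δ` from `p'` and `d(a,b) < η + δ ≤ 2δ`, then `φ'(k'(a,b)) = E'(s' a) - E'(s' b)` (geodesic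
from `s' a` to `k' a b • s' b`, `const_along`).  So `E(x) + E'(s'(f(πx)))` is locally constant off
the ball of radius `r + 3δ` with centre `p`. -/
theorem tr_sup (hG' : IsGeod X') {π : X → M} (hc : IsCover Γ π)
    {π' : X' → M'} {s' : M' → X'} {k' : M' → M' → Γ'} (hc' : IsCover Γ' π')
    (hs' : IsSec π' s' k') {f : M → M'} {δ η : ℝ} (hη : 0 < η) (hηδ : η ≤ δ)
    (hf : ∀ a b, |dist (f a) (f b) - dist a b| < δ) {T : (Γ' → ℝ) →ₗ[ℝ] (Γ → ℝ)}
    (hT : IsTr X' π k' f δ η T) {φ' : Γ' → ℝ} (hφ' : φ' ∈ Hm Γ') {L : ℝ}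
    (hL : 3 * (η + δ) ≤ L) (hv : Van X' L φ') {p : M} {p' : M'} {r : ℝ}
    (hp : ∀ a : M, |dist a p - dist (f a) p'| < δ) (hs : Sup π' p' r φ') :
    Sup π p (r + 3 * δ) (T φ') := by
  obtain ⟨-, E, hE1, hE2⟩ := hT φ' hφ' L hL hv
  obtain ⟨E', hE', η', hη', hloc⟩ := hs
  refine ⟨fun x => E x + E' (s' (f (π x))), ?_, η, hη, ?_⟩
  · intro γ x
    change E (γ • x) + E' (s' (f (π (γ • x)))) = E x + E' (s' (f (π x))) + T φ' γ
    rw [hE1, hc.inv]
    ring
  · intro y z hyz hy hz
    change E y + E' (s' (f (π y))) = E z + E' (s' (f (π z)))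
    have h1 := hE2 η hL y z hyz
    have h2 := hE' (k' (f (π y)) (f (π z))) (s' (f (π z)))
    have hab : dist (f (π y)) (f (π z)) < 2 * δ := by
      have h3 := (abs_lt.1 (hf (π y) (π z))).2
      have h4 := hc.le y z
      linarith
    have hfar : r + 2 * δ < dist p' (f (π y)) := by
      have h3 := (abs_lt.1 (hp (π y))).2
      rw [dist_comm (π y) p, dist_comm (f (π y)) p'] at h3
      linarith
    have hgeo : ∀ w : X', dist (s' (f (π y))) w + dist w (k' (f (π y)) (f (π z)) • s' (f (π z))) =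
        dist (s' (f (π y))) (k' (f (π y)) (f (π z)) • s' (f (π z))) → r ≤ dist p' (π' w) := by
      intro w hw
      rw [hs'.kdist] at hw
      have h3 : dist (s' (f (π y))) w ≤ dist (f (π y)) (f (π z)) := by
        have := dist_nonneg (x := w) (y := k' (f (π y)) (f (π z)) • s' (f (π z)))
        linarith
      have h4 : dist (f (π y)) (π' w) ≤ dist (s' (f (π y))) w := by
        have := hc'.le (s' (f (π y))) w
        rwa [hs'.sec] at this
      have h5 := dist_triangle p' (π' w) (f (π y))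
      rw [dist_comm (π' w) (f (π y))] at h5
      linarith
    have h3 : E' (s' (f (π y))) = E' (k' (f (π y)) (f (π z)) • s' (f (π z))) := by
      apply const_along hG' hη'
      intro u w hu hw huw
      exact hloc u w huw (hgeo u hu) (hgeo w hw)
    rw [h3, h2, ← h1]
    ring

end F10G
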