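import Pool.Agent.Lib.MP_f10cd3_gt.G.Iso
import Pool.Agent.Lib.MP_f10cd3_gt.G.Four
import Pool.Agent.Lib.MP_f10cd3_gt.G.One
import Pool.Agent.Lib.MP_f10cd3_gt.G.TrLoops
import Pool.Agent.Lib.MP_f10cd3_gt.G.TrSup
import Pool.Agent.Lib.MP_f10cd3_gt.G.TrComp
import Pool.Agent.Lib.MP_f10cd3_gt.G.Alg

/-! Rows C0, C1: the core of the proof. -/

set_option autoImplicit false

namespace F10G

open MPf10cd3

/-- the two local facts at the scale `δ` -/
structure Loc (Γ : Type) {X M : Type} [Group Γ] [MetricSpace X] [MulAction Γ X] [MetricSpace M]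
    (π : X → M) (δ : ℝ) : Prop where
  van : ∀ (p : M) (φ : Γ → ℝ), φ ∈ Hm Γ → Sup π p (25 * δ) φ → Van X (10 * δ) φ
  one : ∀ (p : M) (φ1 φ2 : Γ → ℝ), φ1 ∈ Hm Γ → φ2 ∈ Hm Γ → Sup π p (25 * δ) φ1 →
    Sup π p (25 * δ) φ2 → ∃ a b : ℝ, (a ≠ 0 ∨ b ≠ 0) ∧ ∀ γ, a * φ1 γ + b * φ2 γ = 0

/-- Poincare duality at the scale `δ` -/
structure Frm (Γ : Type) {X M : Type} [Group Γ] [MetricSpace X] [MulAction Γ X] [MetricSpace M]
    (π : X → M) (δ : ℝ) (I : (Γ → ℝ) →ₗ[ℝ] (Γ → ℝ) →ₗ[ℝ] ℝ) : Prop where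
  t1 : ∀ (p : M) (r t : ℝ) (φ ψ : Γ → ℝ), φ ∈ Hm Γ → ψ ∈ Hm Γ → 0 < r → r + δ / 10 ≤ t →
    Sup π p r φ → VanAt π p (2 * t) ψ → I φ ψ = 0
  t2 : ∀ (p : M) (r : ℝ) (ψ : Γ → ℝ), ψ ∈ Hm Γ →
    (∀ φ ∈ Hm Γ, Sup π p r φ → I φ ψ = 0) → VanAt π p (2 * (r - δ / 10)) ψ
  nd : ∀ ψ ∈ Hm Γ, (∀ φ ∈ Hm Γ, I φ ψ = 0) → ψ = 0

variable {Γ X M : Type} [Group Γ] [MetricSpace X] [MulAction Γ X] [MetricSpace M]
variable {Γ' X' M' : Type} [Group Γ'] [MetricSpace X'] [MulAction Γ' X'] [MetricSpace M']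

/-- Row C0. -/
theorem loc_of {κ : ℝ} {π : X → M} (hc : IsCover Γ π) (hG : IsGeod X)
    (hX : NoThree κ X) {δ : ℝ} (hδ : 0 < δ) (hfar : ∀ p : M, ∃ q : M, dist p q = 20000 * δ)
    (hκ : √κ * δ ≤ 1 / 50000) : Loc Γ π δ := by
  have hvan : ∀ (p : M) (φ : Γ → ℝ), φ ∈ Hm Γ → Sup π p (25 * δ) φ →
      VanAt π p (1201 * δ) φ := by
    intro p φ hφ hs
    obtain ⟨q, hq⟩ := hfar p
    refine iso_at hc hG hX (q := q) hφ hs (by positivity) (by positivity) ?_ ?_ ?_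
    · rw [hq]; linarith
    · rw [hq]; linarith
    · rw [hq]
      have e : 2 * √κ * (20000 * δ + 1201 * δ) = 42402 * (√κ * δ) := by ring
      rw [e]
      linarith
  refine ⟨?_, ?_⟩
  · intro p φ hφ hs
    refine van_of_sup hc hG hs (by positivity) (by positivity) ?_
    exact (hvan p φ hφ hs).mono (by linarith)
  · intro p φ1 φ2 h1 h2 s1 s2
    refine one_dim hc hG hX (p := p) (r := 25 * δ) (R := 300 * δ) (η0 := δ) (by positivity)
      (by linarith) ?_ hδ h1 h2 s1 s2 ?_ ?_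
    · have e : 2 * √κ * (300 * δ) = 600 * (√κ * δ) := by ring
      rw [e]
      linarith
    · exact (hvan p φ1 h1 s1).mono (by linarith)
    · exact (hvan p φ2 h2 s2).mono (by linarith)

/-- a class supported in a ball of radius `r ≤ 22 δ` and its transfer -/
private theorem C1_step [Nonempty X] (hG : IsGeod X)
    {π : X → M} {s : M → X} {k : M → M → Γ} (hc : IsCover Γ π) (hs : IsSec π s k)
    {π' : X' → M'} {s' : M' → X'} {k' : M' → M' → Γ'} (hc' : IsCover Γ' π')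
    (hs' : IsSec π' s' k') {f : M → M'} {f' : M' → M} {δ : ℝ} (hδ : 0 < δ)
    (hf : ∀ a b, |dist (f a) (f b) - dist a b| < δ)
    (hf' : ∀ a b, |dist (f' a) (f' b) - dist a b| < δ)
    (hff : ∀ a b', |dist a (f' b') - dist (f a) b'| < δ)
    {T : (Γ' → ℝ) →ₗ[ℝ] (Γ → ℝ)} (hT : IsTr X' π k' f δ (δ / 10) T)
    {T' : (Γ → ℝ) →ₗ[ℝ] (Γ' → ℝ)} (hT' : IsTr X π' k f' δ (δ / 10) T')
    (hloc : Loc Γ π δ) (hloc' : Loc Γ' π' δ) {p : M} {r : ℝ} (hr : r ≤ 22 * δ) {φ : Γ → ℝ}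
    (hφ : φ ∈ Hm Γ) (hφs : Sup π p r φ) :
    T' φ ∈ Hm Γ' ∧ Sup π' (f p) (r + 3 * δ) (T' φ) ∧ T (T' φ) = φ := by
  have hvan : Van X (10 * δ) φ := hloc.van p φ hφ (hφs.mono (by linarith))
  have hmem : T' φ ∈ Hm Γ' := (hT' φ hφ (10 * δ) (by linarith) hvan).1
  have hsup : Sup π' (f p) (r + 3 * δ) (T' φ) := by
    refine tr_sup hG hc' hc hs (by positivity : 0 < δ / 10) (by linarith) hf' hT' hφ
      (L := 10 * δ) (by linarith) hvan (p := f p) (p' := p) ?_ hφs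
    intro a
    have h := hff p a
    rwa [dist_comm p (f' a), dist_comm (f p) a, abs_sub_comm] at h
  have hvan' : Van X' (10 * δ) (T' φ) := hloc'.van (f p) (T' φ) hmem (hsup.mono (by linarith))
  refine ⟨hmem, hsup, ?_⟩
  refine tr_comp hG hc hs hc' hs' (by positivity : 0 < δ / 10) hf hf' ?_ hT hT' hφ
    (L := 10 * δ) (L' := 10 * δ) (by linarith) hvan (by linarith) hvan'
  intro a
  have h := hff a (f a)
  rw [dist_self, sub_zero, abs_of_nonneg dist_nonneg] at h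
  exact h

/-- the classes supported in balls of radius `19 δ` -/
private def C1_S {Γ X M : Type} [Group Γ] [MetricSpace X] [MulAction Γ X] [MetricSpace M]
    (π : X → M) (δ : ℝ) : Set (Γ → ℝ) := {φ | φ ∈ Hm Γ ∧ ∃ p, Sup π p (19 * δ) φ}

/-- everything about the generators of `N` -/
private theorem C1_gen [Nonempty X'] (hG' : IsGeod X')
    {π : X → M} {s : M → X} {k : M → M → Γ} (hc : IsCover Γ π) (hs : IsSec π s k)
    {π' : X' → M'} {s' : M' → X'} {k' : M' → M' → Γ'} (hc' : IsCover Γ' π')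
    (hs' : IsSec π' s' k') {f : M → M'} {f' : M' → M} {δ : ℝ} (hδ : 0 < δ)
    (hf : ∀ a b, |dist (f a) (f b) - dist a b| < δ)
    (hf' : ∀ a b, |dist (f' a) (f' b) - dist a b| < δ)
    (hff : ∀ a b', |dist a (f' b') - dist (f a) b'| < δ)
    {T : (Γ' → ℝ) →ₗ[ℝ] (Γ → ℝ)} (hT : IsTr X' π k' f δ (δ / 10) T)
    {T' : (Γ → ℝ) →ₗ[ℝ] (Γ' → ℝ)} (hT' : IsTr X π' k f' δ (δ / 10) T')
    (hloc : Loc Γ π δ) (hloc' : Loc Γ' π' δ) {φ : Γ → ℝ}
    (h : φ ∈ C1_S π δ ∪ T '' C1_S π' δ) :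
    φ ∈ Hm Γ ∧ (∃ p, Sup π p (22 * δ) φ) ∧
      T' φ ∈ Submodule.span ℝ (C1_S π' δ ∪ T' '' C1_S π δ) := by
  have hff' : ∀ (a : M') (b' : M), |dist a (f b') - dist (f' a) b'| < δ := by
    intro a b
    have h := hff b a
    rwa [dist_comm b (f' a), dist_comm (f b) a, abs_sub_comm] at h
  rcases h with ⟨h1, p, h2⟩ | ⟨φ', ⟨h1, p', h2⟩, rfl⟩
  · exact ⟨h1, ⟨p, h2.mono (by linarith)⟩,
      Submodule.subset_span (Or.inr ⟨φ, ⟨h1, p, h2⟩, rfl⟩)⟩
  · obtain ⟨h3, h4, h5⟩ := C1_step hG' hc' hs' hc hs hδ hf' hf hff' hT' hT hloc' hloc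
      (by linarith) h1 h2
    refine ⟨h3, ⟨f' p', h4.mono (by linarith)⟩, ?_⟩
    rw [h5]
    exact Submodule.subset_span (Or.inl ⟨h1, p', h2⟩)

/-- Row C1. The main argument, see section 5 of the paper: `r = 19 δ`, `N` is spanned by the
classes of `M` supported in balls of radius `r` and the transfers of those of `M'`. -/
theorem core_le [Nonempty X] [Nonempty X'] (hG : IsGeod X) (hG' : IsGeod X')
    {π : X → M} {s : M → X} {k : M → M → Γ} (hc : IsCover Γ π) (hs : IsSec π s k)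
    {π' : X' → M'} {s' : M' → X'} {k' : M' → M' → Γ'} (hc' : IsCover Γ' π')
    (hs' : IsSec π' s' k') {f : M → M'} {f' : M' → M} {δ : ℝ} (hδ : 0 < δ)
    (hf : ∀ a b, |dist (f a) (f b) - dist a b| < δ)
    (hf' : ∀ a b, |dist (f' a) (f' b) - dist a b| < δ)
    (hff : ∀ a b', |dist a (f' b') - dist (f a) b'| < δ)
    {T : (Γ' → ℝ) →ₗ[ℝ] (Γ → ℝ)} (hT : IsTr X' π k' f δ (δ / 10) T)
    {T' : (Γ → ℝ) →ₗ[ℝ] (Γ' → ℝ)} (hT' : IsTr X π' k f' δ (δ / 10) T')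
    (hloc : Loc Γ π δ) (hloc' : Loc Γ' π' δ) {I : (Γ → ℝ) →ₗ[ℝ] (Γ → ℝ) →ₗ[ℝ] ℝ}
    {I' : (Γ' → ℝ) →ₗ[ℝ] (Γ' → ℝ) →ₗ[ℝ] ℝ} (hI : Frm Γ π δ I) (hI' : Frm Γ' π' δ I')
    [FiniteDimensional ℝ (Hm Γ)] [FiniteDimensional ℝ (Hm Γ')] :
    Module.finrank ℝ (Hm Γ') ≤ Module.finrank ℝ (Hm Γ) := by
  have hff' : ∀ (a : M') (b' : M), |dist a (f b') - dist (f' a) b'| < δ := by
    intro a b
    have h := hff b a
    rwa [dist_comm b (f' a), dist_comm (f b) a, abs_sub_comm] at h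
  have hfd : ∀ b' : M', dist b' (f (f' b')) < δ := by
    intro b'
    have h := hff' b' (f' b')
    rw [dist_self, sub_zero, abs_of_nonneg dist_nonneg] at h
    exact h
  obtain ⟨N, hN⟩ : ∃ N : Submodule ℝ (Γ → ℝ),
    N = Submodule.span ℝ (C1_S π δ ∪ T '' C1_S π' δ) := ⟨_, rfl⟩
  obtain ⟨N', hN'⟩ : ∃ N' : Submodule ℝ (Γ' → ℝ),
    N' = Submodule.span ℝ (C1_S π' δ ∪ T' '' C1_S π δ) := ⟨_, rfl⟩
  have gen : ∀ φ ∈ C1_S π δ ∪ T '' C1_S π' δ, φ ∈ Hm Γ ∧ (∃ p, Sup π p (22 * δ) φ) ∧ T' φ ∈ N' := by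
    intro φ hφ
    rw [hN']
    exact C1_gen hG' hc hs hc' hs' hδ hf hf' hff hT hT' hloc hloc' hφ
  have gen' : ∀ φ ∈ C1_S π' δ ∪ T' '' C1_S π δ,
      φ ∈ Hm Γ' ∧ (∃ p, Sup π' p (22 * δ) φ) ∧ T φ ∈ N := by
    intro φ hφ
    rw [hN]
    exact C1_gen hG hc' hs' hc hs hδ hf' hf hff' hT' hT hloc' hloc hφ
  -- transfer of the generators
  have step : ∀ φ ∈ C1_S π δ ∪ T '' C1_S π' δ, ∃ p, Sup π p (22 * δ) φ ∧ T' φ ∈ Hm Γ' ∧
      Sup π' (f p) (25 * δ) (T' φ) ∧ T (T' φ) = φ := by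
    intro φ hφ
    obtain ⟨h1, ⟨p, h2⟩, -⟩ := gen φ hφ
    obtain ⟨h3, h4, h5⟩ := C1_step hG hc hs hc' hs' hδ hf hf' hff hT hT' hloc hloc' le_rfl h1 h2
    exact ⟨p, h2, h3, h4.mono (by linarith), h5⟩
  have step' : ∀ φ ∈ C1_S π' δ ∪ T' '' C1_S π δ, T' (T φ) = φ := by
    intro φ hφ
    obtain ⟨h1, ⟨p, h2⟩, -⟩ := gen' φ hφ
    exact (C1_step hG' hc' hs' hc hs hδ hf' hf hff' hT' hT hloc' hloc le_rfl h1 h2).2.2
  have hNH : N ≤ Hm Γ := by
    rw [hN, Submodule.span_le]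
    exact fun φ hφ => (gen φ hφ).1
  have hNH' : N' ≤ Hm Γ' := by
    rw [hN', Submodule.span_le]
    exact fun φ hφ => (gen' φ hφ).1
  have h1 : ∀ φ ∈ N', T φ ∈ N := by
    have h : N' ≤ N.comap T := by
      rw [hN', Submodule.span_le]
      exact fun φ hφ => (gen' φ hφ).2.2
    exact h
  have h2 : ∀ φ ∈ N, T' φ ∈ N' := by
    have h : N ≤ N'.comap T' := by
      rw [hN, Submodule.span_le]
      exact fun φ hφ => (gen φ hφ).2.2
    exact h
  have h3 : ∀ φ ∈ N, T (T' φ) = φ := by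
    have h : N ≤ LinearMap.eqLocus (T.comp T') LinearMap.id := by
      rw [hN, Submodule.span_le]
      intro φ hφ
      obtain ⟨p, -, -, -, h⟩ := step φ hφ
      exact h
    exact h
  have h3' : ∀ φ ∈ N', T' (T φ) = φ := by
    have h : N' ≤ LinearMap.eqLocus (T'.comp T) LinearMap.id := by
      rw [hN', Submodule.span_le]
      intro φ hφ
      exact step' φ hφ
    exact h
  refine alg_final (Hm Γ) N (Hm Γ') N' hNH hNH' I I' hI.nd hI'.nd T T' h1 h2 h3 h3' ?_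
  intro ψ hψ hperp
  have hat : ∀ p' : M', VanAt π' p' (2 * (19 * δ - δ / 10)) ψ := by
    intro p'
    refine hI'.t2 p' (19 * δ) ψ hψ ?_
    intro φ hφ hφs
    apply hperp
    rw [hN']
    exact Submodule.subset_span (Or.inl ⟨hφ, p', hφs⟩)
  have hvan : Van X' (2 * (19 * δ - δ / 10)) ψ := van_of_vanAt hat
  have hmem : T ψ ∈ Hm Γ := (hT ψ hψ (2 * (19 * δ - δ / 10)) (by linarith) hvan).1
  have hvanT : Van X (33 * δ) (T ψ) := by
    refine van_of_vanAt (π := π) fun p => ?_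
    exact tr_loops hG hc hc' hs' (by positivity : 0 < δ / 10) hf hT hψ
      (L := 2 * (19 * δ - δ / 10)) (by linarith) hvan (by linarith)
      ((hat (f p)).mono (by linarith))
  refine ⟨hmem, ?_, ?_⟩
  · have h : N ≤ LinearMap.ker (I.flip (T ψ)) := by
      rw [hN, Submodule.span_le]
      intro φ hφ
      obtain ⟨p, hp1, hp2, hp3, hp4⟩ := step φ hφ
      show I φ (T ψ) = 0
      by_cases h0 : φ = 0
      · rw [h0, map_zero]; rfl
      · have hne : T' φ ≠ 0 := by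
          intro h
          rw [h, map_zero] at hp4
          exact h0 hp4.symm
        have hTN : T' φ ∈ N' := (gen φ hφ).2.2
        have hat2 : VanAt π' (f p) (2 * (25 * δ - δ / 10)) ψ := by
          refine hI'.t2 (f p) (25 * δ) ψ hψ ?_
          intro χ hχ hχs
          obtain ⟨a, b, hab, hz⟩ := hloc'.one (f p) (T' φ) χ hp2 hχ hp3 hχs
          have hb : b ≠ 0 := by
            rintro rfl
            have ha : a ≠ 0 := by
              rcases hab with h | h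
              · exact h
              · exact absurd rfl h
            apply hne
            funext γ
            have := hz γ
            rw [zero_mul, add_zero] at this
            rcases mul_eq_zero.1 this with h | h
            · exact absurd h ha
            · exact h
          have hχe : χ = (-(a / b)) • T' φ := by
            funext γ
            have := hz γ
            show χ γ = (-(a / b)) * T' φ γ
            field_simp
            linarith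
          apply hperp
          rw [hχe]
          exact N'.smul_mem _ hTN
        have hat3 : VanAt π p (2 * (22 * δ + δ / 10)) (T ψ) :=
          tr_loops hG hc hc' hs' (by positivity : 0 < δ / 10) hf hT hψ
            (L := 2 * (19 * δ - δ / 10)) (by linarith) hvan (by linarith)
            (hat2.mono (by linarith))
        exact hI.t1 p (22 * δ) (22 * δ + δ / 10) φ (T ψ) (gen φ hφ).1 hmem (by positivity)
          le_rfl hp1 hat3
    exact h
  · exact tr_comp hG' hc' hs' hc hs (by positivity : 0 < δ / 10) hf' hf hfd hT' hT hψ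
      (L := 2 * (19 * δ - δ / 10)) (L' := 33 * δ) (by linarith) hvan (by linarith) hvanT

end F10G
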