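import Pool.Agent.Lib.MP_f10cd3_gt.SimplyConn

/-!
# Gromov-Hausdorff distance of surfaces of different genus: definitions
-/

set_option autoImplicit false

namespace F10G

open MPf10cd3

/-! ### Definitions used in the final statement -/

/-- `π : X → M` is the quotient map of an action of `Γ` by isometries with displacements bounded
below: for simply connected geodesic `X` this says that `π` is the universal covering of `M`. -/
structure IsCover (Γ : Type) {X M : Type} [Group Γ] [MetricSpace X] [MulAction Γ X] [MetricSpace M]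
    (π : X → M) : Prop where
  surj : Function.Surjective π
  isom : ∀ (γ : Γ) (x y : X), dist (γ • x) (γ • y) = dist x y
  inv : ∀ (γ : Γ) (x : X), π (γ • x) = π x
  le : ∀ x y : X, dist (π x) (π y) ≤ dist x y
  lift : ∀ x y : X, ∃ γ : Γ, dist x (γ • y) = dist (π x) (π y)
  free : ∃ ι : ℝ, 0 < ι ∧ ∀ γ : Γ, γ ≠ 1 → ∀ x : X, ι ≤ dist x (γ • x)

/-- the angle between the sides `a`, `b` of a triangle with sides `a`, `b`, `c` in the plane of
curvature `-κ` -/
noncomputable def cang (κ a b c : ℝ) : ℝ :=
  Real.arccos ((Real.cosh (√κ * a) * Real.cosh (√κ * b) - Real.cosh (√κ * c)) /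
    (Real.sinh (√κ * a) * Real.sinh (√κ * b)))

/-- curvature `≥ -κ` in the sense of Alexandrov (four point comparison): the sum of the three
comparison angles at `p` is at most `2π` -/
def CurvGe (κ : ℝ) (X : Type) [MetricSpace X] : Prop :=
  ∀ p x y z : X, x ≠ p → y ≠ p → z ≠ p →
    cang κ (dist p x) (dist p y) (dist x y) + cang κ (dist p y) (dist p z) (dist y z) +
      cang κ (dist p z) (dist p x) (dist z x) ≤ 2 * Real.pi

/-- what the proof uses of a lower curvature bound: three points at distance at most `A` from `x`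
do not have mutual distances at least `2 (A - τ)`, if `12 τ ≤ A ≤ 1 / (2 √κ)` -/
def NoThree (κ : ℝ) (X : Type) [MetricSpace X] : Prop :=
  ∀ (x p1 p2 p3 : X) (A τ : ℝ), 0 ≤ τ → 12 * τ ≤ A → 2 * √κ * A ≤ 1 → 0 < dist x p1 →
    dist x p1 ≤ A → 0 < dist x p2 → dist x p2 ≤ A → 0 < dist x p3 → dist x p3 ≤ A →
    2 * (A - τ) ≤ dist p1 p2 → 2 * (A - τ) ≤ dist p2 p3 → 2 * (A - τ) ≤ dist p3 p1 → False

/-- `D` is the set of the positively oriented triangles (each one listed three times, with every
choice of the first vertex) of a closed connected oriented combinatorial surface of genus `g` with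
vertex set `V`. -/
structure IsCS {V : Type} [Fintype V] [DecidableEq V] (D : Finset (V × V × V)) (g : ℕ) : Prop where
  rot : ∀ a b c, (a, b, c) ∈ D → (b, c, a) ∈ D
  ne : ∀ a b c, (a, b, c) ∈ D → a ≠ b
  uniq : ∀ a b c d, (a, b, c) ∈ D → (a, b, d) ∈ D → c = d
  opp : ∀ a b c, (a, b, c) ∈ D → ∃ d, (b, a, d) ∈ D
  simp : ∀ a b c, (a, b, c) ∈ D → (b, a, c) ∉ D
  vert : ∀ a : V, ∃ b c, (a, b, c) ∈ D
  link : ∀ a b b', (∃ c, (a, b, c) ∈ D) → (∃ c, (a, b', c) ∈ D) →
    Relation.ReflTransGen (fun u v => (a, u, v) ∈ D) b b'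
  conn : ∀ a b : V, Relation.ReflTransGen (fun u v => ∃ c, (u, v, c) ∈ D) a b
  /-- `V - E + F = 2 - 2g`: every edge belongs to two and every triangle to three elements of `D` -/
  euler : (Fintype.card V : ℚ) - D.card / 2 + D.card / 3 = 2 - 2 * g

/-- a homeomorphism of `M` with the geometric realisation of the surface `D` (given by the barycentric
coordinates of the points of `M`) such that the open stars of the vertices have diameter `< μ` -/
structure Triang {V : Type} [Fintype V] [DecidableEq V] (D : Finset (V × V × V)) (M : Type)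
    [MetricSpace M] (μ : ℝ) where
  lam : M → V → ℝ
  cont : ∀ v, Continuous fun y => lam y v
  nonneg : ∀ y v, 0 ≤ lam y v
  sum : ∀ y, ∑ v, lam y v = 1
  supp : ∀ y, ∃ a b c, (a, b, c) ∈ D ∧ ∀ v, lam y v ≠ 0 → v = a ∨ v = b ∨ v = c
  surj : ∀ w : V → ℝ, (∀ v, 0 ≤ w v) → ∑ v, w v = 1 →
    (∃ a b c, (a, b, c) ∈ D ∧ ∀ v, w v ≠ 0 → v = a ∨ v = b ∨ v = c) → ∃ y, lam y = w
  inj : Function.Injective lam
  mesh : ∀ v y z, 0 < lam y v → 0 < lam z v → dist y z < μ

/-- `M` is a closed connected oriented surface of genus `g`: it has triangulations of arbitrarily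
small mesh by closed connected oriented combinatorial surfaces of genus `g`. -/
def IsSurface (g : ℕ) (M : Type) [MetricSpace M] : Prop :=
  ∀ μ : ℝ, 0 < μ → ∃ (V : Type) (_ : Fintype V) (_ : DecidableEq V) (D : Finset (V × V × V)),
    IsCS D g ∧ Nonempty (Triang D M μ)

/-- `M` is a closed connected oriented surface of genus `g` with curvature `≥ -κ`: its universal
covering is a geodesic space with curvature `≥ -κ`. -/
def IsSurfaceCurvGe (κ : ℝ) (g : ℕ) (M : Type) [MetricSpace M] : Prop :=
  IsSurface g M ∧ ∃ (Γ X : Type) (_ : Group Γ) (_ : MetricSpace X) (_ : MulAction Γ X) (π : X → M),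
    SimplyConnectedSpace X ∧ IsGeod X ∧ IsCover Γ π ∧ CurvGe κ X

/-- a nonempty space in which every real coarse cocycle has a potential -/
class CSC (X : Type) [MetricSpace X] : Prop where
  ne : Nonempty X
  csc : CoarseSC X

instance (priority := 100) nonempty_of_csc {X : Type} [MetricSpace X] [h : CSC X] : Nonempty X :=
  h.ne

theorem csc_of_sc {X : Type} [MetricSpace X] (h : SimplyConnectedSpace X) (hG : IsGeod X) :
    CSC X where
  ne := by
    have := h
    infer_instance
  csc := by
    have := h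
    exact coarseSC_of_simplyConnected hG

/-- the same with `NoThree` and `CSC` -/
def IsSurfaceNT (κ : ℝ) (g : ℕ) (M : Type) [MetricSpace M] : Prop :=
  IsSurface g M ∧ ∃ (Γ X : Type) (_ : Group Γ) (_ : MetricSpace X) (_ : MulAction Γ X) (π : X → M),
    CSC X ∧ IsGeod X ∧ IsCover Γ π ∧ NoThree κ X

/-! ### Definitions for the proof -/

/-- homomorphisms `Γ → ℝ`, that is, the first real cohomology of `M` -/
def Hm (Γ : Type) [Group Γ] : Submodule ℝ (Γ → ℝ) where
  carrier := {φ | ∀ a b, φ (a * b) = φ a + φ b}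
  add_mem' := by
    intro φ ψ h1 h2 a b
    show φ (a * b) + ψ (a * b) = (φ a + ψ a) + (φ b + ψ b)
    rw [h1, h2]; ring
  zero_mem' := by
    intro a b
    show (0 : ℝ) = 0 + 0
    ring
  smul_mem' := by
    intro r φ h a b
    show r * φ (a * b) = r * φ a + r * φ b
    rw [h]; ring

variable {Γ X M : Type} [Group Γ] [MetricSpace X] [MulAction Γ X] [MetricSpace M]

/-- `E` is equivariant with respect to `φ` -/
def Eqv (φ : Γ → ℝ) (E : X → ℝ) : Prop := ∀ (γ : Γ) (x : X), E (γ • x) = E x + φ γ

/-- the class `φ` vanishes on the loops of length `< ℓ` at the point `p` -/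
def VanAt (π : X → M) (p : M) (ℓ : ℝ) (φ : Γ → ℝ) : Prop :=
  ∀ x : X, π x = p → ∀ γ : Γ, dist x (γ • x) < ℓ → φ γ = 0

/-- the class `φ` vanishes on all loops of length `< ℓ` -/
def Van (X : Type) [MetricSpace X] [MulAction Γ X] (ℓ : ℝ) (φ : Γ → ℝ) : Prop :=
  ∀ (x : X) (γ : Γ), dist x (γ • x) < ℓ → φ γ = 0

/-- the class `φ` is supported in the ball of radius `r` with centre `p` -/
def Sup (π : X → M) (p : M) (r : ℝ) (φ : Γ → ℝ) : Prop :=
  ∃ E : X → ℝ, Eqv φ E ∧ ∃ η : ℝ, 0 < η ∧ ∀ y z : X, dist y z < η → r ≤ dist p (π y) →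
    r ≤ dist p (π z) → E y = E z

/-- a section `s` of `π` and, for two points `a`, `b` of `M`, an element of `Γ` such that the
distance of `s a` and `k a b • s b` is the distance of `a` and `b` -/
structure IsSec (π : X → M) (s : M → X) (k : M → M → Γ) : Prop where
  sec : ∀ a, π (s a) = a
  kdist : ∀ a b, dist (s a) (k a b • s b) = dist a b

end F10G
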