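import Pool.Agent.Lib.MP_f10cd3_gt.G.Vert

/-! Row S8a: the dimension of the space of simplicial cocycles. -/

set_option autoImplicit false

namespace F10G

open MPf10cd3

private theorem s8a_trace {T : Type} [Fintype T] [DecidableEq T] (f : T → T) (h : ∀ t, f t ≠ t) :
    LinearMap.trace ℝ (T → ℝ) (LinearMap.funLeft ℝ ℝ f) = 0 := by
  rw [LinearMap.trace_eq_matrix_trace ℝ (Pi.basisFun ℝ T)]
  rw [Matrix.trace]
  apply Finset.sum_eq_zero
  intro t _
  rw [Matrix.diag_apply, LinearMap.toMatrix_apply]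
  simp [LinearMap.funLeft_apply, h t]

/-- the functions invariant under `i` -/
private def s8aInv {T : Type} (i : T → T) : Submodule ℝ (T → ℝ) where
  carrier := {w | ∀ t, w (i t) = w t}
  add_mem' := by
    intro u w h1 h2 t
    show u (i t) + w (i t) = u t + w t
    rw [h1, h2]
  zero_mem' := by
    intro t
    rfl
  smul_mem' := by
    intro c u h t
    show c * u (i t) = c * u t
    rw [h]

private theorem s8a_dim2 {T : Type} [Fintype T] [DecidableEq T] (i : T → T)
    (hi : ∀ t, i (i t) = t) (hi' : ∀ t, i t ≠ t) :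
    (Module.finrank ℝ (s8aInv i) : ℝ) = Fintype.card T / 2 := by
  set p : (T → ℝ) →ₗ[ℝ] (T → ℝ) := (1 / 2 : ℝ) • (LinearMap.id + LinearMap.funLeft ℝ ℝ i) with hp
  have hpa : ∀ u t, p u t = 1 / 2 * (u t + u (i t)) := by
    intro u t
    simp [hp, LinearMap.funLeft_apply]
    ring
  have hproj : LinearMap.IsProj (s8aInv i) p := by
    constructor
    · intro u t
      rw [hpa, hpa, hi]; ring
    · intro u hu
      funext t
      rw [hpa, hu t]; ring
  rw [← hproj.trace, hp, map_smul, map_add, s8a_trace i hi', LinearMap.trace_id,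
    Module.finrank_fintype_fun_eq_card]
  simp only [smul_eq_mul]
  ring

private theorem s8a_dim3 {T : Type} [Fintype T] [DecidableEq T] (r : T → T)
    (hr : ∀ t, r (r (r t)) = t) (hr' : ∀ t, r t ≠ t) (hr'' : ∀ t, r (r t) ≠ t) :
    (Module.finrank ℝ (s8aInv r) : ℝ) = Fintype.card T / 3 := by
  set p : (T → ℝ) →ₗ[ℝ] (T → ℝ) := (1 / 3 : ℝ) • (LinearMap.id + LinearMap.funLeft ℝ ℝ r +
    LinearMap.funLeft ℝ ℝ (fun t => r (r t))) with hp
  have hpa : ∀ u t, p u t = 1 / 3 * (u t + u (r t) + u (r (r t))) := by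
    intro u t
    simp [hp, LinearMap.funLeft_apply]
    ring
  have hproj : LinearMap.IsProj (s8aInv r) p := by
    constructor
    · intro u t
      rw [hpa, hpa, hr]; ring
    · intro u hu
      funext t
      rw [hpa, hu (r t), hu t]; ring
  rw [← hproj.trace, hp, map_smul, map_add, map_add, s8a_trace r hr', s8a_trace _ hr'',
    LinearMap.trace_id, Module.finrank_fintype_fun_eq_card]
  simp only [smul_eq_mul]
  ring

private theorem s8a_abs {T : Type} [Fintype T] [Nonempty T] (i r : T → T)
    (hi : ∀ t, i (i t) = t) (hi' : ∀ t, i t ≠ t)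
    (hr : ∀ t, r (r (r t)) = t) (hr' : ∀ t, r t ≠ t) (hr'' : ∀ t, r (r t) ≠ t)
    (hc : ∀ w : T → ℝ, (∀ t, w (i t) = w t) → (∀ t, w (r t) = w t) → ∀ t t', w t = w t')
    (Z : Submodule ℝ (T → ℝ))
    (hZ : ∀ u, u ∈ Z ↔ (∀ t, u (i t) = - u t) ∧ ∀ t, u t + u (r t) + u (r (r t)) = 0) :
    (Module.finrank ℝ Z : ℚ) = Fintype.card T / 2 - Fintype.card T / 3 + 1 := by
  classical
  set B : LinearMap.BilinForm ℝ (T → ℝ) := dotProductBilin ℝ ℝ with hB
  have hBa : ∀ u w, B u w = ∑ t, u t * w t := fun u w => rfl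
  have hBs : ∀ u w, B u w = B w u := by
    intro u w
    rw [hBa, hBa]
    exact Finset.sum_congr rfl fun t _ => mul_comm _ _
  have hB0 : ∀ u, B u u = 0 → u = 0 := by
    intro u hu
    rw [hBa] at hu
    funext t
    have := (Finset.sum_eq_zero_iff_of_nonneg (fun t _ => mul_self_nonneg (u t))).1 hu t
      (Finset.mem_univ t)
    exact mul_self_eq_zero.1 this
  have hnd : B.Nondegenerate := by
    constructor
    · intro u hu
      exact hB0 u (hu u)
    · intro u hu
      exact hB0 u (hu u)
  have horth : B.orthogonal (s8aInv i ⊔ s8aInv r) = Z := by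
    ext u
    rw [hZ]
    constructor
    · intro hu
      have hu' : ∀ w ∈ s8aInv i ⊔ s8aInv r, ∑ t, w t * u t = 0 := fun w hw => hu w hw
      constructor
      · intro t0
        have hw : (fun t => (if t = t0 then (1 : ℝ) else 0) + (if i t = t0 then (1 : ℝ) else 0)) ∈
            s8aInv i := by
          intro t
          simp only [hi]
          ring
        have := hu' _ (Submodule.mem_sup_left hw)
        simp only [add_mul, ite_mul, one_mul, zero_mul, Finset.sum_add_distrib] at this
        have e1 : ∀ t, (if i t = t0 then u t else 0) = if t = i t0 then u t else 0 := by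
          intro t
          have : i t = t0 ↔ t = i t0 := ⟨fun h => by rw [← h, hi], fun h => by rw [h, hi]⟩
          simp only [this]
        simp only [e1, Finset.sum_ite_eq', Finset.mem_univ, if_true] at this
        linarith
      · intro t0
        have hw : (fun t => (if t = t0 then (1 : ℝ) else 0) + (if r t = t0 then (1 : ℝ) else 0) +
            (if r (r t) = t0 then (1 : ℝ) else 0)) ∈ s8aInv r := by
          intro t
          simp only [hr]
          ring
        have := hu' _ (Submodule.mem_sup_right hw)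
        simp only [add_mul, ite_mul, one_mul, zero_mul, Finset.sum_add_distrib] at this
        have e1 : ∀ t, (if r t = t0 then u t else 0) = if t = r (r t0) then u t else 0 := by
          intro t
          have : r t = t0 ↔ t = r (r t0) := ⟨fun h => by rw [← h, hr], fun h => by rw [h, hr]⟩
          simp only [this]
        have e2 : ∀ t, (if r (r t) = t0 then u t else 0) = if t = r t0 then u t else 0 := by
          intro t
          have : r (r t) = t0 ↔ t = r t0 := ⟨fun h => by rw [← h, hr], fun h => by rw [h, hr]⟩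
          simp only [this]
        simp only [e1, e2, Finset.sum_ite_eq', Finset.mem_univ, if_true] at this
        linarith
    · rintro ⟨h1, h2⟩ w hw
      obtain ⟨w1, hw1, w2, hw2, rfl⟩ := Submodule.mem_sup.1 hw
      show B (w1 + w2) u = 0
      rw [map_add, LinearMap.add_apply, hBa, hBa]
      have a1 : ∑ t, w1 t * u t = 0 := by
        have : ∑ t, w1 (i t) * u (i t) = ∑ t, w1 t * u t :=
          Equiv.sum_comp (⟨i, i, hi, hi⟩ : T ≃ T) (fun t => w1 t * u t)
        have h3 : ∑ t, w1 (i t) * u (i t) = - ∑ t, w1 t * u t := by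
          rw [← Finset.sum_neg_distrib]
          refine Finset.sum_congr rfl fun t _ => ?_
          rw [h1 t, hw1 t]; ring
        linarith
      have a2 : ∑ t, w2 t * u t = 0 := by
        have k1 : ∑ t, w2 (r t) * u (r t) = ∑ t, w2 t * u t :=
          Equiv.sum_comp (⟨r, fun t => r (r t), hr, hr⟩ : T ≃ T) (fun t => w2 t * u t)
        have k2 : ∑ t, w2 (r (r t)) * u (r (r t)) = ∑ t, w2 t * u t :=
          Equiv.sum_comp (⟨fun t => r (r t), r, hr, hr⟩ : T ≃ T) (fun t => w2 t * u t)
        have k3 : ∑ t, w2 t * u t + ∑ t, w2 (r t) * u (r t) + ∑ t, w2 (r (r t)) * u (r (r t)) = 0 := by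
          rw [← Finset.sum_add_distrib, ← Finset.sum_add_distrib]
          refine Finset.sum_eq_zero fun t _ => ?_
          rw [hw2 (r t), hw2 t]
          linear_combination w2 t * h2 t
        linarith
      rw [a1, a2, add_zero]
  have hinf : Module.finrank ℝ (s8aInv i ⊓ s8aInv r : Submodule ℝ (T → ℝ)) = 1 := by
    have : (s8aInv i ⊓ s8aInv r : Submodule ℝ (T → ℝ)) = ℝ ∙ (fun _ : T => (1 : ℝ)) := by
      ext w
      rw [Submodule.mem_span_singleton]
      constructor
      · rintro ⟨h1, h2⟩
        obtain ⟨t0⟩ := ‹Nonempty T›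
        refine ⟨w t0, ?_⟩
        funext t
        simp only [Pi.smul_apply, smul_eq_mul, mul_one]
        exact hc w h1 h2 t0 t
      · rintro ⟨c, rfl⟩
        exact ⟨fun t => rfl, fun t => rfl⟩
    rw [this]
    apply finrank_span_singleton
    intro h
    obtain ⟨t0⟩ := ‹Nonempty T›
    exact one_ne_zero (congrFun h t0)
  have hsum := Submodule.finrank_sup_add_finrank_inf_eq (s8aInv i) (s8aInv r)
  have hdim := LinearMap.BilinForm.finrank_orthogonal hnd (s8aInv i ⊔ s8aInv r)
  have hle : Module.finrank ℝ (s8aInv i ⊔ s8aInv r : Submodule ℝ (T → ℝ)) ≤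
    Module.finrank ℝ (T → ℝ) := Submodule.finrank_le _
  rw [horth, Module.finrank_fintype_fun_eq_card] at hdim
  rw [Module.finrank_fintype_fun_eq_card] at hle
  rw [hinf] at hsum
  have d2 := s8a_dim2 i hi hi'
  have d3 := s8a_dim3 r hr hr' hr''
  have d2' : (Module.finrank ℝ (s8aInv i) : ℚ) = Fintype.card T / 2 := by
    have h2 : Module.finrank ℝ (s8aInv i) * 2 = Fintype.card T := by
      have : (Module.finrank ℝ (s8aInv i) : ℝ) * 2 = Fintype.card T := by rw [d2]; ring
      exact_mod_cast this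
    rw [← h2]
    push_cast
    ring
  have d3' : (Module.finrank ℝ (s8aInv r) : ℚ) = Fintype.card T / 3 := by
    have h2 : Module.finrank ℝ (s8aInv r) * 3 = Fintype.card T := by
      have : (Module.finrank ℝ (s8aInv r) : ℝ) * 3 = Fintype.card T := by rw [d3]; ring
      exact_mod_cast this
    rw [← h2]
    push_cast
    ring
  have hdim' : Module.finrank ℝ Z + Module.finrank ℝ (s8aInv i ⊔ s8aInv r : Submodule ℝ (T → ℝ)) =
    Fintype.card T := by omega
  have hdq : (Module.finrank ℝ Z : ℚ) +
    (Module.finrank ℝ (s8aInv i ⊔ s8aInv r : Submodule ℝ (T → ℝ)) : ℚ) = Fintype.card T := by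
    exact_mod_cast hdim'
  have hsq : (Module.finrank ℝ (s8aInv i ⊔ s8aInv r : Submodule ℝ (T → ℝ)) : ℚ) + 1 =
    Module.finrank ℝ (s8aInv i) + Module.finrank ℝ (s8aInv r) := by
    exact_mod_cast hsum
  linarith

variable {V : Type} [Fintype V] [DecidableEq V] {D : Finset (V × V × V)} {g : ℕ}

/-- simplicial cocycles as functions on the darts -/
def Zc (D : Finset (V × V × V)) : Submodule ℝ (D → ℝ) where
  carrier := {u | (∀ a b c d (h : (a, b, c) ∈ D) (h' : (b, a, d) ∈ D),
      u ⟨(b, a, d), h'⟩ = -u ⟨(a, b, c), h⟩) ∧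
    ∀ a b c (h : (a, b, c) ∈ D) (h' : (b, c, a) ∈ D) (h'' : (c, a, b) ∈ D),
      u ⟨(a, b, c), h⟩ + u ⟨(b, c, a), h'⟩ + u ⟨(c, a, b), h''⟩ = 0}
  add_mem' := by
    rintro u w ⟨h1, h2⟩ ⟨h3, h4⟩
    refine ⟨fun a b c d h h' => ?_, fun a b c h h' h'' => ?_⟩
    · have e1 := h1 a b c d h h'
      have e2 := h3 a b c d h h'
      show u _ + w _ = -(u _ + w _)
      rw [e1, e2]; ring
    · have e1 := h2 a b c h h' h''
      have e2 := h4 a b c h h' h''
      show (u _ + w _) + (u _ + w _) + (u _ + w _) = 0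
      linarith
  zero_mem' := by
    refine ⟨fun a b c d h h' => ?_, fun a b c h h' h'' => ?_⟩
    · show (0 : ℝ) = -0
      ring
    · show (0 : ℝ) + 0 + 0 = 0
      ring
  smul_mem' := by
    rintro r u ⟨h1, h2⟩
    refine ⟨fun a b c d h h' => ?_, fun a b c h h' h'' => ?_⟩
    · have e1 := h1 a b c d h h'
      show r * u _ = -(r * u _)
      rw [e1]; ring
    · have e1 := h2 a b c h h' h''
      show r * u _ + r * u _ + r * u _ = 0
      linear_combination r * e1

/-- a function on the darts which is invariant under the opposite and under rotations is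
constant -/
private theorem s8a_const (hD : IsCS D g) (w : D → ℝ)
    (h1 : ∀ a b c d (h : (a, b, c) ∈ D) (h' : (b, a, d) ∈ D),
      w ⟨(b, a, d), h'⟩ = w ⟨(a, b, c), h⟩)
    (h2 : ∀ a b c (h : (a, b, c) ∈ D) (h' : (b, c, a) ∈ D),
      w ⟨(b, c, a), h'⟩ = w ⟨(a, b, c), h⟩) (t t' : D) : w t = w t' := by
  -- around a vertex
  have hv : ∀ a b b' c c' (h : (a, b, c) ∈ D) (h' : (a, b', c') ∈ D),
      w ⟨(a, b', c'), h'⟩ = w ⟨(a, b, c), h⟩ := by
    intro a b b' c c' h h'
    have hl := hD.link a b b' ⟨c, h⟩ ⟨c', h'⟩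
    have : ∀ x, Relation.ReflTransGen (fun u v => (a, u, v) ∈ D) b x →
        ∀ e (he : (a, x, e) ∈ D), w ⟨(a, x, e), he⟩ = w ⟨(a, b, c), h⟩ := by
      intro x hx
      induction hx with
      | refl =>
        intro e he
        have : e = c := hD.uniq a b e c he h
        subst this
        rfl
      | tail hxy hyz ih =>
        rename_i y z
        intro e he
        have hyz' : (a, y, z) ∈ D := hyz
        have r1 : (y, z, a) ∈ D := hD.rot _ _ _ hyz'
        have r2 : (z, a, y) ∈ D := hD.rot _ _ _ r1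
        have e1 := h1 z a y e r2 he
        have e2 := h2 y z a r1 r2
        have e3 := h2 a y z hyz' r1
        rw [e1, e2, e3]
        exact ih z hyz'
    exact this b' hl c' h'
  obtain ⟨⟨a, b, c⟩, h⟩ := t
  obtain ⟨⟨a', b', c'⟩, h'⟩ := t'
  have hcn := hD.conn a a'
  have : ∀ x, Relation.ReflTransGen (fun u v => ∃ c, (u, v, c) ∈ D) a x →
      ∀ y z (he : (x, y, z) ∈ D), w ⟨(a, b, c), h⟩ = w ⟨(x, y, z), he⟩ := by
    intro x hx
    induction hx with
    | refl =>
      intro y z he
      exact (hv a b y c z h he).symm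
    | tail hxy hyz ih =>
      rename_i p q
      intro y z he
      obtain ⟨e, hpq⟩ := hyz
      have r1 : (q, e, p) ∈ D := hD.rot _ _ _ hpq
      have e1 := ih q e hpq
      have e2 := h2 p q e hpq r1
      have e3 := hv q e y p z r1 he
      rw [e3, e2, e1]
  exact this a' hcn b' c' h'

/-- `dim Z = |D|/2 - (|D|/3 - 1)`: `Z` is the kernel of the coboundary from the antisymmetric
functions on `D` (dimension `|D|/2`) to the rotation invariant functions (dimension `|D|/3`);
the orthogonal complement of its image consists of the constants (`link`, `conn`) -/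
theorem finrank_Zc [Nonempty V] (hD : IsCS D g) :
    (Module.finrank ℝ (Zc D) : ℚ) = D.card / 2 - D.card / 3 + 1 := by
  classical
  choose d hd using hD.opp
  set i : D → D := fun t => ⟨(t.1.2.1, t.1.1, d t.1.1 t.1.2.1 t.1.2.2 t.2), hd _ _ _ _⟩ with hi
  set r : D → D := fun t => ⟨(t.1.2.1, t.1.2.2, t.1.1), hD.rot _ _ _ t.2⟩ with hr
  have hne : Nonempty D := by
    obtain ⟨a⟩ := ‹Nonempty V›
    obtain ⟨b, c, h⟩ := hD.vert a
    exact ⟨⟨(a, b, c), h⟩⟩
  have hii : ∀ a b c e (h : (a, b, c) ∈ D) (h' : (b, a, e) ∈ D),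
      i ⟨(a, b, c), h⟩ = ⟨(b, a, e), h'⟩ := by
    intro a b c e h h'
    have : d a b c h = e := hD.uniq b a _ _ (hd a b c h) h'
    simp only [hi, this]
  have h1 : ∀ t, i (i t) = t := by
    rintro ⟨⟨a, b, c⟩, h⟩
    rw [hii a b c _ h (hd a b c h)]
    exact hii b a _ c _ h
  have h2 : ∀ t, i t ≠ t := by
    rintro ⟨⟨a, b, c⟩, h⟩ heq
    have := congrArg (fun t : D => t.1.1) heq
    simp only [hi] at this
    exact hD.ne a b c h this.symm
  have h3 : ∀ t, r (r (r t)) = t := by
    rintro ⟨⟨a, b, c⟩, h⟩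
    rfl
  have h4 : ∀ t, r t ≠ t := by
    rintro ⟨⟨a, b, c⟩, h⟩ heq
    have := congrArg (fun t : D => t.1.1) heq
    simp only [hr] at this
    exact hD.ne a b c h this.symm
  have h5 : ∀ t, r (r t) ≠ t := by
    rintro ⟨⟨a, b, c⟩, h⟩ heq
    have := congrArg (fun t : D => t.1.2.1) heq
    simp only [hr] at this
    exact hD.ne a b c h this
  have hcard : Fintype.card D = D.card := Fintype.card_coe D
  have key := s8a_abs i r h1 h2 h3 h4 h5 (fun w hw1 hw2 t t' => by
    refine s8a_const hD w ?_ ?_ t t'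
    · intro a b c e h h'
      have := hw1 ⟨(a, b, c), h⟩
      rw [hii a b c e h h'] at this
      exact this
    · intro a b c h h'
      exact hw2 ⟨(a, b, c), h⟩) (Zc D) (fun u => by
    constructor
    · rintro ⟨k1, k2⟩
      refine ⟨?_, ?_⟩
      · rintro ⟨⟨a, b, c⟩, h⟩
        rw [hii a b c _ h (hd a b c h)]
        exact k1 a b c _ h (hd a b c h)
      · rintro ⟨⟨a, b, c⟩, h⟩
        exact k2 a b c h _ _
    · rintro ⟨k1, k2⟩
      refine ⟨?_, ?_⟩
      · intro a b c e h h'
        have := k1 ⟨(a, b, c), h⟩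
        rw [hii a b c e h h'] at this
        exact this
      · intro a b c h h' h''
        exact k2 ⟨(a, b, c), h⟩)
  rw [hcard] at key
  exact key

/-- the coboundary of a function on the vertices -/
noncomputable def cob (D : Finset (V × V × V)) : (V → ℝ) →ₗ[ℝ] (D → ℝ) where
  toFun h := fun t => h t.1.2.1 - h t.1.1
  map_add' := by
    intro h h'
    funext t
    show (h t.1.2.1 + h' t.1.2.1) - (h t.1.1 + h' t.1.1) = _
    simp only [Pi.add_apply]
    ring
  map_smul' := by
    intro r h
    funext t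
    show r * h t.1.2.1 - r * h t.1.1 = r * (h t.1.2.1 - h t.1.1)
    ring

theorem S8b_const (hD : IsCS D g) {h : V → ℝ} (hh : h ∈ LinearMap.ker (cob D)) (a b : V) :
    h a = h b := by
  have h1 : ∀ u v, (∃ c, (u, v, c) ∈ D) → h u = h v := by
    rintro u v ⟨c, hc⟩
    have e := congrFun (LinearMap.mem_ker.mp hh) ⟨(u, v, c), hc⟩
    have e' : h v - h u = 0 := e
    linarith
  have h2 := hD.conn a b
  induction h2 with
  | refl => rfl
  | tail _ hs ih => exact ih.trans (h1 _ _ hs)

theorem S8b_ker [Nonempty V] (hD : IsCS D g) :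
    LinearMap.ker (cob D) = Submodule.span ℝ {(fun _ => 1 : V → ℝ)} := by
  apply le_antisymm
  · intro h hh
    rw [Submodule.mem_span_singleton]
    refine ⟨h (Classical.arbitrary V), ?_⟩
    funext a
    show h (Classical.arbitrary V) * 1 = h a
    rw [mul_one]
    exact S8b_const hD hh _ _
  · rw [Submodule.span_le, Set.singleton_subset_iff]
    show (fun _ => 1 : V → ℝ) ∈ LinearMap.ker (cob D)
    rw [LinearMap.mem_ker]
    funext t
    show (1 : ℝ) - 1 = 0
    ring

/-- `dim B = |V| - 1` -/
theorem finrank_cob [Nonempty V] (hD : IsCS D g) :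
    (Module.finrank ℝ (LinearMap.range (cob D)) : ℚ) = Fintype.card V - 1 := by
  have e1 := LinearMap.finrank_range_add_finrank_ker (cob D)
  rw [S8b_ker hD, finrank_span_singleton, Module.finrank_fintype_fun_eq_card] at e1
  · have e2 : ((Module.finrank ℝ (LinearMap.range (cob D)) + 1 : ℕ) : ℚ) = Fintype.card V := by
      rw [e1]
    push_cast at e2
    linarith
  · intro h0
    have e := congrFun h0 (Classical.arbitrary V)
    have e' : (1 : ℝ) = 0 := e
    exact one_ne_zero e'

theorem cob_le (hD : IsCS D g) : LinearMap.range (cob D) ≤ Zc D := by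
  rintro _ ⟨h, rfl⟩
  refine ⟨fun a b c d _ _ => ?_, fun a b c _ _ _ => ?_⟩
  · show h a - h b = -(h b - h a)
    ring
  · show (h b - h a) + (h c - h b) + (h a - h c) = 0
    ring

end F10G
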