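import Pool.Agent.Lib.MP_f10cd3_gt.G.Form

/-! Row S6a: `B_inj` and `dual_step`. -/

set_option autoImplicit false

namespace F10G

open MPf10cd3

variable {V : Type} [Fintype V] [DecidableEq V] {D : Finset (V × V × V)} {g : ℕ}
  {M : Type} [MetricSpace M] {μ : ℝ}
  {τ : Triang D M μ} {P : V → M} {B : V × V × V → M} {o : V × V × V → V × V × V}
  {v : M → V} {η : ℝ}

/-- the two darts belong to the same triangle -/
def SameT (t t' : V × V × V) : Prop :=
  t' = t ∨ t' = (t.2.1, t.2.2, t.1) ∨ t' = (t.2.2, t.1, t.2.1)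

open Classical in
/-- `z` is the crossing function of a path in the dual graph from the triangle of `t` to that of
`t'`, near the vertices in `S`; the path sum of every locally additive `c` is `C c`. -/
structure IsDual (D : Finset (V × V × V)) (B : V × V × V → M) (o : V × V × V → V × V × V) (μ : ℝ)
    (t t' : V × V × V) (S : Set V) (z : V → V → ℝ) (C : (M → M → ℝ) → ℝ) : Prop where
  anti : ∀ a b, z b a = -z a b
  bd : ∀ a b c, (a, b, c) ∈ D → z a b + z b c + z c a =
    (if B (a, b, c) = B t then 1 else 0) - (if B (a, b, c) = B t' then 1 else 0)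
  supp : ∀ a b, z a b ≠ 0 → a ∈ S ∨ b ∈ S
  sum : ∀ c : M → M → ℝ, (∀ x y z, dist x y < 4 * μ → dist y z < 4 * μ → dist x z < 4 * μ →
      c x y + c y z = c x z) →
    (∑ u ∈ D, z u.1 u.2.1 * c (B u) (B (o u))) / 2 = C c

theorem S6a_pos (hA : IsAux τ P B o v η) {a b c a' b' c' : V} (h : (a, b, c) ∈ D)
    (h' : (a', b', c') ∈ D) (e : B (a, b, c) = B (a', b', c')) (w : V)
    (hw : w = a' ∨ w = b' ∨ w = c') : w = a ∨ w = b ∨ w = c := by
  have e1 := hA.hB a b c h w
  have e2 := hA.hB a' b' c' h' w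
  rw [if_pos hw, ← e] at e2
  by_contra hn
  rw [if_neg hn] at e1
  rw [e1] at e2
  norm_num at e2

theorem S6a_same (hD : IsCS D g) (hA : IsAux τ P B o v η) {a b c b' c' : V} (h : (a, b, c) ∈ D)
    (h' : (a, b', c') ∈ D) (e : B (a, b, c) = B (a, b', c')) : b' = b ∧ c' = c := by
  have h1 := S6a_pos hA h h' e b' (Or.inr (Or.inl rfl))
  have h2 := S6a_pos hA h h' e c' (Or.inr (Or.inr rfl))
  have n1 : a ≠ b' := hD.ne _ _ _ h'
  have n2 : b' ≠ c' := hD.ne _ _ _ (hD.rot _ _ _ h')
  have n3 : c' ≠ a := hD.ne _ _ _ (hD.rot _ _ _ (hD.rot _ _ _ h'))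
  rcases h1 with h1 | h1 | h1
  · exact absurd h1.symm n1
  · subst h1
    exact ⟨rfl, hD.uniq _ _ _ _ h' h⟩
  · rcases h2 with h2 | h2 | h2
    · exact absurd h2 n3
    · exfalso
      subst h1
      subst h2
      have h3 := hD.rot _ _ _ (hD.rot _ _ _ h)
      exact hD.simp _ _ _ h3 h'
    · exact absurd (h1.trans h2.symm) n2

/-- barycentres of triangles are different -/
theorem B_inj (hD : IsCS D g) (hA : IsAux τ P B o v η) {t t' : V × V × V} (ht : t ∈ D)
    (ht' : t' ∈ D) (h : B t = B t') : SameT t t' := by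
  obtain ⟨a, b, c⟩ := t
  obtain ⟨a', b', c'⟩ := t'
  have r1 := hD.rot _ _ _ ht
  have r2 := hD.rot _ _ _ r1
  have q1 := hA.rotB hD ht
  have q2 := hA.rotB hD r1
  have h1 := S6a_pos hA ht ht' h a' (Or.inl rfl)
  rcases h1 with h1 | h1 | h1
  · subst h1
    obtain ⟨e1, e2⟩ := S6a_same hD hA ht ht' h
    subst e1
    subst e2
    exact Or.inl rfl
  · subst h1
    obtain ⟨e1, e2⟩ := S6a_same hD hA r1 ht' (q1.trans h)
    subst e1
    subst e2
    exact Or.inr (Or.inl rfl)
  · subst h1
    obtain ⟨e1, e2⟩ := S6a_same hD hA r2 ht' (q2.trans (q1.trans h))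
    subst e1
    subst e2
    exact Or.inr (Or.inr rfl)

open Classical in
theorem S6a_ind (hD : IsCS D g) (hA : IsAux τ P B o v η) {p q r x y w : V}
    (h : (p, q, r) ∈ D) (h' : (x, y, w) ∈ D) :
    (if x = p ∧ y = q then (1 : ℝ) else 0) + (if y = p ∧ w = q then (1 : ℝ) else 0) +
      (if w = p ∧ x = q then (1 : ℝ) else 0) = if B (x, y, w) = B (p, q, r) then 1 else 0 := by
  have r1 := hD.rot _ _ _ h'
  have r2 := hD.rot _ _ _ r1
  have n1 : x ≠ y := hD.ne _ _ _ h'
  have n2 : y ≠ w := hD.ne _ _ _ r1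
  have n3 : w ≠ x := hD.ne _ _ _ r2
  have q1 := hA.rotB hD h'
  have q2 := hA.rotB hD r1
  by_cases c1 : x = p ∧ y = q
  · obtain ⟨e1, e2⟩ := c1
    subst e1
    subst e2
    have e3 := hD.uniq _ _ _ _ h' h
    subst e3
    rw [if_pos ⟨rfl, rfl⟩, if_neg (fun hh => n1 hh.1.symm), if_neg (fun hh => n3 hh.1), if_pos rfl]
    norm_num
  · by_cases c2 : y = p ∧ w = q
    · obtain ⟨e1, e2⟩ := c2
      subst e1
      subst e2
      have e3 := hD.uniq _ _ _ _ r1 h
      subst e3
      rw [if_neg (fun hh => n1 hh.1), if_pos ⟨rfl, rfl⟩, if_neg (fun hh => n2 hh.1.symm),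
        if_pos q1.symm]
      norm_num
    · by_cases c3 : w = p ∧ x = q
      · obtain ⟨e1, e2⟩ := c3
        subst e1
        subst e2
        have e3 := hD.uniq _ _ _ _ r2 h
        subst e3
        rw [if_neg (fun hh => n3 hh.1.symm), if_neg (fun hh => n2 hh.1), if_pos ⟨rfl, rfl⟩,
          if_pos (q1.symm.trans q2.symm)]
        norm_num
      · rw [if_neg c1, if_neg c2, if_neg c3]
        have hne : ¬ B (x, y, w) = B (p, q, r) := by
          intro e
          rcases B_inj hD hA h' h e with e1 | e1 | e1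
          · exact c1 ⟨(congrArg Prod.fst e1).symm, (congrArg (fun t => t.2.1) e1).symm⟩
          · exact c2 ⟨(congrArg Prod.fst e1).symm, (congrArg (fun t => t.2.1) e1).symm⟩
          · exact c3 ⟨(congrArg Prod.fst e1).symm, (congrArg (fun t => t.2.1) e1).symm⟩
        rw [if_neg hne]
        norm_num

theorem S6a_sum (hD : IsCS D g) {p q r : V} (h : (p, q, r) ∈ D) (f : V × V × V → ℝ) :
    ∑ u ∈ D, (if u.1 = p ∧ u.2.1 = q then (1 : ℝ) else 0) * f u = f (p, q, r) := by
  rw [Finset.sum_eq_single_of_mem (p, q, r) h]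
  · rw [if_pos ⟨rfl, rfl⟩, one_mul]
  · rintro ⟨x, y, w⟩ hu hne
    have hn : ¬ (x = p ∧ y = q) := by
      rintro ⟨e1, e2⟩
      subst e1
      subst e2
      have e3 := hD.uniq _ _ _ _ hu h
      subst e3
      exact hne rfl
    rw [if_neg hn, zero_mul]

/-- one step around the vertex `a`: from `(a, b, c)` to `(a, c, d)` across the edge `a c`;
`z` is `1` on `(c, a)` and `-1` on `(a, c)` -/
theorem dual_step (hD : IsCS D g) (hA : IsAux τ P B o v η) {a b c d : V} (h : (a, b, c) ∈ D)
    (h' : (a, c, d) ∈ D) : ∃ z, IsDual D B o μ (a, b, c) (a, c, d) {a} z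
      (fun f => f (B (a, b, c)) (B (a, c, d))) := by
  have hμ : 0 < μ := lt_trans hA.η0 hA.ημ
  have r1 := hD.rot _ _ _ h
  have r2 := hD.rot _ _ _ r1
  have q1 := hA.rotB hD h
  have q2 := hA.rotB hD r1
  have q3 : B (c, a, b) = B (a, b, c) := q2.trans q1
  have o1 : o (c, a, b) = (a, c, d) := by
    obtain ⟨e, he, he'⟩ := hA.ho _ _ _ r2
    rw [he, hD.uniq _ _ _ _ he' h']
  have o2 : o (a, c, d) = (c, a, b) := by
    obtain ⟨e, he, he'⟩ := hA.ho _ _ _ h'
    rw [he, hD.uniq _ _ _ _ he' r2]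
  refine ⟨fun x y => (if x = c ∧ y = a then 1 else 0) - (if x = a ∧ y = c then 1 else 0),
    ⟨?_, ?_, ?_, ?_⟩⟩
  · intro x y
    show (if y = c ∧ x = a then (1 : ℝ) else 0) - (if y = a ∧ x = c then 1 else 0) =
      -((if x = c ∧ y = a then (1 : ℝ) else 0) - (if x = a ∧ y = c then 1 else 0))
    simp only [and_comm (a := y = c), and_comm (a := y = a)]
    ring
  · intro x y w hu
    have i1 := S6a_ind hD hA r2 hu
    have i2 := S6a_ind hD hA h' hu
    rw [q3] at i1
    rw [← i1, ← i2]
    show ((if x = c ∧ y = a then (1 : ℝ) else 0) - (if x = a ∧ y = c then 1 else 0)) +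
      ((if y = c ∧ w = a then (1 : ℝ) else 0) - (if y = a ∧ w = c then 1 else 0)) +
      ((if w = c ∧ x = a then (1 : ℝ) else 0) - (if w = a ∧ x = c then 1 else 0)) = _
    ring
  · intro x y hz
    by_contra hn
    rw [not_or] at hn
    apply hz
    show (if x = c ∧ y = a then (1 : ℝ) else 0) - (if x = a ∧ y = c then 1 else 0) = 0
    rw [if_neg (fun hh => hn.2 hh.2), if_neg (fun hh => hn.1 hh.1), sub_zero]
  · intro f hf
    show (∑ u ∈ D, ((if u.1 = c ∧ u.2.1 = a then (1 : ℝ) else 0) -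
      (if u.1 = a ∧ u.2.1 = c then 1 else 0)) * f (B u) (B (o u))) / 2 =
      f (B (a, b, c)) (B (a, c, d))
    simp only [sub_mul, Finset.sum_sub_distrib]
    have s1 := S6a_sum hD r2 (fun u => f (B u) (B (o u)))
    have s2 := S6a_sum hD h' (fun u => f (B u) (B (o u)))
    rw [s1, s2, o1, o2, q3]
    have n3 := hA.distB r2
    rw [o1, q3] at n3
    have z1 := hf (B (a, b, c)) (B (a, b, c)) (B (a, b, c))
      (by rw [dist_self]; linarith) (by rw [dist_self]; linarith) (by rw [dist_self]; linarith)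
    have z2 := hf (B (a, b, c)) (B (a, c, d)) (B (a, b, c))
      (by linarith) (by rw [dist_comm]; linarith) (by rw [dist_self]; linarith)
    linarith

theorem S6b_dist (hA : IsAux τ P B o v η) {a b c b' c' : V}
    (h : (a, b, c) ∈ D) (h' : (a, b', c') ∈ D) :
    dist (B (a, b, c)) (B (a, b', c')) < 4 * μ := by
  have h1 := (hA.nearB h).1
  have h2 := (hA.nearB h').1
  have h3 := dist_triangle_right (B (a, b, c)) (B (a, b', c')) (P a)
  have h4 : (0 : ℝ) ≤ dist (B (a, b, c)) (P a) := dist_nonneg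
  linarith

theorem S6b_zero (hA : IsAux τ P B o v η) {a b c : V} (h : (a, b, c) ∈ D) :
    IsDual D B o μ (a, b, c) (a, b, c) {a} (fun _ _ => 0)
      (fun f => f (B (a, b, c)) (B (a, b, c))) := by
  refine ⟨fun _ _ => by simp, fun x y z _ => by simp, fun x y hxy => absurd rfl hxy, ?_⟩
  intro f hf
  have h1 := S6b_dist hA h h
  have h2 := hf _ _ _ h1 h1 h1
  have h3 : f (B (a, b, c)) (B (a, b, c)) = 0 := by linarith
  rw [h3]
  simp

theorem S6b_comp (hA : IsAux τ P B o v η) {a b c b' c' b'' c'' : V} (h : (a, b, c) ∈ D)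
    (h' : (a, b', c') ∈ D) (h'' : (a, b'', c'') ∈ D) {z1 z2 : V → V → ℝ}
    (hz1 : IsDual D B o μ (a, b, c) (a, b', c') {a} z1
      (fun f => f (B (a, b, c)) (B (a, b', c'))))
    (hz2 : IsDual D B o μ (a, b', c') (a, b'', c'') {a} z2
      (fun f => f (B (a, b', c')) (B (a, b'', c'')))) :
    IsDual D B o μ (a, b, c) (a, b'', c'') {a} (fun x y => z1 x y + z2 x y)
      (fun f => f (B (a, b, c)) (B (a, b'', c''))) := by
  refine ⟨fun x y => ?_, fun x y z hxyz => ?_, fun x y hxy => ?_, ?_⟩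
  · rw [hz1.anti x y, hz2.anti x y]
    ring
  · have h1 := hz1.bd x y z hxyz
    have h2 := hz2.bd x y z hxyz
    linear_combination h1 + h2
  · by_cases h1 : z1 x y = 0
    · refine hz2.supp x y fun h2 => hxy ?_
      rw [h1, h2, add_zero]
    · exact hz1.supp x y h1
  · intro f hf
    have h1 := hz1.sum f hf
    have h2 := hz2.sum f hf
    have h3 := hf _ _ _ (S6b_dist hA h h') (S6b_dist hA h' h'') (S6b_dist hA h h'')
    have h4 : ∑ u ∈ D, (z1 u.1 u.2.1 + z2 u.1 u.2.1) * f (B u) (B (o u)) =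
        ∑ u ∈ D, z1 u.1 u.2.1 * f (B u) (B (o u)) +
          ∑ u ∈ D, z2 u.1 u.2.1 * f (B u) (B (o u)) := by
      rw [← Finset.sum_add_distrib]
      exact Finset.sum_congr rfl fun u _ => add_mul _ _ _
    show (∑ u ∈ D, (z1 u.1 u.2.1 + z2 u.1 u.2.1) * f (B u) (B (o u))) / 2 = _
    rw [h4, add_div, h1, h2, h3]

/-- two darts with the same first vertex (`link`) -/
theorem dual_star (hD : IsCS D g) (hA : IsAux τ P B o v η) {a b c b' c' : V}
    (h : (a, b, c) ∈ D) (h' : (a, b', c') ∈ D) : ∃ z, IsDual D B o μ (a, b, c) (a, b', c') {a} z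
      (fun f => f (B (a, b, c)) (B (a, b', c'))) := by
  have hl := hD.link a b b' ⟨c, h⟩ ⟨c', h'⟩
  induction hl generalizing c' with
  | refl =>
    have := hD.uniq a b c c' h h'
    subst this
    exact ⟨_, S6b_zero hA h⟩
  | tail _ huv ih =>
    obtain ⟨z1, hz1⟩ := ih huv
    obtain ⟨z2, hz2⟩ := dual_step (μ := μ) hD hA huv h'
    exact ⟨_, S6b_comp hA h huv h' hz1 hz2⟩

omit [Fintype V] [DecidableEq V] in
private theorem S6c_comp {t t' t'' t''' : V × V × V} {S S' S'' : Set V} {z z' : V → V → ℝ}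
    {C C' C'' : (M → M → ℝ) → ℝ} (h : IsDual D B o μ t t' S z C)
    (h' : IsDual D B o μ t'' t''' S' z' C') (hB : B t' = B t'') (hS : S ⊆ S'') (hS' : S' ⊆ S'')
    (hC : ∀ c : M → M → ℝ, (∀ x y z, dist x y < 4 * μ → dist y z < 4 * μ → dist x z < 4 * μ →
      c x y + c y z = c x z) → C c + C' c = C'' c) :
    IsDual D B o μ t t''' S'' (fun a b => z a b + z' a b) C'' where
  anti := by
    intro a b
    rw [h.anti a b, h'.anti a b]
    ring
  bd := by
    intro a b c habc
    have h1 := h.bd a b c habc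
    have h2 := h'.bd a b c habc
    rw [hB] at h1
    linarith
  supp := by
    intro a b hab
    by_cases h1 : z a b = 0
    · have h2 : z' a b ≠ 0 := by
        intro h2
        exact hab (by show z a b + z' a b = 0; rw [h1, h2, add_zero])
      rcases h'.supp a b h2 with h3 | h3
      · exact Or.inl (hS' h3)
      · exact Or.inr (hS' h3)
    · rcases h.supp a b h1 with h3 | h3
      · exact Or.inl (hS h3)
      · exact Or.inr (hS h3)
  sum := by
    intro c hc
    rw [← hC c hc, ← h.sum c hc, ← h'.sum c hc, ← add_div, ← Finset.sum_add_distrib]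
    congr 1
    apply Finset.sum_congr rfl
    intro u _
    ring

/-- a closed path of vertices gives a closed path in the dual graph -/
theorem dual_loop (hD : IsCS D g) (hA : IsAux τ P B o v η) (n : ℕ) (w : ℕ → V) (hw : w n = w 0)
    (hadj : ∀ i < n, w i = w (i + 1) ∨ ∃ c, (w i, w (i + 1), c) ∈ D) :
    ∃ (t : ℕ → V × V × V) (z : V → V → ℝ), (∀ i ≤ n, t i ∈ D ∧ (t i).1 = w i) ∧ t n = t 0 ∧
      IsDual D B o μ (t 0) (t 0) {a | ∃ i ≤ n, a = w i} z
        (fun f => ∑ i ∈ Finset.range n, f (B (t i)) (B (t (i + 1)))) := by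
  choose fb fc hf using hD.vert
  have hμ : 0 < μ := hA.η0.trans hA.ημ
  have key : ∀ j, j ≤ n → ∃ z : V → V → ℝ,
      IsDual D B o μ (w 0, fb (w 0), fc (w 0)) (w j, fb (w j), fc (w j)) {a | ∃ i ≤ j, a = w i} z
        (fun f => ∑ i ∈ Finset.range j, f (B (w i, fb (w i), fc (w i)))
          (B (w (i + 1), fb (w (i + 1)), fc (w (i + 1))))) := by
    intro j
    induction j with
    | zero =>
      intro _
      refine ⟨fun _ _ => 0, ?_, ?_, ?_, ?_⟩
      · intro a b; simp
      · intro a b c _; simp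
      · intro a b hab; exact absurd rfl hab
      · intro c _; simp
    | succ j ih =>
      intro hj
      obtain ⟨z, hz⟩ := ih (by omega)
      have hstep : ∃ z' : V → V → ℝ,
          IsDual D B o μ (w j, fb (w j), fc (w j)) (w (j + 1), fb (w (j + 1)), fc (w (j + 1)))
            {a | ∃ i ≤ j + 1, a = w i} z'
            (fun f => f (B (w j, fb (w j), fc (w j)))
              (B (w (j + 1), fb (w (j + 1)), fc (w (j + 1))))) := by
        rcases hadj j (by omega) with h1 | ⟨c, h1⟩
        · have h2 := hf (w j)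
          obtain ⟨z', hz'⟩ := dual_star hD hA h2 h2
          rw [← h1]
          refine ⟨z', hz'.anti, hz'.bd, ?_, hz'.sum⟩
          intro a b hab
          rcases hz'.supp a b hab with h3 | h3
          · exact Or.inl ⟨j, by omega, h3⟩
          · exact Or.inr ⟨j, by omega, h3⟩
        · have h2 := hf (w j)
          have h3 := hf (w (j + 1))
          have h4 : (w (j + 1), c, w j) ∈ D := hD.rot _ _ _ h1
          obtain ⟨z1, hz1⟩ := dual_star hD hA h2 h1
          obtain ⟨z2, hz2⟩ := dual_star hD hA h4 h3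
          have hrot : B (w (j + 1), c, w j) = B (w j, w (j + 1), c) := hA.rotB hD h1
          refine ⟨_, S6c_comp hz1 hz2 hrot.symm ?_ ?_ ?_⟩
          · intro a ha
            exact ⟨j, by omega, ha⟩
          · intro a ha
            exact ⟨j + 1, le_rfl, ha⟩
          · intro f hfa
            rw [hrot]
            have d1 := (hA.nearB h2).1
            have d2 := (hA.nearB h1).1
            have d3 := (hA.nearB h1).2.1
            have d4 := (hA.nearB h3).1
            apply hfa
            · have := dist_triangle_right (B (w j, fb (w j), fc (w j))) (B (w j, w (j + 1), c))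
                (P (w j))
              linarith
            · have := dist_triangle_right (B (w j, w (j + 1), c))
                (B (w (j + 1), fb (w (j + 1)), fc (w (j + 1)))) (P (w (j + 1)))
              linarith
            · have e1 := dist_triangle_right (B (w j, fb (w j), fc (w j))) (B (w j, w (j + 1), c))
                (P (w j))
              have e2 := dist_triangle_right (B (w j, w (j + 1), c))
                (B (w (j + 1), fb (w (j + 1)), fc (w (j + 1)))) (P (w (j + 1)))
              have e3 := dist_triangle (B (w j, fb (w j), fc (w j))) (B (w j, w (j + 1), c))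
                (B (w (j + 1), fb (w (j + 1)), fc (w (j + 1))))
              linarith
      obtain ⟨z', hz'⟩ := hstep
      refine ⟨_, S6c_comp hz hz' rfl ?_ subset_rfl ?_⟩
      · rintro a ⟨i, hi, rfl⟩
        exact ⟨i, by omega, rfl⟩
      · intro f _
        rw [Finset.sum_range_succ]
  obtain ⟨z, hz⟩ := key n le_rfl
  refine ⟨fun i => (w i, fb (w i), fc (w i)), z, ?_, ?_, ?_⟩
  · intro i _
    exact ⟨hf (w i), rfl⟩
  · show (w n, fb (w n), fc (w n)) = (w 0, fb (w 0), fc (w 0))
    rw [hw]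
  · rw [hw] at hz
    exact hz

end F10G
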