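import Pool.Agent.Lib.MP_f10cd3_gt.G.Defs

/-! Row S1a: auxiliary choices for a triangulation. -/

set_option autoImplicit false

namespace F10G

open MPf10cd3

variable {V : Type} [Fintype V] [DecidableEq V] {D : Finset (V × V × V)} {g : ℕ}
  {M : Type} [MetricSpace M] {μ : ℝ}

/-- the auxiliary choices -/
structure IsAux (τ : Triang D M μ) (P : V → M) (B : V × V × V → M)
    (o : V × V × V → V × V × V) (v : M → V) (η : ℝ) : Prop where
  hP : ∀ a w, τ.lam (P a) w = if w = a then 1 else 0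
  hB : ∀ a b c, (a, b, c) ∈ D → ∀ w,
    τ.lam (B (a, b, c)) w = if w = a ∨ w = b ∨ w = c then 1 / 3 else 0
  ho : ∀ a b c, (a, b, c) ∈ D → ∃ d, o (a, b, c) = (b, a, d) ∧ (b, a, d) ∈ D
  hv : ∀ y, 0 < τ.lam y (v y)
  η0 : 0 < η
  ημ : η < μ
  hvη : ∀ y z, dist y z < η → 0 < τ.lam z (v y)

theorem S1a_P (hD : IsCS D g) (τ : Triang D M μ) (a : V) :
    ∃ y, ∀ w, τ.lam y w = if w = a then 1 else 0 := by
  obtain ⟨b, c, h⟩ := hD.vert a
  obtain ⟨y, hy⟩ := τ.surj (fun w => if w = a then 1 else 0) (fun w => by split_ifs <;> norm_num)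
    (by simp) ⟨a, b, c, h, fun w hw => by
      by_contra hne
      push Not at hne
      simp [hne.1] at hw⟩
  exact ⟨y, fun w => by rw [hy]⟩

theorem S1a_B (hD : IsCS D g) (τ : Triang D M μ) (a b c : V) (h : (a, b, c) ∈ D) :
    ∃ y, ∀ w, τ.lam y w = if w = a ∨ w = b ∨ w = c then 1 / 3 else 0 := by
  have h1 := hD.ne a b c h
  have h2 := hD.ne b c a (hD.rot _ _ _ h)
  have h3 := hD.ne c a b (hD.rot _ _ _ (hD.rot _ _ _ h))
  have hsum : ∑ w : V, (if w = a ∨ w = b ∨ w = c then (1 / 3 : ℝ) else 0) = 1 := by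
    rw [← Finset.sum_filter]
    have : (Finset.univ.filter fun w => w = a ∨ w = b ∨ w = c) = {a, b, c} := by
      ext w
      simp
    rw [this, Finset.sum_insert (by simp [h1, h3.symm]), Finset.sum_insert (by simp [h2]),
      Finset.sum_singleton]
    norm_num
  obtain ⟨y, hy⟩ := τ.surj (fun w => if w = a ∨ w = b ∨ w = c then 1 / 3 else 0)
    (fun w => by split_ifs <;> norm_num) hsum ⟨a, b, c, h, fun w hw => by
      by_contra hne
      simp [hne] at hw⟩
  exact ⟨y, fun w => by rw [hy]⟩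

theorem S1a_v (τ : Triang D M μ) (y : M) :
    0 < Fintype.card V ∧ ∃ w, 1 / (Fintype.card V : ℝ) ≤ τ.lam y w := by
  have hne : Nonempty V := by
    by_contra h
    rw [not_nonempty_iff] at h
    have := τ.sum y
    rw [Finset.univ_eq_empty, Finset.sum_empty] at this
    norm_num at this
  have hc : 0 < Fintype.card V := Fintype.card_pos
  refine ⟨hc, ?_⟩
  by_contra h
  push Not at h
  have h1 : ∑ w, τ.lam y w < ∑ _w : V, 1 / (Fintype.card V : ℝ) :=
    Finset.sum_lt_sum_of_nonempty Finset.univ_nonempty fun w _ => h w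
  rw [τ.sum y, Finset.sum_const, Finset.card_univ, nsmul_eq_mul, mul_one_div_cancel] at h1
  · exact lt_irrefl _ h1
  · exact_mod_cast hc.ne'

theorem S1a_eta [CompactSpace M] (hμ : 0 < μ) (τ : Triang D M μ) (hc : 0 < Fintype.card V) :
    ∃ η : ℝ, 0 < η ∧ η < μ ∧ ∀ y z, dist y z < η → ∀ w, |τ.lam y w - τ.lam z w| <
      1 / (Fintype.card V : ℝ) := by
  have hε : 0 < 1 / (Fintype.card V : ℝ) := by positivity
  have h1 : ∀ w : V, ∃ δ : ℝ, 0 < δ ∧ ∀ y z, dist y z < δ → |τ.lam y w - τ.lam z w| <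
      1 / (Fintype.card V : ℝ) := by
    intro w
    have h2 := CompactSpace.uniformContinuous_of_continuous (τ.cont w)
    rw [Metric.uniformContinuous_iff] at h2
    obtain ⟨δ, hδ, h3⟩ := h2 _ hε
    exact ⟨δ, hδ, fun y z h => h3 h⟩
  choose δ hδ h3 using h1
  have hne : Nonempty V := Fintype.card_pos_iff.1 hc
  refine ⟨min (μ / 2) (Finset.univ.inf' Finset.univ_nonempty δ), ?_, ?_, ?_⟩
  · refine lt_min (by positivity) ?_
    rw [Finset.lt_inf'_iff]
    exact fun w _ => hδ w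
  · exact (min_le_left _ _).trans_lt (by linarith)
  · intro y z h w
    refine h3 w y z (h.trans_le ((min_le_right _ _).trans ?_))
    exact Finset.inf'_le _ (Finset.mem_univ w)

/-- `v y` maximises `λ_w(y)`, so `λ_{v y}(y) ≥ 1 / |V|`; uniform continuity of the `λ_w` -/
theorem exists_aux [CompactSpace M] (hμ : 0 < μ) (hD : IsCS D g) (τ : Triang D M μ) :
    ∃ P B o v η, IsAux τ P B o v η := by
  classical
  choose P hP using S1a_P hD τ
  have hB1 : ∀ t : V × V × V, ∃ y, t ∈ D → ∀ w,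
      τ.lam y w = if w = t.1 ∨ w = t.2.1 ∨ w = t.2.2 then 1 / 3 else 0 := by
    rintro ⟨a, b, c⟩
    by_cases h : (a, b, c) ∈ D
    · obtain ⟨y, hy⟩ := S1a_B hD τ a b c h
      exact ⟨y, fun _ => hy⟩
    · exact ⟨P a, fun h' => absurd h' h⟩
  choose B hB using hB1
  have ho1 : ∀ t : V × V × V, ∃ d, t ∈ D → (t.2.1, t.1, d) ∈ D := by
    rintro ⟨a, b, c⟩
    by_cases h : (a, b, c) ∈ D
    · obtain ⟨d, hd⟩ := hD.opp a b c h
      exact ⟨d, fun _ => hd⟩
    · exact ⟨a, fun h' => absurd h' h⟩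
  choose d hd using ho1
  choose v hv using fun y => (S1a_v τ y).2
  by_cases hM : Nonempty M
  · have hc := (S1a_v τ hM.some).1
    obtain ⟨η, h1, h2, h3⟩ := S1a_eta hμ τ hc
    have hε : 0 < 1 / (Fintype.card V : ℝ) := by positivity
    refine ⟨P, B, fun t => (t.2.1, t.1, d t), v, η, ⟨hP, fun a b c h w => hB (a, b, c) h w,
      fun a b c h => ⟨_, rfl, hd (a, b, c) h⟩, fun y => hε.trans_le (hv y), h1, h2, ?_⟩⟩
    intro y z hyz
    have h4 := (abs_lt.1 (h3 y z hyz (v y))).2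
    have h5 := hv y
    linarith
  · refine ⟨P, B, fun t => (t.2.1, t.1, d t), v, μ / 2, ⟨hP, fun a b c h w => hB (a, b, c) h w,
      fun a b c h => ⟨_, rfl, hd (a, b, c) h⟩, fun y => absurd ⟨y⟩ hM, by positivity,
      by linarith, fun y => absurd ⟨y⟩ hM⟩⟩

/-- two vertices with positive coordinates at the same point are equal or joined by an edge -/
theorem adj_of_pos (hD : IsCS D g) (τ : Triang D M μ) {y : M} {a b : V} (ha : 0 < τ.lam y a)
    (hb : 0 < τ.lam y b) : a = b ∨ ∃ c, (a, b, c) ∈ D := by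
  obtain ⟨x1, x2, x3, hx, hs⟩ := τ.supp y
  have h2 : (x2, x3, x1) ∈ D := hD.rot _ _ _ hx
  have h3 : (x3, x1, x2) ∈ D := hD.rot _ _ _ h2
  have o1 := hD.opp _ _ _ hx
  have o2 := hD.opp _ _ _ h2
  have o3 := hD.opp _ _ _ h3
  rcases hs a ha.ne' with rfl | rfl | rfl <;> rcases hs b hb.ne' with h | h | h
  · exact Or.inl h.symm
  · exact Or.inr ⟨_, by rw [h]; exact hx⟩
  · exact Or.inr (by rw [h]; exact o3)
  · exact Or.inr (by rw [h]; exact o1)
  · exact Or.inl h.symm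
  · exact Or.inr ⟨_, by rw [h]; exact h2⟩
  · exact Or.inr ⟨_, by rw [h]; exact h3⟩
  · exact Or.inr (by rw [h]; exact o2)
  · exact Or.inl h.symm

/-- a simplicial cocycle is additive on the vertices with positive coordinates at a point -/
theorem add_of_pos (hD : IsCS D g) (τ : Triang D M μ) {z : V → V → ℝ} (h0 : ∀ a, z a a = 0)
    (ha : ∀ a b, z b a = -z a b) (hz : ∀ a b c, (a, b, c) ∈ D → z a b + z b c + z c a = 0)
    {y : M} {u v w : V} (hu : 0 < τ.lam y u) (hv : 0 < τ.lam y v) (hw : 0 < τ.lam y w) :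
    z u v + z v w = z u w := by
  obtain ⟨x1, x2, x3, hx, hs⟩ := τ.supp y
  have e := hz _ _ _ hx
  have a1 := ha x1 x2
  have a2 := ha x2 x3
  have a3 := ha x3 x1
  have z1 := h0 x1
  have z2 := h0 x2
  have z3 := h0 x3
  rcases hs u hu.ne' with h1 | h1 | h1 <;> rcases hs v hv.ne' with h2 | h2 | h2 <;>
    rcases hs w hw.ne' with h3 | h3 | h3 <;> rw [h1, h2, h3] <;> linarith

variable {τ : Triang D M μ} {P : V → M} {B : V × V × V → M} {o : V × V × V → V × V × V}
  {v : M → V} {η : ℝ}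

theorem IsAux.vP (hA : IsAux τ P B o v η) (a : V) : v (P a) = a := by
  have h := hA.hv (P a)
  rw [hA.hP] at h
  by_contra hne
  rw [if_neg hne] at h
  exact lt_irrefl _ h

theorem IsAux.near (hA : IsAux τ P B o v η) {y : M} {a : V} (h : 0 < τ.lam y a) :
    dist y (P a) < μ := by
  refine τ.mesh a y (P a) h ?_
  rw [hA.hP, if_pos rfl]
  exact one_pos

theorem IsAux.nearB (hA : IsAux τ P B o v η) {a b c : V} (h : (a, b, c) ∈ D) :
    dist (B (a, b, c)) (P a) < μ ∧ dist (B (a, b, c)) (P b) < μ ∧ dist (B (a, b, c)) (P c) < μ := by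
  refine ⟨hA.near ?_, hA.near ?_, hA.near ?_⟩
  · rw [hA.hB a b c h, if_pos (Or.inl rfl)]; norm_num
  · rw [hA.hB a b c h, if_pos (Or.inr (Or.inl rfl))]; norm_num
  · rw [hA.hB a b c h, if_pos (Or.inr (Or.inr rfl))]; norm_num

theorem IsAux.rotB (hD : IsCS D g) (hA : IsAux τ P B o v η) {a b c : V} (h : (a, b, c) ∈ D) :
    B (b, c, a) = B (a, b, c) := by
  apply τ.inj
  funext w
  rw [hA.hB b c a (hD.rot _ _ _ h), hA.hB a b c h]
  by_cases h1 : w = a
  · rw [if_pos (Or.inr (Or.inr h1)), if_pos (Or.inl h1)]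
  by_cases h2 : w = b
  · rw [if_pos (Or.inl h2), if_pos (Or.inr (Or.inl h2))]
  by_cases h3 : w = c
  · rw [if_pos (Or.inr (Or.inl h3)), if_pos (Or.inr (Or.inr h3))]
  rw [if_neg, if_neg]
  · rintro (h4 | h4 | h4)
    · exact h1 h4
    · exact h2 h4
    · exact h3 h4
  · rintro (h4 | h4 | h4)
    · exact h2 h4
    · exact h3 h4
    · exact h1 h4

theorem IsAux.oo (hD : IsCS D g) (hA : IsAux τ P B o v η) {t : V × V × V} (h : t ∈ D) :
    o t ∈ D ∧ o (o t) = t := by
  obtain ⟨a, b, c⟩ := t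
  obtain ⟨d, hd, hdD⟩ := hA.ho a b c h
  obtain ⟨e, he, heD⟩ := hA.ho b a d hdD
  rw [hd, he, hD.uniq _ _ _ _ heD h]
  exact ⟨hdD, rfl⟩

/-- the distance of two adjacent vertices -/
theorem IsAux.distP (hA : IsAux τ P B o v η) {a b c : V} (h : (a, b, c) ∈ D) :
    dist (P a) (P b) < 2 * μ := by
  obtain ⟨h1, h2, -⟩ := hA.nearB h
  have := dist_triangle (P a) (B (a, b, c)) (P b)
  rw [dist_comm (P a) (B (a, b, c))] at this
  linarith

/-- the distance of the barycentres of adjacent triangles -/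
theorem IsAux.distB (hA : IsAux τ P B o v η) {t : V × V × V} (h : t ∈ D) :
    dist (B t) (B (o t)) < 2 * μ := by
  obtain ⟨a, b, c⟩ := t
  obtain ⟨d, hd, hdD⟩ := hA.ho a b c h
  obtain ⟨h1, h2, -⟩ := hA.nearB h
  obtain ⟨h3, h4, -⟩ := hA.nearB hdD
  rw [hd]
  have := dist_triangle (B (a, b, c)) (P a) (B (b, a, d))
  rw [dist_comm (P a) (B (b, a, d))] at this
  linarith

end F10G
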