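import Pool.Agent.Lib.MP_f10cd3_gt.G.Kap
import Pool.Agent.Lib.MP_f10cd3_gt.G.Vert

/-! Row S3: the primitive of a simplicial cocycle along an edge (part a). -/

set_option autoImplicit false

namespace F10G

open MPf10cd3

variable {V : Type} [Fintype V] [DecidableEq V] {D : Finset (V × V × V)} {g : ℕ}
  {Γ X M : Type} [Group Γ] [MetricSpace X] [MulAction Γ X] [MetricSpace M] {π : X → M} {μ : ℝ}
  {s : M → X} {k : M → M → Γ}
  {τ : Triang D M μ} {P : V → M} {B : V × V × V → M} {o : V × V × V → V × V × V}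
  {v : M → V} {η : ℝ}

/-- a fine chain along the edge `a b`: points `m_i` whose only positive coordinates are those of
`a` and `b` (the curve `t ↦ lam⁻¹ ((1-t) a + t b)` is continuous since `M` is compact) -/
theorem edge_chain [CompactSpace M] (hA : IsAux τ P B o v η) {a b c : V} (h : (a, b, c) ∈ D)
    {ε : ℝ} (hε : 0 < ε) :
    ∃ (n : ℕ) (m : ℕ → M), m 0 = P a ∧ m n = P b ∧ (∀ i < n, dist (m i) (m (i + 1)) < ε) ∧
      ∀ i ≤ n, dist (P a) (m i) < 2 * μ ∧ ∀ w, 0 < τ.lam (m i) w → w = a ∨ w = b := by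
  have hμ : 0 < μ := hA.η0.trans hA.ημ
  let cl : ℝ → ℝ := fun t => max 0 (min 1 t)
  have hcl0 : ∀ t, 0 ≤ cl t := fun t => le_max_left _ _
  have hcl1 : ∀ t, cl t ≤ 1 := fun t => max_le zero_le_one (min_le_left _ _)
  have hclc : Continuous cl := by
    show Continuous fun t : ℝ => max 0 (min 1 t)
    fun_prop
  let wt : ℝ → V → ℝ := fun t w =>
    (1 - cl t) * (if w = a then 1 else 0) + cl t * (if w = b then 1 else 0)
  have hwt : ∀ t w, wt t w =
    (1 - cl t) * (if w = a then 1 else 0) + cl t * (if w = b then 1 else 0) := fun _ _ => rfl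
  have hex : ∀ t, ∃ y, τ.lam y = wt t := by
    intro t
    apply τ.surj
    · intro w
      rw [hwt]
      have h1 : 0 ≤ 1 - cl t := by linarith [hcl1 t]
      have h2 := hcl0 t
      split_ifs <;> simp <;> linarith
    · simp only [hwt]
      rw [Finset.sum_add_distrib, ← Finset.mul_sum, ← Finset.mul_sum]
      simp
    · refine ⟨a, b, c, h, ?_⟩
      intro w hw
      by_contra hcon
      push Not at hcon
      apply hw
      rw [hwt, if_neg hcon.1, if_neg hcon.2.1]
      ring
  choose γ hγ using hex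
  have hemb : Topology.IsClosedEmbedding τ.lam :=
    Continuous.isClosedEmbedding (continuous_pi τ.cont) τ.inj
  have hγc : Continuous γ := by
    rw [hemb.isInducing.continuous_iff]
    have e : τ.lam ∘ γ = wt := funext hγ
    rw [e]
    apply continuous_pi
    intro w
    show Continuous fun t =>
      (1 - cl t) * (if w = a then (1 : ℝ) else 0) + cl t * (if w = b then 1 else 0)
    fun_prop
  have hγ0 : γ 0 = P a := by
    apply τ.inj
    rw [hγ]
    funext w
    rw [hA.hP, hwt]
    have : cl 0 = 0 := by show max (0 : ℝ) (min 1 0) = 0; simp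
    rw [this]
    ring
  have hγ1 : ∀ t, cl t = 1 → γ t = P b := by
    intro t ht
    apply τ.inj
    rw [hγ]
    funext w
    rw [hA.hP, hwt, ht]
    ring
  have huc := isCompact_Icc.uniformContinuousOn_of_continuous
    (s := Set.Icc (0 : ℝ) 1) hγc.continuousOn
  rw [Metric.uniformContinuousOn_iff] at huc
  obtain ⟨δ, hδ, hδ'⟩ := huc ε hε
  obtain ⟨n, hn⟩ := exists_nat_one_div_lt hδ
  have hN : (0 : ℝ) < (n : ℝ) + 1 := by positivity
  refine ⟨n + 1, fun i => γ ((i : ℝ) / ((n : ℝ) + 1)), ?_, ?_, ?_, ?_⟩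
  · simpa using hγ0
  · apply hγ1
    have : (((n + 1 : ℕ) : ℝ) / ((n : ℝ) + 1)) = 1 := by
      push_cast
      exact div_self hN.ne'
    rw [this]
    show max (0 : ℝ) (min 1 1) = 1
    simp
  · intro i hi
    have hi' : (i : ℝ) + 1 ≤ (n : ℝ) + 1 := by exact_mod_cast hi
    apply hδ'
    · refine ⟨by positivity, ?_⟩
      rw [div_le_one hN]
      linarith
    · refine ⟨by positivity, ?_⟩
      rw [div_le_one hN]
      push_cast
      exact hi'
    · rw [Real.dist_eq]
      have e : (i : ℝ) / ((n : ℝ) + 1) - ((i + 1 : ℕ) : ℝ) / ((n : ℝ) + 1) =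
          -(1 / ((n : ℝ) + 1)) := by
        push_cast
        ring
      rw [e, abs_neg, abs_of_pos (by positivity)]
      exact hn
  · intro i hi
    set t : ℝ := (i : ℝ) / ((n : ℝ) + 1) with ht
    show dist (P a) (γ t) < 2 * μ ∧ ∀ w, 0 < τ.lam (γ t) w → w = a ∨ w = b
    constructor
    · by_cases h1 : 0 < τ.lam (γ t) a
      · have h2 : 0 < τ.lam (P a) a := by rw [hA.hP, if_pos rfl]; exact one_pos
        have h3 := τ.mesh a (P a) (γ t) h2 h1
        linarith
      · have h4 : cl t = 1 := by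
          rw [hγ, hwt, if_pos rfl] at h1
          have h5 : 0 ≤ cl t * (if a = b then (1 : ℝ) else 0) := by
            apply mul_nonneg (hcl0 t)
            split_ifs <;> norm_num
          have h6 := hcl1 t
          have h7 := hcl0 t
          push Not at h1
          linarith
        rw [hγ1 t h4]
        exact hA.distP h
    · intro w hw
      rw [hγ, hwt] at hw
      by_contra hcon
      push Not at hcon
      rw [if_neg hcon.1, if_neg hcon.2] at hw
      simp at hw

/-- a lift of a point at the same distance -/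
theorem S3b_lift (hc : IsCover Γ π) (x : X) (m : M) : ∃ y : X, π y = m ∧
    dist x y = dist (π x) m := by
  obtain ⟨y0, hy0⟩ := hc.surj m
  obtain ⟨γ, hγ⟩ := hc.lift x y0
  exact ⟨γ • y0, by rw [hc.inv, hy0], by rw [hγ, hy0]⟩

theorem edge_val [CompactSpace M] (hc : IsCover Γ π) {ι : ℝ} (hμι : 20 * μ < ι)
    (hι : ∀ γ : Γ, γ ≠ 1 → ∀ x : X, ι ≤ dist x (γ • x))
    (hD : IsCS D g) (hA : IsAux τ P B o v η) {z : V → V → ℝ} (h0 : ∀ a, z a a = 0)
    (ha : ∀ a b, z b a = -z a b) {E : X → ℝ}
    (hE : ∀ x y, dist x y < η → E y - E x = z (v (π x)) (v (π y)))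
    {a b c : V} (h : (a, b, c) ∈ D) {x y : X} (hx : π x = P a) (hy : π y = P b)
    (hxy : dist x y < 2 * μ) : E y - E x = z a b := by
  have hη := hA.η0
  have hημ := hA.ημ
  have hab : a ≠ b := hD.ne a b c h
  obtain ⟨n, m, hm0, hmn, hm, hm'⟩ := edge_chain hA h hη
  -- the primitive on the two vertices
  have hzF : ∀ u w : V, (u = a ∨ u = b) → (w = a ∨ w = b) →
      z u w = (if w = a then 0 else z a b) - (if u = a then 0 else z a b) := by
    rintro u w (rfl | rfl) (rfl | rfl)
    · simp [h0]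
    · rw [if_neg hab.symm, if_pos rfl]; ring
    · rw [if_neg hab.symm, if_pos rfl, ha]; ring
    · rw [h0]; ring
  have hvm : ∀ i ≤ n, v (m i) = a ∨ v (m i) = b := fun i hi =>
    (hm' i hi).2 _ (hA.hv (m i))
  have key : ∀ i ≤ n, ∃ xi : X, π xi = m i ∧ dist x xi < 2 * μ ∧
      E xi - E x = if v (m i) = a then 0 else z a b := by
    intro i
    induction i with
    | zero =>
      intro _
      refine ⟨x, by rw [hx, hm0], by rw [dist_self]; linarith, ?_⟩
      rw [hm0, hA.vP, if_pos rfl, sub_self]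
    | succ i ih =>
      intro hi
      have hi' : i ≤ n := (Nat.le_succ i).trans hi
      obtain ⟨xi, h1, h2, h3⟩ := ih hi'
      obtain ⟨xj, h4, h5⟩ := S3b_lift hc xi (m (i + 1))
      rw [h1] at h5
      have h6 : dist xi xj < η := by rw [h5]; exact hm i hi
      obtain ⟨yj, h7, h8⟩ := S3b_lift hc x (m (i + 1))
      rw [hx] at h8
      have h9 : dist x yj < 2 * μ := by rw [h8]; exact (hm' (i + 1) hi).1
      have h10 : xj = yj := by
        apply eq_of_near hc hι (h4.trans h7.symm)
        have t1 := dist_triangle xj xi yj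
        have t2 := dist_triangle xi x yj
        rw [dist_comm xj xi] at t1
        rw [dist_comm xi x] at t2
        linarith
      refine ⟨xj, h4, by rw [h10]; exact h9, ?_⟩
      have h11 := hE xi xj h6
      rw [h1, h4, hzF _ _ (hvm i hi') (hvm (i + 1) hi)] at h11
      linarith
  obtain ⟨xn, h1, h2, h3⟩ := key n le_rfl
  have h4 : xn = y := by
    apply eq_of_near hc hι (by rw [h1, hmn, hy])
    have t1 := dist_triangle xn x y
    rw [dist_comm xn x] at t1
    linarith
  rw [hmn, hA.vP, if_neg hab.symm, h4] at h3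
  exact h3

theorem edge_phi [CompactSpace M] (hc : IsCover Γ π) (hs : IsSec π s k) {ι : ℝ}
    (hμι : 20 * μ < ι) (hι : ∀ γ : Γ, γ ≠ 1 → ∀ x : X, ι ≤ dist x (γ • x))
    (hD : IsCS D g) (hA : IsAux τ P B o v η) {z : V → V → ℝ} (h0 : ∀ a, z a a = 0)
    (ha : ∀ a b, z b a = -z a b) {φ : Γ → ℝ} {E : X → ℝ} (hφ : Eqv φ E)
    (hE : ∀ x y, dist x y < η → E y - E x = z (v (π x)) (v (π y)))
    {a b c : V} (h : (a, b, c) ∈ D) :
    φ (k (P a) (P b)) = z a b + E (s (P a)) - E (s (P b)) := by
  have h1 : E (k (P a) (P b) • s (P b)) - E (s (P a)) = z a b := by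
    apply edge_val hc hμι hι hD hA h0 ha hE h (hs.sec _)
    · rw [hc.inv, hs.sec]
    · rw [hs.kdist]
      exact hA.distP h
  rw [hφ] at h1
  linarith

end F10G
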