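import Pool.Agent.Lib.MP_f10cd3_gt.G.Surf
import Pool.Agent.Lib.MP_f10cd3_gt.Main

/-! Row Z: assembly. -/

set_option autoImplicit false

namespace F10G

open MPf10cd3

/-- a far point, moved along a geodesic of `X` -/
theorem exists_far {Γ X M : Type} [Group Γ] [MetricSpace X] [MulAction Γ X] [MetricSpace M]
    [CompactSpace M] {π : X → M} (hc : IsCover Γ π) (hG : IsGeod X) {d : ℝ} (hd : 0 ≤ d)
    (h : 2 * d < Metric.diam (Set.univ : Set M)) (p : M) : ∃ q, dist p q = d := by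
  obtain ⟨q0, hq0⟩ : ∃ q0 : M, d ≤ dist p q0 := by
    by_contra hne
    push Not at hne
    have hle : Metric.diam (Set.univ : Set M) ≤ 2 * d := by
      refine Metric.diam_le_of_forall_dist_le (by linarith) fun x _ y _ => ?_
      have h1 := hne x
      have h2 := hne y
      have h3 := dist_triangle x p y
      rw [dist_comm x p] at h3
      linarith
    linarith
  obtain ⟨x, hx⟩ := hc.surj p
  obtain ⟨y, hy⟩ := hc.surj q0
  obtain ⟨γ, hγ⟩ := hc.lift x y
  rw [hx, hy] at hγ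
  obtain ⟨z, hz1, hz2⟩ := geo_pt hG x (γ • y) hd (by rw [hγ]; exact hq0)
  refine ⟨π z, le_antisymm ?_ ?_⟩
  · rw [← hx, ← hz1]
    exact hc.le x z
  · have h1 := hc.le z (γ • y)
    rw [hc.inv, hy, hz2, hγ] at h1
    have h2 := dist_triangle p (π z) q0
    linarith

/-- the two diameters -/
theorem f10Z_diam {M M' : Type} [MetricSpace M] [CompactSpace M] [MetricSpace M']
    [CompactSpace M'] {f : M → M'} {r : ℝ} (hr : 0 ≤ r)
    (hf : ∀ x y, |dist (f x) (f y) - dist x y| < r) :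
    Metric.diam (Set.univ : Set M) ≤ Metric.diam (Set.univ : Set M') + r := by
  refine Metric.diam_le_of_forall_dist_le (add_nonneg Metric.diam_nonneg hr) fun x _ y _ => ?_
  have h1 := abs_lt.1 (hf x y)
  have h2 : dist (f x) (f y) ≤ Metric.diam (Set.univ : Set M') :=
    Metric.dist_le_diam_of_mem isCompact_univ.isBounded (Set.mem_univ _) (Set.mem_univ _)
  linarith [h1.1]

/-- both Betti numbers: `exists_maps` (file Main), `exists_sec`, `exists_tr`, `exists_frm`,
`loc_of`, `core_le` in both directions, `surf_dim`; `δ = 2 ε`. -/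
theorem betti_eq {κ : ℝ} (hκ : 0 < κ) {g g' : ℕ} {M M' : Type} [MetricSpace M] [CompactSpace M]
    [Nonempty M] [MetricSpace M'] [CompactSpace M'] [Nonempty M'] (h : IsSurfaceNT κ g M)
    (h' : IsSurfaceNT κ g' M') {ε : ℝ} (hε : GromovHausdorff.ghDist M M' < ε)
    (h1 : 100000 * ε ≤ 1 / √κ) (h2 : 90000 * ε < Metric.diam (Set.univ : Set M))
    (h2' : 90000 * ε < Metric.diam (Set.univ : Set M')) : g = g' := by
  obtain ⟨hM, Γ, X, iG, iX, iA, π, hSC, hG, hc, hX⟩ := h
  obtain ⟨hM', Γ', X', iG', iX', iA', π', hSC', hG', hc', hX'⟩ := h'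
  have hε0 : 0 < ε := lt_of_le_of_lt (by
    show (0 : ℝ) ≤ dist _ _
    exact dist_nonneg) hε
  obtain ⟨f, f', hf, hf', hff⟩ := exists_maps hε
  set δ : ℝ := 2 * ε with hδdef
  have hδ : 0 < δ := by positivity
  have hff' : ∀ (a : M') (b : M), |dist a (f b) - dist (f' a) b| < δ := by
    intro a b
    rw [dist_comm a (f b), dist_comm (f' a) b, abs_sub_comm]
    exact hff b a
  have hsq : 0 < √κ := Real.sqrt_pos.2 hκ
  have hκδ : √κ * δ ≤ 1 / 50000 := by
    rw [le_div_iff₀ hsq] at h1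
    rw [hδdef]
    linarith
  have hfar : ∀ p : M, ∃ q : M, dist p q = 20000 * δ :=
    exists_far hc hG (by positivity) (by rw [hδdef]; linarith)
  have hfar' : ∀ p : M', ∃ q : M', dist p q = 20000 * δ :=
    exists_far hc' hG' (by positivity) (by rw [hδdef]; linarith)
  have hloc : Loc Γ π δ := loc_of hc hG hX hδ hfar hκδ
  have hloc' : Loc Γ' π' δ := loc_of hc' hG' hX' hδ hfar' hκδ
  obtain ⟨s, k, hs⟩ := exists_sec hc
  obtain ⟨s', k', hs'⟩ := exists_sec hc'
  have hη : 0 < δ / 10 := by positivity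
  obtain ⟨T, hT⟩ := exists_tr hG hc hc' hs' hη hf
  obtain ⟨T', hT'⟩ := exists_tr hG' hc' hc hs hη hf'
  obtain ⟨I, hI⟩ := exists_frm hG hc hM hδ
  obtain ⟨I', hI'⟩ := exists_frm hG' hc' hM' hδ
  obtain ⟨hfd, hdim⟩ := surf_dim hG hc hM
  obtain ⟨hfd', hdim'⟩ := surf_dim hG' hc' hM'
  have : Nonempty X := ⟨s (Classical.arbitrary M)⟩
  have : Nonempty X' := ⟨s' (Classical.arbitrary M')⟩
  have e1 := core_le hG hG' hc hs hc' hs' hδ hf hf' hff hT hT' hloc hloc' hI hI'
  have e2 := core_le hG' hG hc' hs' hc hs hδ hf' hf hff' hT' hT hloc' hloc hI' hI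
  rw [hdim, hdim'] at e1 e2
  omega

/-- `|diam M - diam M'| ≤ 2 ghDist` -/
theorem final_nt {κ : ℝ} (hκ : 0 < κ) {g g' : ℕ} (hg : g ≠ g') {M M' : Type} [MetricSpace M]
    [CompactSpace M] [Nonempty M] [MetricSpace M'] [CompactSpace M'] [Nonempty M']
    (h : IsSurfaceNT κ g M) (h' : IsSurfaceNT κ g' M') :
    min (1 / √κ) (max (Metric.diam (Set.univ : Set M)) (Metric.diam (Set.univ : Set M'))) ≤
      100000 * GromovHausdorff.ghDist M M' := by
  by_contra hne
  push Not at hne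
  set m : ℝ := min (1 / √κ) (max (Metric.diam (Set.univ : Set M))
    (Metric.diam (Set.univ : Set M'))) with hm
  have hgh : (0 : ℝ) ≤ GromovHausdorff.ghDist M M' := by
    show (0 : ℝ) ≤ dist _ _
    exact dist_nonneg
  set ε : ℝ := (GromovHausdorff.ghDist M M' + m / 100000) / 2 with hεdef
  have hε : GromovHausdorff.ghDist M M' < ε := by rw [hεdef]; linarith
  have hεm : 100000 * ε < m := by rw [hεdef]; linarith
  have hε0 : 0 < ε := by linarith
  have h1 : 100000 * ε ≤ 1 / √κ := (hεm.le).trans (min_le_left _ _)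
  have h3 : 100000 * ε < max (Metric.diam (Set.univ : Set M)) (Metric.diam (Set.univ : Set M')) :=
    lt_of_lt_of_le hεm (min_le_right _ _)
  obtain ⟨f, f', hf, hf', -⟩ := exists_maps hε
  have d1 := f10Z_diam (by linarith) hf
  have d2 := f10Z_diam (by linarith) hf'
  apply hg
  rcases lt_max_iff.1 h3 with h4 | h4
  · exact betti_eq hκ h h' hε h1 (by linarith) (by linarith)
  · exact betti_eq hκ h h' hε h1 (by linarith) (by linarith)

theorem final {κ : ℝ} (hκ : 0 < κ) {g g' : ℕ} (hg : g ≠ g') {M M' : Type} [MetricSpace M]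
    [CompactSpace M] [Nonempty M] [MetricSpace M'] [CompactSpace M'] [Nonempty M']
    (h : IsSurfaceCurvGe κ g M) (h' : IsSurfaceCurvGe κ g' M') :
    min (1 / √κ) (max (Metric.diam (Set.univ : Set M)) (Metric.diam (Set.univ : Set M'))) ≤
      100000 * GromovHausdorff.ghDist M M' := by
  obtain ⟨hM, Γ, X, iG, iX, iA, π, hSC, hG, hc, hX⟩ := h
  obtain ⟨hM', Γ', X', iG', iX', iA', π', hSC', hG', hc', hX'⟩ := h'
  exact final_nt hκ hg ⟨hM, Γ, X, iG, iX, iA, π, csc_of_sc hSC hG, hG, hc,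
    noThree_of_curvGe hκ hX⟩
    ⟨hM', Γ', X', iG', iX', iA', π', csc_of_sc hSC' hG', hG', hc', noThree_of_curvGe hκ hX'⟩

end F10G
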