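import Pool.Agent.Lib.MP_f10cd3_gt.G.Kap
import Pool.Agent.Lib.MP_f10cd3_gt.G.Vert

/-! Row S4a: the intersection form `I φ ψ = 1/2 ∑ φ(k (P a) (P b)) ψ(k (B t) (B (o t)))`, the sum
over `t = (a, b, c) ∈ D`. -/

set_option autoImplicit false

namespace F10G

open MPf10cd3

variable {V : Type} [Fintype V] [DecidableEq V] {D : Finset (V × V × V)} {g : ℕ}
  {Γ X M : Type} [Group Γ] [MetricSpace X] [MulAction Γ X] [MetricSpace M] {π : X → M} {μ : ℝ}
  {s : M → X} {k : M → M → Γ}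
  {τ : Triang D M μ} {P : V → M} {B : V × V × V → M} {o : V × V × V → V × V × V}
  {v : M → V} {η : ℝ}

theorem exists_form (D : Finset (V × V × V)) (k : M → M → Γ) (P : V → M) (B : V × V × V → M)
    (o : V × V × V → V × V × V) : ∃ I : (Γ → ℝ) →ₗ[ℝ] (Γ → ℝ) →ₗ[ℝ] ℝ, ∀ φ ψ, I φ ψ =
      (∑ t ∈ D, φ (k (P t.1) (P t.2.1)) * ψ (k (B t) (B (o t)))) / 2 := by
  refine ⟨LinearMap.mk₂ ℝ (fun φ ψ : Γ → ℝ =>
    (∑ t ∈ D, φ (k (P t.1) (P t.2.1)) * ψ (k (B t) (B (o t)))) / 2) ?_ ?_ ?_ ?_, fun φ ψ => rfl⟩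
  · intro a b c
    rw [← add_div, ← Finset.sum_add_distrib]
    congr 1
    refine Finset.sum_congr rfl fun t _ => ?_
    simp only [Pi.add_apply]
    ring
  · intro r a c
    rw [smul_eq_mul, ← mul_div_assoc, Finset.mul_sum]
    congr 1
    refine Finset.sum_congr rfl fun t _ => ?_
    simp only [Pi.smul_apply, smul_eq_mul]
    ring
  · intro a b c
    rw [← add_div, ← Finset.sum_add_distrib]
    congr 1
    refine Finset.sum_congr rfl fun t _ => ?_
    simp only [Pi.add_apply]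
    ring
  · intro r a c
    rw [smul_eq_mul, ← mul_div_assoc, Finset.mul_sum]
    congr 1
    refine Finset.sum_congr rfl fun t _ => ?_
    simp only [Pi.smul_apply, smul_eq_mul]
    ring

/-- reindexing a sum over `D` by the opposite dart -/
private theorem S4a_sum_o (hD : IsCS D g) (hA : IsAux τ P B o v η) (F : V × V × V → ℝ) :
    ∑ t ∈ D, F (o t) = ∑ t ∈ D, F t := by
  refine Finset.sum_bij (fun t _ => o t) ?_ ?_ ?_ ?_
  · intro t ht
    exact (hA.oo hD ht).1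
  · intro t ht t' ht' h
    rw [← (hA.oo hD ht).2, ← (hA.oo hD ht').2, h]
  · intro t ht
    exact ⟨o t, (hA.oo hD ht).1, (hA.oo hD ht).2⟩
  · intro t _
    rfl

/-- reindexing a sum over `D` by the rotation -/
private theorem S4a_sum_rot (hD : IsCS D g) (F : V × V × V → ℝ) :
    ∑ t ∈ D, F (t.2.1, t.2.2, t.1) = ∑ t ∈ D, F t := by
  refine Finset.sum_bij (fun t _ => (t.2.1, t.2.2, t.1)) ?_ ?_ ?_ ?_
  · rintro ⟨a, b, c⟩ ht
    exact hD.rot a b c ht
  · rintro ⟨a, b, c⟩ _ ⟨a', b', c'⟩ _ h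
    simp only [Prod.mk.injEq] at h ⊢
    exact ⟨h.2.2, h.1, h.2.1⟩
  · rintro ⟨a, b, c⟩ ht
    exact ⟨(c, a, b), hD.rot b c a (hD.rot a b c ht), rfl⟩
  · intro t _
    rfl

/-- E-a: sum over `D` of a closed `e` times the differences of a function of the triangles:
reindex by `o`, then by the rotation `(a, b, c) ↦ (b, c, a)` -/
theorem sum_closed (hD : IsCS D g) (hA : IsAux τ P B o v η) {e : V → V → ℝ}
    (he : ∀ a b c, (a, b, c) ∈ D → e b a = -e a b)
    (hz : ∀ a b c, (a, b, c) ∈ D → e a b + e b c + e c a = 0) (G : M → ℝ) :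
    ∑ t ∈ D, e t.1 t.2.1 * (G (B (o t)) - G (B t)) = 0 := by
  have h1 : ∑ t ∈ D, e t.1 t.2.1 * G (B (o t)) = -∑ t ∈ D, e t.1 t.2.1 * G (B t) := by
    have h2 := S4a_sum_o hD hA (fun t => e t.1 t.2.1 * G (B (o t)))
    rw [← h2, ← Finset.sum_neg_distrib]
    refine Finset.sum_congr rfl ?_
    rintro ⟨a, b, c⟩ ht
    obtain ⟨d, hd, hd'⟩ := hA.ho a b c ht
    have h3 := (hA.oo hD ht).2
    show e (o (a, b, c)).1 (o (a, b, c)).2.1 * G (B (o (o (a, b, c)))) = -(e a b * G (B (a, b, c)))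
    rw [h3, hd]
    show e b a * G (B (a, b, c)) = -(e a b * G (B (a, b, c)))
    rw [he a b c ht]
    ring
  have h4 : ∑ t ∈ D, e t.2.1 t.2.2 * G (B t) = ∑ t ∈ D, e t.1 t.2.1 * G (B t) := by
    rw [← S4a_sum_rot hD (fun t => e t.1 t.2.1 * G (B t))]
    refine Finset.sum_congr rfl ?_
    rintro ⟨a, b, c⟩ ht
    show e b c * G (B (a, b, c)) = e b c * G (B (b, c, a))
    rw [hA.rotB hD ht]
  have h5 : ∑ t ∈ D, e t.2.2 t.1 * G (B t) = ∑ t ∈ D, e t.1 t.2.1 * G (B t) := by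
    rw [← h4, ← S4a_sum_rot hD (fun t => e t.2.1 t.2.2 * G (B t))]
    refine Finset.sum_congr rfl ?_
    rintro ⟨a, b, c⟩ ht
    show e c a * G (B (a, b, c)) = e c a * G (B (b, c, a))
    rw [hA.rotB hD ht]
  have h6 : ∑ t ∈ D, e t.1 t.2.1 * G (B t) + ∑ t ∈ D, e t.2.1 t.2.2 * G (B t) +
      ∑ t ∈ D, e t.2.2 t.1 * G (B t) = 0 := by
    rw [← Finset.sum_add_distrib, ← Finset.sum_add_distrib]
    refine Finset.sum_eq_zero ?_
    rintro ⟨a, b, c⟩ ht
    have h7 := hz a b c ht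
    show e a b * G (B (a, b, c)) + e b c * G (B (a, b, c)) + e c a * G (B (a, b, c)) = 0
    linear_combination G (B (a, b, c)) * h7
  have h8 : ∑ t ∈ D, e t.1 t.2.1 * (G (B (o t)) - G (B t)) =
      ∑ t ∈ D, e t.1 t.2.1 * G (B (o t)) - ∑ t ∈ D, e t.1 t.2.1 * G (B t) := by
    rw [← Finset.sum_sub_distrib]
    exact Finset.sum_congr rfl fun t _ => by ring
  rw [h8, h1]
  linarith

/-- `ψ (k a b)` is additive on small triangles -/
theorem psi_coc (hc : IsCover Γ π) (hs : IsSec π s k) {ι : ℝ} (hμι : 20 * μ < ι)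
    (hι : ∀ γ : Γ, γ ≠ 1 → ∀ x : X, ι ≤ dist x (γ • x)) {ψ : Γ → ℝ} (hψ : ψ ∈ Hm Γ) :
    ∀ x y z : M, dist x y < 4 * μ → dist y z < 4 * μ → dist x z < 4 * μ →
      ψ (k x y) + ψ (k y z) = ψ (k x z) := by
  intro x y z h1 h2 h3
  have h0 := dist_nonneg (x := x) (y := y)
  have h4 := k_mul hc hs hι (a := x) (b := y) (c := z) (by linarith)
  rw [← h4]
  exact (hψ _ _).symm

/-- the vertex sum vanishes -/
theorem S4b_half (hD : IsCS D g) (hA : IsAux τ P B o v η) (h : V → ℝ) {c : M → M → ℝ}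
    (hc : ∀ x y z, dist x y < 4 * μ → dist y z < 4 * μ → dist x z < 4 * μ →
      c x y + c y z = c x z) :
    ∑ t ∈ D, h t.1 * c (B t) (B (o t)) = 0 := by
  have hμ : 0 < μ := lt_trans hA.η0 hA.ημ
  have e1 : ∑ t ∈ D, h t.1 * c (B t) (B (o t)) =
      ∑ t ∈ D, (h t.1 * c (P t.1) (B (o t)) - h t.1 * c (P t.1) (B t)) := by
    refine Finset.sum_congr rfl ?_
    rintro ⟨a, b, d⟩ ht
    obtain ⟨d', ho, hd'⟩ := hA.ho a b d ht
    have n1 := (hA.nearB ht).1
    have n2 := (hA.nearB hd').2.1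
    have n3 := hA.distB ht
    rw [ho] at n3
    have e := hc (P a) (B (a, b, d)) (B (b, a, d'))
      (by rw [dist_comm]; linarith) (by linarith) (by rw [dist_comm]; linarith)
    show h a * c (B (a, b, d)) (B (o (a, b, d))) =
      h a * c (P a) (B (o (a, b, d))) - h a * c (P a) (B (a, b, d))
    rw [ho]
    linear_combination h a * e
  rw [e1, Finset.sum_sub_distrib, sub_eq_zero]
  refine Finset.sum_nbij' (fun t => ((o t).2.1, (o t).2.2, (o t).1))
    (fun t => o (t.2.2, t.1, t.2.1)) ?_ ?_ ?_ ?_ ?_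
  · intro t ht
    have := (hA.oo hD ht).1
    exact hD.rot _ _ _ this
  · intro t ht
    have h1 := hD.rot _ _ _ (hD.rot t.1 t.2.1 t.2.2 ht)
    exact (hA.oo hD h1).1
  · intro t ht
    exact (hA.oo hD ht).2
  · intro t ht
    have h1 := hD.rot _ _ _ (hD.rot t.1 t.2.1 t.2.2 ht)
    have h2 := (hA.oo hD h1).2
    show ((o (o (t.2.2, t.1, t.2.1))).2.1, (o (o (t.2.2, t.1, t.2.1))).2.2,
      (o (o (t.2.2, t.1, t.2.1))).1) = t
    rw [h2]
  · rintro ⟨a, b, d⟩ ht
    obtain ⟨d', ho, hd'⟩ := hA.ho a b d ht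
    have hr := hA.rotB hD hd'
    show h a * c (P a) (B (o (a, b, d))) =
      h (o (a, b, d)).2.1 * c (P (o (a, b, d)).2.1)
        (B ((o (a, b, d)).2.1, (o (a, b, d)).2.2, (o (a, b, d)).1))
    rw [ho]
    show h a * c (P a) (B (b, a, d')) = h a * c (P a) (B (a, d', b))
    rw [hr]

/-- E-b: sum over `D` of `(h b - h a) c(B t, B (o t))` for a function `c` on pairs which is
additive on triangles of diameter `< 4 μ`: reindex by `o`; then with `w t = c (P a) (B t)`,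
`c(B t, B (o t)) = w (ρ (o t)) - w t` and `t ↦ ρ (o t)` is a bijection of `D` which preserves the
first vertex (`ρ (a, b, c) = (b, c, a)` applied to `o t = (b, a, d)` gives `(a, d, b)`) -/
theorem sum_exact (hD : IsCS D g) (hA : IsAux τ P B o v η) (h : V → ℝ) {c : M → M → ℝ}
    (hc : ∀ x y z, dist x y < 4 * μ → dist y z < 4 * μ → dist x z < 4 * μ →
      c x y + c y z = c x z) :
    ∑ t ∈ D, (h t.2.1 - h t.1) * c (B t) (B (o t)) = 0 := by
  have hμ : 0 < μ := lt_trans hA.η0 hA.ημ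
  have e0 := S4b_half hD hA h hc
  have e1 : ∑ t ∈ D, h t.2.1 * c (B t) (B (o t)) =
      ∑ t ∈ D, -(h t.1 * c (B t) (B (o t))) := by
    refine Finset.sum_nbij' o o ?_ ?_ ?_ ?_ ?_
    · intro t ht
      exact (hA.oo hD ht).1
    · intro t ht
      exact (hA.oo hD ht).1
    · intro t ht
      exact (hA.oo hD ht).2
    · intro t ht
      exact (hA.oo hD ht).2
    · rintro ⟨a, b, d⟩ ht
      obtain ⟨d', ho, hd'⟩ := hA.ho a b d ht
      have hoo := (hA.oo hD ht).2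
      have n3 := hA.distB ht
      have z1 := hc (B (a, b, d)) (B (a, b, d)) (B (a, b, d))
        (by rw [dist_self]; linarith) (by rw [dist_self]; linarith) (by rw [dist_self]; linarith)
      have z2 := hc (B (a, b, d)) (B (o (a, b, d))) (B (a, b, d))
        (by linarith) (by rw [dist_comm]; linarith) (by rw [dist_self]; linarith)
      show h b * c (B (a, b, d)) (B (o (a, b, d))) =
        -(h (o (a, b, d)).1 * c (B (o (a, b, d))) (B (o (o (a, b, d)))))
      rw [hoo]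
      have hb : (o (a, b, d)).1 = b := by rw [ho]
      rw [hb]
      linear_combination h b * z2 + h b * z1
  have e2 : ∑ t ∈ D, (h t.2.1 - h t.1) * c (B t) (B (o t)) =
      ∑ t ∈ D, h t.2.1 * c (B t) (B (o t)) - ∑ t ∈ D, h t.1 * c (B t) (B (o t)) := by
    rw [← Finset.sum_sub_distrib]
    refine Finset.sum_congr rfl ?_
    intro t _
    ring
  rw [e2, e1, Finset.sum_neg_distrib, e0]
  ring

end F10G
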