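import Pool.Agent.Lib.MP_f10cd3_gt.G.Form

/-! Row S5: a class supported in a ball is orthogonal to a class which vanishes on the loops in a
slightly larger ball. -/

set_option autoImplicit false

namespace F10G

open MPf10cd3

variable {V : Type} [Fintype V] [DecidableEq V] {D : Finset (V × V × V)} {g : ℕ}
  {Γ X M : Type} [Group Γ] [MetricSpace X] [MulAction Γ X] [MetricSpace M] {π : X → M} {μ : ℝ}
  {s : M → X} {k : M → M → Γ}
  {τ : Triang D M μ} {P : V → M} {B : V × V × V → M} {o : V × V × V → V × V × V}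
  {v : M → V} {η : ℝ}

/-- the differences of `E` over short edges far from `p` vanish -/
private theorem s5_far (hG : IsGeod X) (hc : IsCover Γ π) (hs : IsSec π s k) {p : M} {r : ℝ}
    {φ : Γ → ℝ} {E : X → ℝ} (hE : Eqv φ E) {η' : ℝ} (hη' : 0 < η')
    (hS : ∀ y z : X, dist y z < η' → r ≤ dist p (π y) → r ≤ dist p (π z) → E y = E z)
    {m m' : M} {ρ : ℝ} (hd : dist m m' < ρ) (hp : r + ρ ≤ dist p m) :
    φ (k m m') + E (s m') - E (s m) = 0 := by
  have h1 : E (s m) = E (k m m' • s m') := by
    refine const_along hG hη' (fun z w hz hw hzw => hS z w hzw ?_ ?_)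
    · have h2 : dist (s m) (k m m' • s m') = dist m m' := hs.kdist m m'
      have h3 := hc.le (s m) z
      rw [hs.sec] at h3
      have h4 := dist_triangle p (π z) m
      rw [dist_comm (π z) m] at h4
      have h5 : 0 ≤ dist z (k m m' • s m') := dist_nonneg
      linarith
    · have h2 : dist (s m) (k m m' • s m') = dist m m' := hs.kdist m m'
      have h3 := hc.le (s m) w
      rw [hs.sec] at h3
      have h4 := dist_triangle p (π w) m
      rw [dist_comm (π w) m] at h4
      have h5 : 0 ≤ dist w (k m m' • s m') := dist_nonneg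
      linarith
  have h6 := hE (k m m') (s m')
  linarith

/-- `ψ (k m m')` is the difference of `ψ (k p m)` near `p` -/
private theorem s5_near (hc : IsCover Γ π) (hs : IsSec π s k) {p : M} {t : ℝ} {ψ : Γ → ℝ}
    (hψ : ψ ∈ Hm Γ) (hV : VanAt π p (2 * t) ψ) {m m' : M}
    (h : dist p m + dist m m' + dist p m' < 2 * t) :
    ψ (k m m') = ψ (k p m') - ψ (k p m) := by
  have hmul : ∀ a b : Γ, ψ (a * b) = ψ a + ψ b := hψ
  have hone : ψ 1 = 0 := by
    have := hmul 1 1
    rw [mul_one] at this
    linarith
  have hinv : ψ (k p m')⁻¹ = -ψ (k p m') := by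
    have := hmul (k p m') (k p m')⁻¹
    rw [mul_inv_cancel, hone] at this
    linarith
  have h0 : ψ (k p m * k m m' * (k p m')⁻¹) = 0 := by
    refine hV (s p) (hs.sec p) _ ?_
    have e1 : dist (s p) (k p m • s m) = dist p m := hs.kdist p m
    have e2 : dist (k p m • s m) ((k p m * k m m') • s m') = dist m m' := by
      rw [mul_smul, hc.isom, hs.kdist]
    have e3 : dist ((k p m * k m m') • s m') ((k p m * k m m' * (k p m')⁻¹) • s p) = dist p m' := by
      rw [mul_smul _ (k p m')⁻¹ (s p), hc.isom, ← hc.isom (k p m') (s m') ((k p m')⁻¹ • s p),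
        smul_inv_smul, dist_comm, hs.kdist]
    have e4 := dist_triangle4 (s p) (k p m • s m) ((k p m * k m m') • s m')
      ((k p m * k m m' * (k p m')⁻¹) • s p)
    rw [e1, e2, e3] at e4
    linarith
  rw [hmul, hmul, hinv] at h0
  linarith

/-- `e a b = φ (k (P a) (P b)) + E (s (P b)) - E (s (P a)) = E (k • s (P b)) - E (s (P a))` is closed
and vanishes if `d(p, P a) ≥ r + 2μ` (geodesic in `X`, `const_along`); by `sum_exact` it may replace
`φ (k (P a) (P b))`.  On the other edges `ψ (k (B t) (B (o t))) = G (B (o t)) - G (B t)` with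
`G m = ψ (k p m)`, because `k p m * k m m' * (k p m')⁻¹` moves `s p` by less than `2 t`.
`sum_closed`. -/
theorem form_t1 (hG : IsGeod X) (hc : IsCover Γ π) (hs : IsSec π s k) {ι : ℝ}
    (hμ : 0 < μ) (hμι : 20 * μ < ι) (hι : ∀ γ : Γ, γ ≠ 1 → ∀ x : X, ι ≤ dist x (γ • x))
    (hD : IsCS D g) (hA : IsAux τ P B o v η) {p : M} {r t : ℝ} {φ ψ : Γ → ℝ} (hφ : φ ∈ Hm Γ)
    (hψ : ψ ∈ Hm Γ) (hr : 0 < r) (hrt : r + 10 * μ ≤ t) (hS : Sup π p r φ)
    (hV : VanAt π p (2 * t) ψ) :
    ∑ t ∈ D, φ (k (P t.1) (P t.2.1)) * ψ (k (B t) (B (o t))) = 0 := by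
  obtain ⟨E, hE, η', hη', hS⟩ := hS
  have hcocφ := psi_coc (μ := μ) hc hs hμι hι hφ
  have hcocψ := psi_coc (μ := μ) hc hs hμι hι hψ
  set h : V → ℝ := fun a => E (s (P a)) with hh
  set e : V → V → ℝ := fun a b => φ (k (P a) (P b)) + E (s (P b)) - E (s (P a)) with he
  set G : M → ℝ := fun m => ψ (k p m) with hGd
  -- antisymmetry
  have hself : ∀ x : M, φ (k x x) = 0 := by
    intro x
    have h0 : dist x x < 4 * μ := by rw [dist_self]; linarith
    have := hcocφ x x x h0 h0 h0
    linarith
  have hanti : ∀ x y : M, dist x y < 4 * μ → φ (k y x) = -φ (k x y) := by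
    intro x y hxy
    have h0 : dist x x < 4 * μ := by rw [dist_self]; linarith
    have h1 : dist y x < 4 * μ := by rw [dist_comm]; exact hxy
    have := hcocφ x y x hxy h1 h0
    rw [hself] at this
    linarith
  have hs1 := sum_exact hD hA h hcocψ
  have hs2 : ∑ t ∈ D, e t.1 t.2.1 * (G (B (o t)) - G (B t)) = 0 := by
    refine sum_closed hD hA ?_ ?_ G
    · intro a b c habc
      have h1 := hA.distP habc
      have h2 := hanti (P a) (P b) (by linarith)
      simp only [he]
      linarith
    · intro a b c habc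
      have hbca := hD.rot a b c habc
      have hcab := hD.rot b c a hbca
      have h1 := hA.distP habc
      have h2 := hA.distP hbca
      have h3 := hA.distP hcab
      have h4 : dist (P a) (P c) < 4 * μ := by rw [dist_comm]; linarith
      have h5 := hcocφ (P a) (P b) (P c) (by linarith) (by linarith) h4
      have h6 := hanti (P a) (P c) h4
      simp only [he]
      linarith
  have hkey : ∀ t ∈ D, φ (k (P t.1) (P t.2.1)) * ψ (k (B t) (B (o t))) =
      e t.1 t.2.1 * (G (B (o t)) - G (B t)) - (h t.2.1 - h t.1) * ψ (k (B t) (B (o t))) := by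
    rintro ⟨a, b, c⟩ habc
    obtain ⟨d, hod, hbad⟩ := hA.ho a b c habc
    have hdP := hA.distP habc
    have hdB := hA.distB habc
    have h1 := (hA.nearB habc).1
    have h2 := (hA.nearB hbad).2.1
    by_cases hfar : r + 2 * μ ≤ dist p (P a)
    · have h3 := s5_far hG hc hs hE hη' hS hdP hfar
      have h4 : e a b = 0 := h3
      have h5 : φ (k (P a) (P b)) = -(h b - h a) := by
        simp only [hh]
        linarith
      show φ (k (P a) (P b)) * ψ (k (B (a, b, c)) (B (o (a, b, c)))) =
        e a b * (G (B (o (a, b, c))) - G (B (a, b, c))) -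
          (h b - h a) * ψ (k (B (a, b, c)) (B (o (a, b, c))))
      rw [h4, h5]
      ring
    · push Not at hfar
      have h3 : dist p (B (a, b, c)) < r + 3 * μ := by
        have := dist_triangle p (P a) (B (a, b, c))
        rw [dist_comm (P a)] at this
        linarith
      have h4 : dist p (B (o (a, b, c))) < r + 3 * μ := by
        rw [hod]
        have := dist_triangle p (P a) (B (b, a, d))
        rw [dist_comm (P a)] at this
        linarith
      have h5 := s5_near hc hs hψ hV (m := B (a, b, c)) (m' := B (o (a, b, c))) (by linarith)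
      show φ (k (P a) (P b)) * ψ (k (B (a, b, c)) (B (o (a, b, c)))) =
        e a b * (G (B (o (a, b, c))) - G (B (a, b, c))) -
          (h b - h a) * ψ (k (B (a, b, c)) (B (o (a, b, c))))
      simp only [he, hh, hGd]
      rw [h5]
      ring
  rw [Finset.sum_congr rfl hkey, Finset.sum_sub_distrib, hs2, hs1, sub_zero]

end F10G
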