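import Pool.Agent.Lib.MP_f10cd3_gt.G.Defs

/-! Row G1 (first part): chains on geodesics; a function which is locally constant at a fixed scale along a
geodesic is constant; local primitives. `IsGeod` : geodesics are parametrised proportionally to arc
length on `[0, 1]`. -/

set_option autoImplicit false

namespace F10G

open MPf10cd3

variable {Γ X : Type} [Group Γ] [MetricSpace X] [MulAction Γ X]

theorem geo_pt (hG : IsGeod X) (x y : X) {t : ℝ} (h0 : 0 ≤ t) (h1 : t ≤ dist x y) :
    ∃ z, dist x z = t ∧ dist z y = dist x y - t := by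
  rcases eq_or_ne x y with rfl | hne
  · rw [dist_self] at h1
    have ht : t = 0 := le_antisymm h1 h0
    exact ⟨x, by rw [dist_self, ht], by rw [dist_self, ht, sub_zero]⟩
  · obtain ⟨γ, g0, g1, hγ⟩ := hG x y
    have hd : 0 < dist x y := dist_pos.mpr hne
    have hm : t / dist x y ∈ Set.Icc (0 : ℝ) 1 := ⟨div_nonneg h0 hd.le, (div_le_one hd).mpr h1⟩
    refine ⟨γ (t / dist x y), ?_, ?_⟩
    · have h2 := hγ 0 ⟨le_rfl, zero_le_one⟩ _ hm
      rw [g0, zero_sub, abs_neg, abs_of_nonneg hm.1] at h2
      rw [h2]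
      field_simp
    · have h2 := hγ _ hm 1 ⟨zero_le_one, le_rfl⟩
      rw [g1, abs_sub_comm, abs_of_nonneg (by linarith [hm.2])] at h2
      rw [h2]
      field_simp

/-- equally spaced points on a geodesic -/
theorem chain_n (hG : IsGeod X) (x y : X) {n : ℕ} (hn : 0 < n) :
    ∃ z : ℕ → X, z 0 = x ∧ z n = y ∧ (∀ i < n, dist (z i) (z (i + 1)) = dist x y / n) ∧
      ∀ i ≤ n, dist x (z i) + dist (z i) y = dist x y := by
  obtain ⟨γ, g0, g1, hγ⟩ := hG x y
  have hn' : (0 : ℝ) < n := Nat.cast_pos.mpr hn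
  have hm : ∀ i : ℕ, i ≤ n → ((i : ℝ) / n) ∈ Set.Icc (0 : ℝ) 1 := fun i hi =>
    ⟨by positivity, (div_le_one hn').mpr (Nat.cast_le.mpr hi)⟩
  refine ⟨fun i => γ ((i : ℝ) / n), ?_, ?_, fun i hi => ?_, fun i hi => ?_⟩
  · simp only [Nat.cast_zero, zero_div, g0]
  · simp only [div_self hn'.ne', g1]
  · have h2 := hγ _ (hm i hi.le) _ (hm (i + 1) hi)
    rw [h2]
    have h3 : (i : ℝ) / n - ((i + 1 : ℕ) : ℝ) / n = -(1 / n) := by
      push_cast
      ring
    rw [h3, abs_neg, abs_of_pos (by positivity)]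
    ring
  · have h2 := hγ 0 ⟨le_rfl, zero_le_one⟩ _ (hm i hi)
    have h3 := hγ _ (hm i hi) 1 ⟨zero_le_one, le_rfl⟩
    rw [g0, zero_sub, abs_neg, abs_of_nonneg (hm i hi).1] at h2
    rw [g1, abs_sub_comm, abs_of_nonneg (by linarith [(hm i hi).2])] at h3
    simp only
    rw [h2, h3]
    ring

/-- a chain with small steps on a geodesic -/
theorem chain_small (hG : IsGeod X) (x y : X) {η : ℝ} (hη : 0 < η) :
    ∃ (n : ℕ) (z : ℕ → X), 0 < n ∧ z 0 = x ∧ z n = y ∧ (∀ i < n, dist (z i) (z (i + 1)) < η) ∧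
      ∀ i ≤ n, dist x (z i) + dist (z i) y = dist x y := by
  obtain ⟨n, hn⟩ := exists_nat_gt (dist x y / η)
  have hn0 : (0 : ℝ) < n := lt_of_le_of_lt (div_nonneg dist_nonneg hη.le) hn
  have hn1 : 0 < n := Nat.cast_pos.mp hn0
  obtain ⟨z, h0, h1, h2, h3⟩ := chain_n hG x y hn1
  refine ⟨n, z, hn1, h0, h1, fun i hi => ?_, h3⟩
  rw [h2 i hi, div_lt_iff₀ hn0]
  rw [div_lt_iff₀ hη] at hn
  linarith

/-- a function which is locally constant on the geodesics between `x` and `y` -/
theorem const_along (hG : IsGeod X) {E : X → ℝ} {η : ℝ} (hη : 0 < η) {x y : X}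
    (hE : ∀ z w, dist x z + dist z y = dist x y → dist x w + dist w y = dist x y → dist z w < η →
      E z = E w) : E x = E y := by
  obtain ⟨n, z, _, h0, h1, h2, h3⟩ := chain_small hG x y hη
  have key : ∀ i, i ≤ n → E x = E (z i) := by
    intro i
    induction i with
    | zero => intro _; rw [h0]
    | succ i ih =>
      intro hi
      rw [ih (by omega)]
      exact hE _ _ (h3 i (by omega)) (h3 (i + 1) hi) (h2 i (by omega))
  rw [← h1]
  exact key n le_rfl

/-- a primitive of a cocycle at a small scale is a primitive at the full scale -/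
theorem extend_scale (hG : IsGeod X) {c : X → X → ℝ} {E : X → ℝ} {η η' : ℝ} (hη' : 0 < η')
    (hc : ∀ x y z, dist x y < η → dist y z < η → dist x z < η → c x y + c y z = c x z)
    (hE : ∀ x y, dist x y < η' → E y - E x = c x y) :
    ∀ x y, dist x y < η → E y - E x = c x y := by
  intro x y hxy
  have hη : 0 < η := lt_of_le_of_lt dist_nonneg hxy
  obtain ⟨n, z, _, h0, h1, h2, h3⟩ := chain_small hG x y (lt_min hη hη')
  have hle : ∀ i, i ≤ n → dist x (z i) < η := by
    intro i hi
    have h4 := h3 i hi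
    have h5 : 0 ≤ dist (z i) y := dist_nonneg
    linarith
  have hcx : c x x = 0 := by
    have h4 := hc x x x (by rw [dist_self]; exact hη) (by rw [dist_self]; exact hη) (by rw [dist_self]; exact hη)
    linarith
  have key : ∀ i, i ≤ n → E (z i) - E x = c x (z i) := by
    intro i
    induction i with
    | zero => intro _; rw [h0, hcx, sub_self]
    | succ i ih =>
      intro hi
      have h4 := ih (by omega)
      have h5 := h2 i (by omega)
      have h6 := hE (z i) (z (i + 1)) (lt_of_lt_of_le h5 (min_le_right _ _))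
      have h7 := hc x (z i) (z (i + 1)) (hle i (by omega)) (lt_of_lt_of_le h5 (min_le_left _ _)) (hle (i + 1) hi)
      linarith
  rw [← h1]
  exact key n le_rfl

/-- a cocycle at scale `η` which is invariant under `Γ` has a primitive, and the primitive is
equivariant with respect to some homomorphism (`coarseSC_of_simplyConnected`) -/
theorem exists_primitive [CSC X] (hG : IsGeod X)
    (hi : ∀ (γ : Γ) (x y : X), dist (γ • x) (γ • y) = dist x y) {c : X → X → ℝ} {η : ℝ}
    (hη : 0 < η)
    (hc : ∀ x y z, dist x y < η → dist y z < η → dist x z < η → c x y + c y z = c x z)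
    (hcΓ : ∀ (γ : Γ) (x y : X), c (γ • x) (γ • y) = c x y) :
    ∃ (φ : Γ → ℝ) (E : X → ℝ), φ ∈ Hm Γ ∧ Eqv φ E ∧
      ∀ x y, dist x y < η → E y - E x = c x y := by
  obtain ⟨E, η', hη', hE'⟩ := (CSC.csc : CoarseSC X) c η hη hc
  have hE := extend_scale hG hη' hc hE'
  obtain ⟨x0⟩ : Nonempty X := inferInstance
  have key : ∀ (γ : Γ) (x : X), E (γ • x) - E x = E (γ • x0) - E x0 := by
    intro γ x
    refine const_along hG (E := fun z => E (γ • z) - E z) (x := x) (y := x0) hη ?_
    intro z w _ _ hzw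
    have h1 := hE z w hzw
    have h2 := hE (γ • z) (γ • w) (by rw [hi]; exact hzw)
    rw [hcΓ] at h2
    show E (γ • z) - E z = E (γ • w) - E w
    linarith
  refine ⟨fun γ => E (γ • x0) - E x0, E, ?_, ?_, hE⟩
  · intro a b
    show E ((a * b) • x0) - E x0 = (E (a • x0) - E x0) + (E (b • x0) - E x0)
    have h1 := key a (b • x0)
    rw [mul_smul]
    linarith
  · intro γ x
    show E (γ • x) = E x + (E (γ • x0) - E x0)
    have h1 := key γ x
    linarith

/-- two equivariant functions with the same local differences -/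
theorem eqv_uniq [Nonempty X] (hG : IsGeod X) {φ φ' : Γ → ℝ} {E E' : X → ℝ} (hE : Eqv φ E)
    (hE' : Eqv φ' E') {η : ℝ} (hη : 0 < η)
    (h : ∀ x y, dist x y < η → E y - E x = E' y - E' x) : φ = φ' := by
  obtain ⟨x0⟩ : Nonempty X := inferInstance
  funext γ
  have h1 : (fun z => E z - E' z) (γ • x0) = (fun z => E z - E' z) x0 := by
    refine const_along hG (E := fun z => E z - E' z) hη ?_
    intro z w _ _ hzw
    have h2 := h z w hzw
    show E z - E' z = E w - E' w
    linarith
  have h2 := hE γ x0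
  have h3 := hE' γ x0
  simp only at h1
  linarith

end F10G
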