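import Pool.Agent.Lib.MP_f10cd3_gt.G.Geod

/-! Row G3: a class supported in a small ball vanishes on the short loops. -/

set_option autoImplicit false

namespace F10G

open MPf10cd3

variable {Γ X M : Type} [Group Γ] [MetricSpace X] [MulAction Γ X] [MetricSpace M] {π : X → M}

private theorem g3_one {φ : Γ → ℝ} (hφ : φ ∈ Hm Γ) : φ 1 = 0 := by
  have h : φ (1 * 1) = φ 1 + φ 1 := hφ 1 1
  rw [one_mul] at h
  linarith

private theorem g3_inv {φ : Γ → ℝ} (hφ : φ ∈ Hm Γ) (γ : Γ) : φ γ⁻¹ = - φ γ := by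
  have h : φ (γ * γ⁻¹) = φ γ + φ γ⁻¹ := hφ γ γ⁻¹
  rw [mul_inv_cancel, g3_one hφ] at h
  linarith

/-- the function `E` is constant along a geodesic between two points over the same point, if it is
short compared with the distance from the ball -/
private theorem g3_const (hc : IsCover Γ π) (hG : IsGeod X) {p q : M} {r η s : ℝ} {E : X → ℝ}
    (hη : 0 < η)
    (hE : ∀ y z : X, dist y z < η → r ≤ dist p (π y) → r ≤ dist p (π z) → E y = E z)
    (hs : r + s ≤ dist p q) {a b : X} (ha : π a = q) (hb : π b = q) (hab : dist a b < 2 * s) :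
    E a = E b := by
  have key : ∀ z, dist a z + dist z b = dist a b → r ≤ dist p (π z) := by
    intro z hz
    have h1 := hc.le a z
    have h2 := hc.le z b
    rw [ha] at h1
    rw [hb] at h2
    have h3 := dist_triangle p (π z) q
    rw [dist_comm q (π z)] at h1
    rcases le_or_gt s (dist a z) with h | h
    · have : dist z b < s := by linarith
      linarith
    · linarith
  refine const_along hG hη fun z w hz hw hzw => ?_
  exact hE z w hzw (key z hz) (key w hw)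

/-- Let `x` be over `p`, `d(x, γx) < ℓ` and `φ γ ≠ 0`; `y` over `q` with `d(x,y) = D = d(p,q)`
(`hc.lift`).  The points `y`, `γ y`, `γ⁻¹ y` have distance at most `D + ℓ` from `x` (and at least
`d(p,q) > 0`), and the distance of two of them is at least `2 (D - r)`: otherwise every point of the
geodesic between them is nearer than `D - r` to one of the end points, so its image in `M` has
distance `> r` from `p`, and `E` is constant along the geodesic (`const_along`), but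
`E (γ y) - E y = φ γ ≠ 0`, `E (γ y) - E (γ⁻¹ y) = 2 φ γ`.
`NoThree` with `A = D + ℓ`, `τ = r + ℓ`. -/
theorem iso_at {κ : ℝ} (hc : IsCover Γ π) (hG : IsGeod X) (hX : NoThree κ X)
    {p q : M} {r ℓ : ℝ} {φ : Γ → ℝ} (hφ : φ ∈ Hm Γ) (hs : Sup π p r φ) (hr : 0 < r) (hℓ : 0 < ℓ)
    (hq : r < dist p q) (hD : 12 * (r + ℓ) ≤ dist p q + ℓ)
    (hA : 2 * √κ * (dist p q + ℓ) ≤ 1) :
    VanAt π p ℓ φ := by
  intro x hx γ hγ
  by_contra hne
  obtain ⟨E, hEq, η, hη, hE⟩ := hs
  obtain ⟨y0, hy0⟩ := hc.surj q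
  obtain ⟨γ', hγ'⟩ := hc.lift x y0
  have hy : π (γ' • y0) = q := by rw [hc.inv, hy0]
  have hxy : dist x (γ' • y0) = dist p q := by rw [hγ', hx, hy0]
  set y := γ' • y0 with hydef
  have hy2 : π (γ • y) = q := by rw [hc.inv, hy]
  have hy3 : π (γ⁻¹ • y) = q := by rw [hc.inv, hy]
  have hE2 : E (γ • y) = E y + φ γ := hEq γ y
  have hE3 : E (γ⁻¹ • y) = E y - φ γ := by
    rw [hEq γ⁻¹ y, g3_inv hφ]; ring
  have hlow : ∀ a b : X, π a = q → π b = q → E a ≠ E b → 2 * (dist p q - r) ≤ dist a b := by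
    intro a b ha hb hab
    by_contra hlt
    exact hab (g3_const hc hG hη hE (s := dist p q - r) (by linarith) ha hb (not_le.1 hlt))
  have hpos : ∀ a : X, π a = q → 0 < dist x a := by
    intro a ha
    have h := hc.le x a
    rw [hx, ha] at h
    linarith
  have hinv : dist x (γ⁻¹ • x) = dist x (γ • x) := by
    have h := hc.isom γ x (γ⁻¹ • x)
    rw [smul_inv_smul] at h
    rw [← h, dist_comm]
  have hd2 : dist x (γ • y) ≤ dist p q + ℓ := by
    have h1 := dist_triangle x (γ • x) (γ • y)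
    rw [hc.isom γ x y, hxy] at h1
    linarith
  have hd3 : dist x (γ⁻¹ • y) ≤ dist p q + ℓ := by
    have h1 := dist_triangle x (γ⁻¹ • x) (γ⁻¹ • y)
    rw [hc.isom γ⁻¹ x y, hxy, hinv] at h1
    linarith
  have h2 : (2 : ℝ) * (dist p q + ℓ - (r + ℓ)) = 2 * (dist p q - r) := by ring
  refine hX x y (γ • y) (γ⁻¹ • y) (dist p q + ℓ) (r + ℓ) (by linarith) hD hA (hpos y hy)
    (by linarith) (hpos _ hy2) hd2 (hpos _ hy3) hd3 ?_ ?_ ?_
  · rw [h2]
    refine hlow _ _ hy hy2 ?_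
    rw [hE2]
    intro h
    exact hne (by linarith)
  · rw [h2]
    refine hlow _ _ hy2 hy3 ?_
    rw [hE2, hE3]
    intro h
    exact hne (by linarith)
  · rw [h2]
    refine hlow _ _ hy3 hy ?_
    rw [hE3]
    intro h
    exact hne (by linarith)

/-- A loop at `y` of length `< ℓ`: if `d(p, πy) ≥ r + ℓ/2` the geodesic from `y` to `γ y` stays off
the ball, else the displacement of a point over `p` near `y` is `< 2r + 2ℓ`. -/
theorem van_of_sup (hc : IsCover Γ π) (hG : IsGeod X) {p : M} {r ℓ : ℝ} {φ : Γ → ℝ}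
    (hs : Sup π p r φ) (hr : 0 < r) (hℓ : 0 < ℓ) (hv : VanAt π p (2 * r + 2 * ℓ) φ) :
    Van X ℓ φ := by
  intro y γ hγ
  obtain ⟨E, hEq, η, hη, hE⟩ := hs
  rcases le_or_gt (r + ℓ / 2) (dist p (π y)) with h | h
  · have h1 : E y = E (γ • y) :=
      g3_const hc hG hη hE (s := ℓ / 2) h rfl (hc.inv γ y) (by linarith)
    have h2 := hEq γ y
    linarith
  · obtain ⟨x0, hx0⟩ := hc.surj p
    obtain ⟨γ', hγ'⟩ := hc.lift y x0
    have hx : π (γ' • x0) = p := by rw [hc.inv, hx0]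
    have hyx : dist y (γ' • x0) = dist p (π y) := by rw [hγ', hx0, dist_comm]
    refine hv (γ' • x0) hx γ ?_
    have h1 := dist_triangle4 (γ' • x0) y (γ • y) (γ • γ' • x0)
    rw [hc.isom γ y (γ' • x0), hyx, dist_comm (γ' • x0) y, hyx] at h1
    linarith

theorem Sup.mono {p : M} {r r' : ℝ} (h : r ≤ r') {φ : Γ → ℝ} (hs : Sup π p r φ) :
    Sup π p r' φ := by
  obtain ⟨E, hEq, η, hη, hE⟩ := hs
  exact ⟨E, hEq, η, hη, fun y z hyz h1 h2 => hE y z hyz (h.trans h1) (h.trans h2)⟩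

theorem VanAt.mono {p : M} {ℓ ℓ' : ℝ} (h : ℓ' ≤ ℓ) {φ : Γ → ℝ} (hv : VanAt π p ℓ φ) :
    VanAt π p ℓ' φ := fun x hx γ hγ => hv x hx γ (hγ.trans_le h)

theorem Van.mono {ℓ ℓ' : ℝ} (h : ℓ' ≤ ℓ) {φ : Γ → ℝ} (hv : Van X ℓ φ) : Van X ℓ' φ :=
  fun x γ hγ => hv x γ (hγ.trans_le h)

/-- enough to vanish at every point of `M` -/
theorem van_of_vanAt {ℓ : ℝ} {φ : Γ → ℝ} (hv : ∀ p : M, VanAt π p ℓ φ) : Van X ℓ φ :=
  fun x γ hγ => hv (π x) x rfl γ hγ

end F10G
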