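import Pool.Agent.Lib.MP_f10cd3_gt.G.Geod

/-! Row S0: the elements `k a b` at a scale below the smallest displacement `ι`. -/

set_option autoImplicit false

namespace F10G

open MPf10cd3

variable {Γ X M : Type} [Group Γ] [MetricSpace X] [MulAction Γ X] [MetricSpace M]
  {π : X → M} {s : M → X} {k : M → M → Γ}

/-- a section exists -/
theorem exists_sec (hc : IsCover Γ π) : ∃ (s : M → X) (k : M → M → Γ), IsSec π s k := by
  have h1 := fun a b : M => hc.lift (Function.surjInv hc.surj a) (Function.surjInv hc.surj b)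
  choose k hk using h1
  refine ⟨Function.surjInv hc.surj, k, Function.surjInv_eq hc.surj, ?_⟩
  intro a b
  rw [hk, Function.surjInv_eq hc.surj, Function.surjInv_eq hc.surj]

theorem f10S0_eq_one {ι : ℝ}
    (hι : ∀ γ : Γ, γ ≠ 1 → ∀ x : X, ι ≤ dist x (γ • x)) {x : X} {γ : Γ}
    (hd : dist x (γ • x) < ι) : γ = 1 := by
  by_contra h
  exact absurd (hι γ h x) (not_le.2 hd)

theorem f10S0_eq {ι : ℝ}
    (hι : ∀ γ : Γ, γ ≠ 1 → ∀ x : X, ι ≤ dist x (γ • x)) {x : X} {α β : Γ}
    (hd : dist (α • x) (β • x) < ι) : α = β := by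
  have h1 : β * α⁻¹ = 1 := by
    apply f10S0_eq_one hι (x := α • x)
    rwa [mul_smul, inv_smul_smul]
  exact (mul_inv_eq_one.1 h1).symm

/-- close points with the same image are equal -/
theorem eq_of_near (hc : IsCover Γ π) {ι : ℝ}
    (hι : ∀ γ : Γ, γ ≠ 1 → ∀ x : X, ι ≤ dist x (γ • x)) {x y : X} (h : π x = π y)
    (hd : dist x y < ι) : x = y := by
  obtain ⟨γ, hγ⟩ := hc.lift x y
  rw [h, dist_self] at hγ
  have h1 : x = γ • y := dist_eq_zero.1 hγ
  have h2 : γ = 1 := by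
    apply f10S0_eq_one hι (x := y)
    rwa [← h1, dist_comm]
  rw [h1, h2, one_smul]

theorem k_mul (hc : IsCover Γ π) (hs : IsSec π s k) {ι : ℝ}
    (hι : ∀ γ : Γ, γ ≠ 1 → ∀ x : X, ι ≤ dist x (γ • x)) {a b c : M}
    (h : dist a b + dist b c + dist a c < ι) : k a b * k b c = k a c := by
  apply f10S0_eq hι (x := s c)
  have h1 : dist (s a) (k a b • s b) = dist a b := hs.kdist a b
  have h2 : dist (k a b • s b) ((k a b * k b c) • s c) = dist b c := by
    rw [mul_smul, hc.isom, hs.kdist]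
  have h3 : dist (s a) (k a c • s c) = dist a c := hs.kdist a c
  have h4 := dist_triangle ((k a b * k b c) • s c) (k a b • s b) (k a c • s c)
  have h5 := dist_triangle (k a b • s b) (s a) (k a c • s c)
  rw [dist_comm ((k a b * k b c) • s c) (k a b • s b)] at h4
  rw [dist_comm (k a b • s b) (s a)] at h5
  linarith

theorem k_self (hc : IsCover Γ π) (hs : IsSec π s k) {ι : ℝ} (h0 : 0 < ι)
    (hι : ∀ γ : Γ, γ ≠ 1 → ∀ x : X, ι ≤ dist x (γ • x)) (a : M) : k a a = 1 := by
  apply f10S0_eq_one hι (x := s a)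
  rw [hs.kdist, dist_self]
  exact h0

/-- the point `x` is `α • s (π x)` for a unique `α` -/
theorem exists_lab (hc : IsCover Γ π) (hs : IsSec π s k) : ∃ lab : X → Γ,
    (∀ x, lab x • s (π x) = x) ∧ ∀ (γ : Γ) (x : X), lab (γ • x) = γ * lab x := by
  obtain ⟨ι, h0, hι⟩ := hc.free
  have h1 : ∀ x : X, ∃ γ : Γ, γ • s (π x) = x := by
    intro x
    obtain ⟨γ, hγ⟩ := hc.lift x (s (π x))
    rw [hs.sec, dist_self] at hγ
    exact ⟨γ, (dist_eq_zero.1 hγ).symm⟩
  choose lab hlab using h1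
  refine ⟨lab, hlab, ?_⟩
  intro γ x
  apply f10S0_eq hι (x := s (π x))
  have h2 := hlab (γ • x)
  rw [hc.inv] at h2
  rw [h2, mul_smul, hlab, dist_self]
  exact h0

/-- nearby points of `X` -/
theorem k_lab (hc : IsCover Γ π) (hs : IsSec π s k) {ι : ℝ}
    (hι : ∀ γ : Γ, γ ≠ 1 → ∀ x : X, ι ≤ dist x (γ • x)) {lab : X → Γ}
    (hlab : ∀ x, lab x • s (π x) = x) {x y : X} (h : 2 * dist x y < ι) :
    lab x * k (π x) (π y) = lab y := by
  apply f10S0_eq hι (x := s (π y))
  rw [hlab]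
  have h1 : dist x ((lab x * k (π x) (π y)) • s (π y)) = dist (π x) (π y) := by
    have h0 : dist (lab x • s (π x)) ((lab x * k (π x) (π y)) • s (π y)) = dist (π x) (π y) := by
      rw [mul_smul, hc.isom, hs.kdist]
    rwa [hlab x] at h0
  have h2 := hc.le x y
  have h3 := dist_triangle ((lab x * k (π x) (π y)) • s (π y)) x y
  rw [dist_comm ((lab x * k (π x) (π y)) • s (π y)) x] at h3
  linarith

end F10G
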