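import Pool.Agent.Lib.MP_f10cd3_gt.G.SimpCoc
import Pool.Agent.Lib.MP_f10cd3_gt.G.Edge
import Pool.Agent.Lib.MP_f10cd3_gt.G.Dual

/-! Row S7: the Poincare dual of a loop. -/

set_option autoImplicit false

namespace F10G

open MPf10cd3

variable {V : Type} [Fintype V] [DecidableEq V] {D : Finset (V × V × V)} {g : ℕ}
  {Γ X M : Type} [Group Γ] [MetricSpace X] [MulAction Γ X] [MetricSpace M] {π : X → M} {μ : ℝ}
  {s : M → X} {k : M → M → Γ}
  {τ : Triang D M μ} {P : V → M} {B : V × V × V → M} {o : V × V × V → V × V × V}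
  {v : M → V} {η : ℝ}

/-- For `x ∈ X`, `γ ∈ Γ`: chain `z_i` from `x` to `γ x` on a geodesic with steps `< η`
(`chain_small`), `w i = v (π z_i)` (`adj_of_pos`), `dual_loop`, `simp_coc`, `edge_phi`,
`sum_exact`.  The value is `∑ ψ (k (B t_i) (B t_{i+1})) = ψ γ`: with `lab` (`exists_lab`, `k_lab`)
and points `b_i` over `B t_i` near `z_i`, `ψ (k (B t_i) (B t_{i+1})) = ψ (lab b_{i+1}) - ψ (lab b_i)`
and `b_n = γ b_0` (`eq_of_near`). -/
theorem exists_dual [CSC X] [CompactSpace M] (hG : IsGeod X)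
    (hc : IsCover Γ π) (hs : IsSec π s k) {ι : ℝ}
    (hμ : 0 < μ) (hμι : 20 * μ < ι) (hι : ∀ γ : Γ, γ ≠ 1 → ∀ x : X, ι ≤ dist x (γ • x))
    (hD : IsCS D g) (hA : IsAux τ P B o v η) (x : X) (γ : Γ) :
    ∃ φ ∈ Hm Γ, Sup π (π x) (dist x (γ • x) / 2 + 10 * μ) φ ∧ ∀ ψ ∈ Hm Γ,
      (∑ t ∈ D, φ (k (P t.1) (P t.2.1)) * ψ (k (B t) (B (o t)))) / 2 = ψ γ := by
  classical
  obtain ⟨n, z, hn, hz0, hzn, hstep, hgeo⟩ := chain_small hG x (γ • x) hA.η0
  have hπz : ∀ i ≤ n, dist (π x) (π (z i)) ≤ dist x (γ • x) / 2 := by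
    intro i hi
    have h1 := hc.le x (z i)
    have h2 := hc.le (γ • x) (z i)
    rw [hc.inv] at h2
    have h3 := hgeo i hi
    rw [dist_comm (z i)] at h3
    linarith
  have hpos : ∀ i, 0 < τ.lam (π (z i)) (v (π (z i))) := fun i => hA.hv _
  have hwn : v (π (z n)) = v (π (z 0)) := by rw [hzn, hz0, hc.inv]
  have hadj : ∀ i < n, v (π (z i)) = v (π (z (i + 1))) ∨
      ∃ c, (v (π (z i)), v (π (z (i + 1))), c) ∈ D := by
    intro i hi
    refine adj_of_pos hD τ (y := π (z (i + 1))) (hA.hvη _ _ ?_) (hA.hv _)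
    exact lt_of_le_of_lt (hc.le _ _) (hstep i hi)
  obtain ⟨t, ζ, ht, htn, hdual⟩ := dual_loop hD hA n (fun i => v (π (z i))) hwn hadj
  have hζ0 : ∀ a, ζ a a = 0 := by
    intro a
    have := hdual.anti a a
    linarith
  have hζ : ∀ a b c, (a, b, c) ∈ D → ζ a b + ζ b c + ζ c a = 0 := by
    intro a b c h
    rw [hdual.bd a b c h]
    ring
  obtain ⟨φ, E, hφ, hφE, hE⟩ := simp_coc hG hc hD hA hζ0 hdual.anti hζ
  refine ⟨φ, hφ, ⟨E, hφE, η, hA.η0, ?_⟩, ?_⟩
  · intro y y' hyy hy hy'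
    have key : ∀ u : X, dist x (γ • x) / 2 + 10 * μ ≤ dist (π x) (π u) →
        v (π u) ∉ {a | ∃ i ≤ n, a = v (π (z i))} := by
      intro u hu hmem
      obtain ⟨i, hi, he⟩ := hmem
      have h1 : 0 < τ.lam (π (z i)) (v (π u)) := by rw [he]; exact hpos i
      have h2 := τ.mesh (v (π u)) (π (z i)) (π u) h1 (hA.hv _)
      have h3 := hπz i hi
      have h4 := dist_triangle (π x) (π (z i)) (π u)
      linarith
    have h1 := hE y y' hyy
    have h2 : ζ (v (π y)) (v (π y')) = 0 := by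
      by_contra hne
      rcases hdual.supp _ _ hne with h | h
      · exact key y hy h
      · exact key y' hy' h
    rw [h2] at h1
    linarith
  · intro ψ hψ
    have hψm : ∀ a b, ψ (a * b) = ψ a + ψ b := hψ
    have hcoc := psi_coc (μ := μ) hc hs hμι hι hψ
    have e1 : ∑ u ∈ D, φ (k (P u.1) (P u.2.1)) * ψ (k (B u) (B (o u))) =
        ∑ u ∈ D, ζ u.1 u.2.1 * ψ (k (B u) (B (o u))) -
          ∑ u ∈ D, (E (s (P u.2.1)) - E (s (P u.1))) * ψ (k (B u) (B (o u))) := by
      rw [← Finset.sum_sub_distrib]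
      refine Finset.sum_congr rfl fun u hu => ?_
      obtain ⟨a, b, c⟩ := u
      have h := edge_phi hc hs hμι hι hD hA hζ0 hdual.anti hφE hE hu
      show φ (k (P a) (P b)) * _ = ζ a b * _ - (E (s (P b)) - E (s (P a))) * _
      rw [h]
      ring
    have e2 := sum_exact hD hA (fun a => E (s (P a))) (c := fun p q => ψ (k p q)) hcoc
    have e3 := hdual.sum (fun p q => ψ (k p q)) hcoc
    rw [e1, e2, sub_zero, e3]
    obtain ⟨lab, hlab, hlabm⟩ := exists_lab hc hs
    have hb : ∀ i ≤ n, ∃ b : X, π b = B (t i) ∧ dist (z i) b < 2 * μ := by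
      intro i hi
      obtain ⟨y, hy⟩ := hc.surj (B (t i))
      obtain ⟨γ', hγ'⟩ := hc.lift (z i) y
      refine ⟨γ' • y, by rw [hc.inv, hy], ?_⟩
      rw [hγ', hy]
      obtain ⟨h1, h2⟩ := ht i hi
      have h3 : dist (B (t i)) (P (t i).1) < μ := by
        have := (hA.nearB (a := (t i).1) (b := (t i).2.1) (c := (t i).2.2) h1).1
        exact this
      have h4 : dist (π (z i)) (P (t i).1) < μ := hA.near (by rw [h2]; exact hpos i)
      have h5 := dist_triangle_right (π (z i)) (B (t i)) (P (t i).1)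
      linarith
    choose! b hbπ hbd using hb
    have hμη := hA.ημ
    have htel : ∀ m ≤ n, ∑ i ∈ Finset.range m, ψ (k (B (t i)) (B (t (i + 1)))) =
        ψ (lab (b m)) - ψ (lab (b 0)) := by
      intro m
      induction m with
      | zero => intro _; simp
      | succ m ih =>
        intro hm
        rw [Finset.sum_range_succ, ih (by omega)]
        have hd : 2 * dist (b m) (b (m + 1)) < ι := by
          have h1 := hbd m (by omega)
          have h2 := hbd (m + 1) hm
          have h3 := hstep m (by omega)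
          have h4 := dist_triangle (b m) (z m) (b (m + 1))
          have h5 := dist_triangle (z m) (z (m + 1)) (b (m + 1))
          rw [dist_comm (b m) (z m)] at h4
          linarith
        have h6 := k_lab hc hs hι hlab hd
        rw [hbπ m (by omega), hbπ (m + 1) hm] at h6
        have h7 := hψm (lab (b m)) (k (B (t m)) (B (t (m + 1))))
        rw [h6] at h7
        linarith
    have hbn : b n = γ • b 0 := by
      refine eq_of_near hc hι ?_ ?_
      · rw [hc.inv, hbπ n le_rfl, hbπ 0 (Nat.zero_le _), htn]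
      · have h1 := hbd n le_rfl
        have h2 := hbd 0 (Nat.zero_le _)
        have h3 := dist_triangle (b n) (z n) (γ • b 0)
        have h4 : dist (z n) (γ • b 0) = dist (z 0) (b 0) := by
          rw [hzn, hc.isom, hz0]
        rw [dist_comm (b n) (z n)] at h3
        linarith
    show ∑ i ∈ Finset.range n, ψ (k (B (t i)) (B (t (i + 1)))) = ψ γ
    rw [htel n le_rfl, hbn, hlabm, hψm]
    ring

end F10G
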