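import Pool.Agent.Lib.MP_f10cd3_gt.G.Geod
import Pool.Agent.Lib.MP_f10cd3_gt.G.Vert

/-! Row S2: a simplicial cocycle defines a class. -/

set_option autoImplicit false

namespace F10G

open MPf10cd3

variable {V : Type} [Fintype V] [DecidableEq V] {D : Finset (V × V × V)} {g : ℕ}
  {Γ X M : Type} [Group Γ] [MetricSpace X] [MulAction Γ X] [MetricSpace M] {π : X → M} {μ : ℝ}
  {τ : Triang D M μ} {P : V → M} {B : V × V × V → M} {o : V × V × V → V × V × V}
  {v : M → V} {η : ℝ}

/-- `c(x, y) = z (v (π x)) (v (π y))` is a cocycle at the scale `η`: for `x, y, w` pairwise nearer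
than `η` the three vertices have positive coordinates at `π x` (`add_of_pos`).
`exists_primitive`. -/
theorem simp_coc [CSC X] (hG : IsGeod X) (hc : IsCover Γ π) (hD : IsCS D g)
    (hA : IsAux τ P B o v η) {z : V → V → ℝ} (h0 : ∀ a, z a a = 0)
    (ha : ∀ a b, z b a = -z a b) (hz : ∀ a b c, (a, b, c) ∈ D → z a b + z b c + z c a = 0) :
    ∃ (φ : Γ → ℝ) (E : X → ℝ), φ ∈ Hm Γ ∧ Eqv φ E ∧
      ∀ x y, dist x y < η → E y - E x = z (v (π x)) (v (π y)) := by
  refine exists_primitive (c := fun x y => z (v (π x)) (v (π y))) hG hc.isom hA.η0 ?_ ?_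
  · intro x y w hxy _ hxw
    have h1 : 0 < τ.lam (π x) (v (π x)) := hA.hv (π x)
    have h2 : 0 < τ.lam (π x) (v (π y)) := by
      apply hA.hvη
      rw [dist_comm]
      exact lt_of_le_of_lt (hc.le x y) hxy
    have h3 : 0 < τ.lam (π x) (v (π w)) := by
      apply hA.hvη
      rw [dist_comm]
      exact lt_of_le_of_lt (hc.le x w) hxw
    exact add_of_pos hD τ h0 ha hz h1 h2 h3
  · intro γ x y
    simp only [hc.inv]

end F10G
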