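import Pool.Agent.Lib.MP_f10cd3_gt.G.PD
import Pool.Agent.Lib.MP_f10cd3_gt.G.FormT1
import Pool.Agent.Lib.MP_f10cd3_gt.G.Dim
import Pool.Agent.Lib.MP_f10cd3_gt.G.Core

/-! Row S9: the dimension of the first cohomology of a surface. -/

set_option autoImplicit false

namespace F10G

open MPf10cd3

variable {Γ X M : Type} [Group Γ] [MetricSpace X] [MulAction Γ X] [MetricSpace M] {π : X → M}

theorem S9_hm_one {φ : Γ → ℝ} (hφ : φ ∈ Hm Γ) : φ 1 = 0 := by
  have h : φ (1 * 1) = φ 1 + φ 1 := hφ 1 1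
  rw [mul_one] at h
  linarith

section

variable {V : Type} [Fintype V] [DecidableEq V] {D : Finset (V × V × V)} {g : ℕ}
  {μ : ℝ} {s : M → X} {k : M → M → Γ}
  {τ : Triang D M μ} {P : V → M} {B : V × V × V → M} {o : V × V × V → V × V × V}
  {v : M → V} {η : ℝ}

/-- the values of a class on the edges -/
noncomputable def S9psi (Γ : Type) [Group Γ] {M : Type} {V : Type} (D : Finset (V × V × V))
    (k : M → M → Γ) (P : V → M) : Hm Γ →ₗ[ℝ] (D → ℝ) where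
  toFun φ := fun t => φ.1 (k (P t.1.1) (P t.1.2.1))
  map_add' := by
    intro φ φ'
    rfl
  map_smul' := by
    intro r φ
    rfl

theorem S9_anti (hc : IsCover Γ π) (hs : IsSec π s k) {ι : ℝ} (hμ : 0 < μ) (hμι : 20 * μ < ι)
    (hι : ∀ γ : Γ, γ ≠ 1 → ∀ x : X, ι ≤ dist x (γ • x)) (hD : IsCS D g)
    (hA : IsAux τ P B o v η) {φ : Γ → ℝ} (hφ : φ ∈ Hm Γ) {a b c : V} (h : (a, b, c) ∈ D) :
    φ (k (P b) (P a)) = -φ (k (P a) (P b)) := by
  have h1 := hA.distP h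
  have h2 : k (P b) (P a) * k (P a) (P b) = k (P b) (P b) := by
    refine k_mul hc hs hι ?_
    rw [dist_self, dist_comm (P b) (P a)]
    linarith
  have h3 := k_self hc hs (by linarith) hι (P b)
  have h4 : φ (k (P b) (P a) * k (P a) (P b)) = φ (k (P b) (P a)) + φ (k (P a) (P b)) := hφ _ _
  rw [h2, h3, S9_hm_one hφ] at h4
  linarith

theorem S9_mem (hc : IsCover Γ π) (hs : IsSec π s k) {ι : ℝ} (hμ : 0 < μ) (hμι : 20 * μ < ι)
    (hι : ∀ γ : Γ, γ ≠ 1 → ∀ x : X, ι ≤ dist x (γ • x)) (hD : IsCS D g)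
    (hA : IsAux τ P B o v η) (φ : Hm Γ) : S9psi Γ D k P φ ∈ Zc D := by
  refine ⟨fun a b c d h h' => ?_, fun a b c h h' h'' => ?_⟩
  · exact S9_anti hc hs hμ hμι hι hD hA φ.2 h
  · show φ.1 (k (P a) (P b)) + φ.1 (k (P b) (P c)) + φ.1 (k (P c) (P a)) = 0
    have h1 := hA.distP h
    have h2 := hA.distP h'
    have h3 := hA.distP h''
    have h4 : k (P a) (P b) * k (P b) (P c) = k (P a) (P c) := by
      refine k_mul hc hs hι ?_
      rw [dist_comm (P a) (P c)]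
      linarith
    have h5 : φ.1 (k (P a) (P b) * k (P b) (P c)) = φ.1 (k (P a) (P b)) + φ.1 (k (P b) (P c)) :=
      φ.2 _ _
    rw [h4] at h5
    have h6 := S9_anti hc hs hμ hμι hι hD hA φ.2 h''
    rw [← h5, h6]
    ring

theorem S9_inj (hG : IsGeod X) [Nonempty X] (hc : IsCover Γ π) (hs : IsSec π s k) {ι : ℝ}
    (hμ : 0 < μ) (hμι : 20 * μ < ι)
    (hι : ∀ γ : Γ, γ ≠ 1 → ∀ x : X, ι ≤ dist x (γ • x)) (hD : IsCS D g)
    (hA : IsAux τ P B o v η) (φ : Hm Γ) (h : V → ℝ) (he : S9psi Γ D k P φ = cob D h) :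
    φ = 0 := by
  have hval : ∀ a b c, (a, b, c) ∈ D → φ.1 (k (P a) (P b)) = h b - h a := fun a b c hd =>
    congrFun he ⟨(a, b, c), hd⟩
  obtain ⟨lab, hl1, hl2⟩ := exists_lab hc hs
  obtain ⟨x0⟩ := ‹Nonempty X›
  ext γ
  obtain ⟨n, z, hn, hz0, hzn, hstep, -⟩ := chain_small hG x0 (γ • x0) hA.η0
  have hημ := hA.ημ
  set w : ℕ → V := fun i => v (π (z i)) with hw
  set L : ℕ → Γ := fun i => lab (z i) * k (π (z i)) (P (w i)) with hL
  have hnear : ∀ i, dist (π (z i)) (P (w i)) < μ := fun i => hA.near (hA.hv _)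
  have key : ∀ i < n, φ.1 (L (i + 1)) = φ.1 (L i) + (h (w (i + 1)) - h (w i)) := by
    intro i hi
    have hst := hstep i hi
    have hd : dist (π (z i)) (π (z (i + 1))) < η := (hc.le _ _).trans_lt hst
    have n1 := hnear i
    have n2 := hnear (i + 1)
    have n3 : dist (π (z i)) (P (w (i + 1))) < η + μ :=
      (dist_triangle _ (π (z (i + 1))) _).trans_lt (by linarith)
    have hadj := adj_of_pos hD τ (hA.hvη _ _ hd) (hA.hv (π (z (i + 1))))
    have hedge : dist (P (w i)) (P (w (i + 1))) < 2 * μ ∧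
        φ.1 (k (P (w i)) (P (w (i + 1)))) = h (w (i + 1)) - h (w i) := by
      rcases hadj with h1 | ⟨c, h1⟩
      · have h1' : w i = w (i + 1) := h1
        rw [← h1', dist_self, k_self hc hs (by linarith) hι, S9_hm_one φ.2]
        exact ⟨by linarith, by ring⟩
      · exact ⟨hA.distP h1, hval _ _ _ h1⟩
    have e1 : k (π (z i)) (P (w i)) * k (P (w i)) (P (w (i + 1))) =
        k (π (z i)) (P (w (i + 1))) := k_mul hc hs hι (by linarith [hedge.1])
    have e2 : k (π (z i)) (π (z (i + 1))) * k (π (z (i + 1))) (P (w (i + 1))) =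
        k (π (z i)) (P (w (i + 1))) := k_mul hc hs hι (by linarith)
    have e3 : lab (z i) * k (π (z i)) (π (z (i + 1))) = lab (z (i + 1)) :=
      k_lab hc hs hι hl1 (by linarith)
    have e4 : L (i + 1) = L i * k (P (w i)) (P (w (i + 1))) := by
      show lab (z (i + 1)) * k (π (z (i + 1))) (P (w (i + 1))) =
        lab (z i) * k (π (z i)) (P (w i)) * k (P (w i)) (P (w (i + 1)))
      rw [mul_assoc, e1, ← e3, mul_assoc, e2]
    rw [e4]
    have e5 : φ.1 (L i * k (P (w i)) (P (w (i + 1)))) =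
        φ.1 (L i) + φ.1 (k (P (w i)) (P (w (i + 1)))) := φ.2 _ _
    rw [e5, hedge.2]
  have tele : ∀ i ≤ n, φ.1 (L i) = φ.1 (L 0) + (h (w i) - h (w 0)) := by
    intro i
    induction i with
    | zero => intro _; ring
    | succ i ih =>
      intro hi
      rw [key i hi, ih (by omega)]
      ring
  have hn' := tele n le_rfl
  have hπ : π (z n) = π (z 0) := by rw [hzn, hz0, hc.inv]
  have hwn : w n = w 0 := by
    show v (π (z n)) = v (π (z 0))
    rw [hπ]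
  have hLn : L n = γ * L 0 := by
    show lab (z n) * k (π (z n)) (P (w n)) = γ * (lab (z 0) * k (π (z 0)) (P (w 0)))
    rw [hwn, hπ, hzn, hz0, hl2, mul_assoc]
  have e6 : φ.1 (γ * L 0) = φ.1 γ + φ.1 (L 0) := φ.2 _ _
  rw [hLn, hwn, e6] at hn'
  show φ.1 γ = 0
  linarith

open Classical in
theorem S9_surj [CSC X] [CompactSpace M] (hG : IsGeod X) (hc : IsCover Γ π)
    (hs : IsSec π s k) {ι : ℝ} (hμι : 20 * μ < ι)
    (hι : ∀ γ : Γ, γ ≠ 1 → ∀ x : X, ι ≤ dist x (γ • x)) (hD : IsCS D g)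
    (hA : IsAux τ P B o v η) (u : D → ℝ) (hu : u ∈ Zc D) :
    ∃ (φ : Hm Γ) (h : V → ℝ), u = S9psi Γ D k P φ + cob D h := by
  obtain ⟨hu1, hu2⟩ := hu
  set z : V → V → ℝ := fun a b =>
    if h : ∃ c, (a, b, c) ∈ D then u ⟨(a, b, h.choose), h.choose_spec⟩ else 0 with hz
  have hz1 : ∀ a b c (h : (a, b, c) ∈ D), z a b = u ⟨(a, b, c), h⟩ := by
    intro a b c h
    have hex : ∃ c, (a, b, c) ∈ D := ⟨c, h⟩
    have e1 : z a b = u ⟨(a, b, hex.choose), hex.choose_spec⟩ := dif_pos hex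
    rw [e1]
    have e2 : hex.choose = c := hD.uniq _ _ _ _ hex.choose_spec h
    congr 2
    rw [e2]
  have h0 : ∀ a, z a a = 0 := by
    intro a
    refine dif_neg ?_
    rintro ⟨c, hc⟩
    exact hD.ne _ _ _ hc rfl
  have ha : ∀ a b, z b a = -z a b := by
    intro a b
    by_cases hex : ∃ c, (a, b, c) ∈ D
    · obtain ⟨c, h⟩ := hex
      obtain ⟨d, h'⟩ := hD.opp _ _ _ h
      rw [hz1 a b c h, hz1 b a d h']
      exact hu1 a b c d h h'
    · have hex' : ¬∃ c, (b, a, c) ∈ D := by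
        rintro ⟨c, h⟩
        exact hex (hD.opp _ _ _ h)
      have e1 : z a b = 0 := dif_neg hex
      have e2 : z b a = 0 := dif_neg hex'
      rw [e1, e2, neg_zero]
  have hcyc : ∀ a b c, (a, b, c) ∈ D → z a b + z b c + z c a = 0 := by
    intro a b c h
    have h' := hD.rot _ _ _ h
    have h'' := hD.rot _ _ _ h'
    rw [hz1 a b c h, hz1 b c a h', hz1 c a b h'']
    exact hu2 a b c h h' h''
  obtain ⟨φ, E, hφ, hE1, hE2⟩ := simp_coc hG hc hD hA h0 ha hcyc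
  refine ⟨⟨φ, hφ⟩, fun a => E (s (P a)), ?_⟩
  funext t
  obtain ⟨⟨a, b, c⟩, ht⟩ := t
  have e1 := edge_phi hc hs hμι hι hD hA h0 ha hE1 hE2 ht
  show u ⟨(a, b, c), ht⟩ = φ (k (P a) (P b)) + (E (s (P b)) - E (s (P a)))
  rw [e1, hz1 a b c ht]
  ring

end

/-- Row S9. `φ ↦ (φ (k (P a) (P b)))` is an isomorphism of `Hm Γ` with a complement of the
coboundaries in the simplicial cocycles: if `φ (k (P a) (P b)) = h b - h a` on all edges, then
`φ = 0` (chain from `x` to `γ x`, vertices near it, `lab`); surjective modulo coboundaries by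
`simp_coc` and `edge_phi`. -/
theorem surf_dim [CSC X] [CompactSpace M] (hG : IsGeod X)
    (hc : IsCover Γ π) {g : ℕ} (hM : IsSurface g M) :
    FiniteDimensional ℝ (Hm Γ) ∧ Module.finrank ℝ (Hm Γ) = 2 * g := by
  obtain ⟨ι, hι0, hι⟩ := hc.free
  obtain ⟨V, iF, iD, D, hD, ⟨τ⟩⟩ := hM (ι / 40) (by positivity)
  obtain ⟨P, B, o, v, η, hA⟩ := exists_aux (by positivity) hD τ
  obtain ⟨s, k, hs⟩ := exists_sec hc
  have hμ : 0 < ι / 40 := by positivity
  have hμι : 20 * (ι / 40) < ι := by linarith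
  obtain ⟨x0⟩ := (inferInstance : Nonempty X)
  haveI : Nonempty X := ⟨x0⟩
  haveI : Nonempty V := ⟨v (π x0)⟩
  have hinj : Function.Injective (S9psi Γ D k P) := by
    rw [← LinearMap.ker_eq_bot, LinearMap.ker_eq_bot']
    intro φ hφ
    refine S9_inj hG hc hs hμ hμι hι hD hA φ 0 ?_
    rw [hφ, map_zero]
  haveI : FiniteDimensional ℝ (Hm Γ) := FiniteDimensional.of_injective _ hinj
  refine ⟨inferInstance, ?_⟩
  have hsup : LinearMap.range (S9psi Γ D k P) ⊔ LinearMap.range (cob D) = Zc D := by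
    refine le_antisymm (sup_le ?_ (cob_le hD)) ?_
    · rintro _ ⟨φ, rfl⟩
      exact S9_mem hc hs hμ hμι hι hD hA φ
    · intro u hu
      obtain ⟨φ, h, rfl⟩ := S9_surj hG hc hs hμι hι hD hA u hu
      exact Submodule.add_mem_sup ⟨φ, rfl⟩ ⟨h, rfl⟩
  have hinf : LinearMap.range (S9psi Γ D k P) ⊓ LinearMap.range (cob D) = ⊥ := by
    rw [eq_bot_iff]
    rintro _ ⟨⟨φ, rfl⟩, ⟨h, hh⟩⟩
    have := S9_inj hG hc hs hμ hμι hι hD hA φ h hh.symm
    rw [this, map_zero]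
    exact Submodule.zero_mem _
  have h1 := Submodule.finrank_sup_add_finrank_inf_eq (LinearMap.range (S9psi Γ D k P))
    (LinearMap.range (cob D))
  rw [hsup, hinf, finrank_bot, add_zero, LinearMap.finrank_range_of_inj hinj] at h1
  have h2 := finrank_Zc hD
  have h3 := finrank_cob hD
  have h4 := hD.euler
  have h5 : (Module.finrank ℝ (Zc D) : ℚ) = (Module.finrank ℝ (Hm Γ) : ℚ) +
      (Module.finrank ℝ (LinearMap.range (cob D)) : ℚ) := by exact_mod_cast h1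
  have h6 : (Module.finrank ℝ (Hm Γ) : ℚ) = 2 * g := by linarith
  exact_mod_cast h6

private theorem S10_sup_mono {p : M} {r r' : ℝ} {φ : Γ → ℝ} (h : r ≤ r') (hS : Sup π p r φ) :
    Sup π p r' φ := by
  obtain ⟨E, hE, η, hη, h1⟩ := hS
  exact ⟨E, hE, η, hη, fun y z hyz hy hz => h1 y z hyz (h.trans hy) (h.trans hz)⟩

/-- Row S10. Take a triangulation with `μ < δ / 200` and `20 μ < ι`; `form_t1`, `exists_dual`. -/
theorem exists_frm [CSC X] [CompactSpace M] (hG : IsGeod X)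
    (hc : IsCover Γ π) {g : ℕ} (hM : IsSurface g M) {δ : ℝ} (hδ : 0 < δ) :
    ∃ I : (Γ → ℝ) →ₗ[ℝ] (Γ → ℝ) →ₗ[ℝ] ℝ, Frm Γ π δ I := by
  classical
  obtain ⟨ι, hι0, hι⟩ := hc.free
  obtain ⟨μ, hμ, hμδ, hμι⟩ : ∃ μ : ℝ, 0 < μ ∧ 200 * μ < δ ∧ 20 * μ < ι := by
    refine ⟨min (δ / 201) (ι / 21), lt_min (by positivity) (by positivity), ?_, ?_⟩
    · have := min_le_left (δ / 201) (ι / 21)
      linarith
    · have := min_le_right (δ / 201) (ι / 21)
      linarith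
  obtain ⟨V, iF, iD, D, hD, ⟨τ⟩⟩ := hM μ hμ
  obtain ⟨s, k, hs⟩ := exists_sec hc
  obtain ⟨P, B, o, v, η, hA⟩ := exists_aux hμ hD τ
  obtain ⟨I, hI⟩ := exists_form D k P B o
  have hdual : ∀ (x : X) (γ : Γ), ∃ φ ∈ Hm Γ, Sup π (π x) (dist x (γ • x) / 2 + 10 * μ) φ ∧
      ∀ ψ ∈ Hm Γ, I φ ψ = ψ γ := by
    intro x γ
    obtain ⟨φ, h1, h2, h3⟩ := exists_dual hG hc hs hμ hμι hι hD hA x γ
    exact ⟨φ, h1, h2, fun ψ hψ => (hI φ ψ).trans (h3 ψ hψ)⟩
  refine ⟨I, ⟨?_, ?_, ?_⟩⟩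
  · intro p r t φ ψ hφ hψ hr hrt hS hV
    rw [hI, form_t1 hG hc hs hμ hμι hι hD hA hφ hψ hr (by linarith) hS hV, zero_div]
  · intro p r ψ hψ h x hx γ hγ
    obtain ⟨φ, h1, h2, h3⟩ := hdual x γ
    rw [← h3 ψ hψ]
    rw [hx] at h2
    exact h φ h1 (S10_sup_mono (by linarith) h2)
  · intro ψ hψ h
    have hne : Nonempty X := CSC.ne
    obtain ⟨x⟩ := hne
    funext γ
    obtain ⟨φ, h1, _, h3⟩ := hdual x γ
    rw [← h3 ψ hψ]
    exact h φ h1

end F10G
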