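import Pool.Agent.Lib.MP_f10cd3_gt.G.Geod

/-! Row T1: transfer of classes along a map `f : M → M'` with distortion `< δ`. -/

set_option autoImplicit false

namespace F10G

open MPf10cd3

variable {Γ X M : Type} [Group Γ] [MetricSpace X] [MulAction Γ X] [MetricSpace M]
variable {Γ' X' M' : Type} [Group Γ'] [MetricSpace X'] [MulAction Γ' X'] [MetricSpace M']

/-- `T φ'` is the class of `M` with the local cocycle `φ'(k'(f a, f b))`, for all classes `φ'` of
`M'` which vanish on the loops of length `< L`, `L ≥ 3 (η + δ)`. -/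
def IsTr (X' : Type) [MetricSpace X'] [MulAction Γ' X'] (π : X → M) (k' : M' → M' → Γ')
    (f : M → M') (δ η : ℝ) (T : (Γ' → ℝ) →ₗ[ℝ] (Γ → ℝ)) : Prop :=
  ∀ φ' ∈ Hm Γ', ∀ L : ℝ, 3 * (η + δ) ≤ L → Van X' L φ' →
    T φ' ∈ Hm Γ ∧ ∃ E : X → ℝ, Eqv (T φ') E ∧ ∀ ηs : ℝ, 3 * (ηs + δ) ≤ L →
      ∀ x y, dist x y < ηs → E y - E x = φ' (k' (f (π x)) (f (π y)))

private theorem T1_inv {G : Type} [Group G] {φ : G → ℝ} (hφ : φ ∈ Hm G) (a : G) :
    φ a⁻¹ = -φ a := by
  have hφ' : ∀ a b, φ (a * b) = φ a + φ b := hφ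
  have h1 := hφ' 1 1
  rw [one_mul] at h1
  have h2 := hφ' a a⁻¹
  rw [mul_inv_cancel] at h2
  linarith

/-- `φ'(k'(a,b)) + φ'(k'(b,c)) = φ'(k'(a,c))` for a triangle of perimeter `< L` -/
theorem k_coc {π' : X' → M'} {s' : M' → X'} {k' : M' → M' → Γ'} (hc' : IsCover Γ' π')
    (hs' : IsSec π' s' k') {φ' : Γ' → ℝ} (hφ' : φ' ∈ Hm Γ') {L : ℝ} (hv : Van X' L φ')
    {a b c : M'} (h : dist a b + dist b c + dist a c < L) :
    φ' (k' a b) + φ' (k' b c) = φ' (k' a c) := by
  have hm : ∀ a b, φ' (a * b) = φ' a + φ' b := hφ'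
  have h1 := hs'.kdist a b
  have h2 := hs'.kdist b c
  have h3 := hs'.kdist a c
  have e2 : dist (k' a b • s' b) ((k' a b * k' b c) • s' c) = dist b c := by
    rw [mul_smul, hc'.isom, h2]
  have e3 : dist ((k' a b * k' b c) • s' c) ((k' a b * k' b c * (k' a c)⁻¹) • s' a) =
      dist a c := by
    rw [mul_smul (k' a b * k' b c) (k' a c)⁻¹, hc'.isom, ← hc'.isom (k' a c), smul_inv_smul,
      dist_comm, h3]
  have h4 : dist (s' a) ((k' a b * k' b c * (k' a c)⁻¹) • s' a) < L := by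
    have t1 := dist_triangle (s' a) (k' a b • s' b) ((k' a b * k' b c * (k' a c)⁻¹) • s' a)
    have t2 := dist_triangle (k' a b • s' b) ((k' a b * k' b c) • s' c)
      ((k' a b * k' b c * (k' a c)⁻¹) • s' a)
    linarith
  have h5 := hv (s' a) _ h4
  rw [hm, hm, T1_inv hφ'] at h5
  linarith

/-- `T φ' γ = ∑ φ'(k'(f π z_i, f π z_{i+1}))` for a fixed chain `z_i` from `x0` to `γ x0` with
steps `< η` (this is linear in `φ'`); use `exists_primitive`, `extend_scale`. -/
theorem exists_tr [CSC X] (hG : IsGeod X) {π : X → M} (hc : IsCover Γ π)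
    {π' : X' → M'} {s' : M' → X'} {k' : M' → M' → Γ'} (hc' : IsCover Γ' π')
    (hs' : IsSec π' s' k') {f : M → M'} {δ η : ℝ} (hη : 0 < η)
    (hf : ∀ a b, |dist (f a) (f b) - dist a b| < δ) :
    ∃ T : (Γ' → ℝ) →ₗ[ℝ] (Γ → ℝ), IsTr X' π k' f δ η T := by
  obtain ⟨x0⟩ : Nonempty X := inferInstance
  choose n z hn hz0 hzn hstep _ using fun γ : Γ => chain_small hG x0 (γ • x0) hη
  refine ⟨{ toFun := fun φ' γ => ∑ i ∈ Finset.range (n γ),
              φ' (k' (f (π (z γ i))) (f (π (z γ (i + 1)))))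
            map_add' := ?_
            map_smul' := ?_ }, ?_⟩
  · intro φ ψ
    funext γ
    exact Finset.sum_add_distrib
  · intro r φ
    funext γ
    exact (Finset.mul_sum _ _ _).symm
  · intro φ' hφ' L hL hv
    have hsc : ∀ x y, dist x y < L / 3 - δ → dist (f (π x)) (f (π y)) < L / 3 := by
      intro x y hxy
      have h1 := hc.le x y
      have h2 := (abs_lt.1 (hf (π x) (π y))).2
      linarith
    obtain ⟨φ, E, hφ, hE, hEc⟩ := exists_primitive (Γ := Γ) hG hc.isom
      (c := fun x y => φ' (k' (f (π x)) (f (π y)))) (η := L / 3 - δ) (by linarith)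
      (fun x y w h1 h2 h3 => k_coc hc' hs' hφ' hv (by
        have := hsc x y h1
        have := hsc y w h2
        have := hsc x w h3
        linarith))
      (fun γ x y => by
        show φ' (k' (f (π (γ • x))) (f (π (γ • y)))) = φ' (k' (f (π x)) (f (π y)))
        rw [hc.inv, hc.inv])
    have hT : (fun γ => ∑ i ∈ Finset.range (n γ),
        φ' (k' (f (π (z γ i))) (f (π (z γ (i + 1)))))) = φ := by
      funext γ
      have h1 : ∑ i ∈ Finset.range (n γ), φ' (k' (f (π (z γ i))) (f (π (z γ (i + 1))))) =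
          ∑ i ∈ Finset.range (n γ), (E (z γ (i + 1)) - E (z γ i)) := by
        refine Finset.sum_congr rfl fun i hi => ?_
        have h2 := hstep γ i (Finset.mem_range.1 hi)
        exact (hEc (z γ i) (z γ (i + 1)) (by linarith)).symm
      rw [h1, Finset.sum_range_sub (fun i => E (z γ i)), hzn γ, hz0 γ, hE γ x0]
      ring
    refine ⟨?_, E, ?_, ?_⟩
    · show (fun γ => ∑ i ∈ Finset.range (n γ),
        φ' (k' (f (π (z γ i))) (f (π (z γ (i + 1)))))) ∈ Hm Γ
      rw [hT]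
      exact hφ
    · show Eqv (fun γ => ∑ i ∈ Finset.range (n γ),
        φ' (k' (f (π (z γ i))) (f (π (z γ (i + 1)))))) E
      rw [hT]
      exact hE
    · intro ηs hηs x y hxy
      exact hEc x y (by linarith)

end F10G
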